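import Pool.Agent.LibMP916a8b.Pair2

/-!
The numerical heart of the union bound: `exp (3/4) > 2`.
-/

namespace Pool.Agent.LibMP916a8b

open Finset

set_option linter.unusedVariables false

/-- `D n = n log n - log n!` -/
noncomputable def Dn (n : ℕ) : ℝ := n * Real.log n - ∑ j ∈ range n, Real.log (j + 1)

theorem Dn_lower (n : ℕ) : 0.95 * (n : ℝ) - 19 ≤ Dn n ∧ 0 ≤ Dn n := by
  induction n with
  | zero => unfold Dn; norm_num
  | succ n ih =>
    have hstep : Dn (n + 1) = Dn n + n * (Real.log (n + 1) - Real.log n) := by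
      unfold Dn
      rw [sum_range_succ]
      push_cast
      ring
    rcases Nat.eq_zero_or_pos n with h0 | hpos
    · subst h0
      rw [hstep]
      simp only [CharP.cast_eq_zero, zero_mul, add_zero] at *
      refine ⟨?_, ih.2⟩
      norm_num
      have := ih.2
      linarith
    · have hn : (0 : ℝ) < n := by exact_mod_cast hpos
      have hlog : 1 / ((n : ℝ) + 1) ≤ Real.log (n + 1) - Real.log n := by
        rw [← Real.log_div (by positivity) (by positivity)]
        have h1 := Real.one_sub_inv_le_log_of_pos (x := ((n : ℝ) + 1) / n) (by positivity)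
        refine le_trans (le_of_eq ?_) h1
        field_simp
        ring
      have hge : (n : ℝ) / (n + 1) ≤ n * (Real.log (n + 1) - Real.log n) := by
        calc (n : ℝ) / (n + 1) = n * (1 / ((n : ℝ) + 1)) := by ring
          _ ≤ _ := mul_le_mul_of_nonneg_left hlog hn.le
      have hnn : 0 ≤ (n : ℝ) / (n + 1) := by positivity
      rw [hstep]
      refine ⟨?_, by linarith [ih.2]⟩
      rcases Nat.lt_or_ge n 19 with h | h
      · have : (n : ℝ) ≤ 18 := by exact_mod_cast Nat.lt_succ_iff.1 h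
        push_cast
        linarith [ih.2]
      · have h19 : (19 : ℝ) ≤ n := by exact_mod_cast h
        have : (0.95 : ℝ) ≤ n / (n + 1) := by
          rw [le_div_iff₀ (by positivity)]
          linarith
        push_cast
        linarith [ih.1]

/-- `A n = ∑ log (n choose m)` -/
noncomputable def An (n : ℕ) : ℝ := ∑ m ∈ range (n + 1), Real.log (n.choose m : ℕ)

theorem An_succ (n : ℕ) : An (n + 1) = An n + Dn (n + 1) := by
  unfold An Dn
  rw [sum_range_succ (fun m => Real.log (((n + 1).choose m : ℕ) : ℝ)) (n + 1)]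
  rw [Nat.choose_self, Nat.cast_one, Real.log_one, add_zero]
  have h1 : ∀ m ∈ range (n + 1), Real.log (((n + 1).choose m : ℕ) : ℝ) =
      Real.log (n.choose m : ℕ) + Real.log ((n : ℝ) + 1) - Real.log (((n - m : ℕ) : ℝ) + 1) := by
    intro m hm
    rw [mem_range] at hm
    have h2 := Nat.choose_mul_succ_eq n m
    have hp1 : (0 : ℝ) < (n.choose m : ℕ) := by
      exact_mod_cast Nat.choose_pos (by omega)
    have hp2 : (0 : ℝ) < ((n + 1).choose m : ℕ) := by
      exact_mod_cast Nat.choose_pos (by omega)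
    have h3 : ((n.choose m : ℕ) : ℝ) * ((n : ℝ) + 1) =
        ((n + 1).choose m : ℕ) * (((n - m : ℕ) : ℝ) + 1) := by
      have h4 : n + 1 - m = (n - m) + 1 := by omega
      rw [h4] at h2
      exact_mod_cast h2
    have h5 : Real.log (((n.choose m : ℕ) : ℝ) * ((n : ℝ) + 1)) =
        Real.log (((n + 1).choose m : ℕ) * (((n - m : ℕ) : ℝ) + 1)) := by rw [h3]
    rw [Real.log_mul hp1.ne' (by positivity), Real.log_mul hp2.ne' (by positivity)] at h5
    linarith
  rw [Finset.sum_congr rfl h1, Finset.sum_sub_distrib, Finset.sum_add_distrib, sum_const,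
    card_range, nsmul_eq_mul]
  have h6 : ∑ m ∈ range (n + 1), Real.log (((n - m : ℕ) : ℝ) + 1) =
      ∑ j ∈ range (n + 1), Real.log ((j : ℝ) + 1) := by
    rw [← Finset.sum_range_reflect]
    apply Finset.sum_congr rfl
    intro j hj
    rw [mem_range] at hj
    congr 3
    omega
  rw [h6]
  push_cast
  ring

theorem An_lower (n : ℕ) : 0.475 * ((n : ℝ) * (n + 1)) - 19 * n ≤ An n := by
  induction n with
  | zero => unfold An; norm_num
  | succ n ih =>
    rw [An_succ]
    have h := (Dn_lower (n + 1)).1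
    push_cast at h ⊢
    nlinarith

theorem log_Bm {n m : ℕ} (hn : 0 < n) (hm : m ≤ n) :
    Real.log (Bm n m) = 7 * Real.log n - 3 / 4 * Real.log (n.choose m : ℕ) := by
  unfold Bm
  have hn' : (0 : ℝ) < n := by exact_mod_cast hn
  have hp : (0 : ℝ) < (n.choose m : ℕ) := by exact_mod_cast Nat.choose_pos hm
  have hq : 0 < ((n.choose m : ℕ) : ℝ) ^ ((1 : ℝ) / 4) := Real.rpow_pos_of_pos hp _
  rw [Real.log_div (by positivity) (by positivity), Real.log_pow, Real.log_pow, Real.log_rpow hp]
  push_cast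
  ring

theorem Bm_pos {n m : ℕ} (hn : 0 < n) (hm : m ≤ n) : 0 < Bm n m := by
  unfold Bm
  have hn' : (0 : ℝ) < n := by exact_mod_cast hn
  have hp : (0 : ℝ) < (n.choose m : ℕ) := by exact_mod_cast Nat.choose_pos hm
  have hq : 0 < ((n.choose m : ℕ) : ℝ) ^ ((1 : ℝ) / 4) := Real.rpow_pos_of_pos hp _
  positivity

/-- threshold for `n` -/
def n0 : ℕ := 10 ^ 12

theorem s0_bound {n : ℕ} (hn : n0 ≤ n) {y : ℝ} (hy : 0 < y) (hy4 : y ^ 4 = n) :
    ((s0 n : ℕ) : ℝ) + 2 ≤ 600 * y ∧ Real.log n ≤ 4 * y ∧ 1000 ≤ y := by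
  have hn' : ((10 : ℝ) ^ 12) ≤ n := by
    have : 10 ^ 12 ≤ n := hn
    exact_mod_cast this
  have hy1000 : 1000 ≤ y := by
    by_contra hcon
    rw [not_le] at hcon
    have : y ^ 4 < 1000 ^ 4 := pow_lt_pow_left₀ hcon hy.le (by norm_num)
    rw [hy4] at this
    norm_num at this hn'
    linarith
  have hlog : Real.log n ≤ 4 * y := by
    rw [← hy4, Real.log_pow]
    have := Real.log_le_sub_one_of_pos hy
    push_cast
    linarith
  refine ⟨?_, hlog, hy1000⟩
  have hq : ((Nat.log 2 n : ℕ) : ℝ) * Real.log 2 ≤ Real.log n := by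
    have h1 : 2 ^ Nat.log 2 n ≤ n := Nat.pow_log_le_self 2 (by
      have : 0 < 10 ^ 12 := by norm_num
      have : 10 ^ 12 ≤ n := hn
      omega)
    have h2 : ((2 : ℝ) ^ Nat.log 2 n) ≤ n := by exact_mod_cast h1
    rw [← Real.log_pow]
    exact Real.log_le_log (by positivity) h2
  have hl2 := Real.log_two_gt_d9
  have hq2 : ((Nat.log 2 n : ℕ) : ℝ) ≤ 5.8 * y := by
    have h3 : ((Nat.log 2 n : ℕ) : ℝ) * 0.6931471803 ≤ 4 * y := by
      calc _ ≤ ((Nat.log 2 n : ℕ) : ℝ) * Real.log 2 :=
            mul_le_mul_of_nonneg_left hl2.le (Nat.cast_nonneg _)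
        _ ≤ _ := hq.trans hlog
    nlinarith
  unfold s0
  push_cast
  linarith

theorem s0_le {n : ℕ} (hn : n0 ≤ n) : 2 * (s0 n + 2) ≤ n := by
  have hnpos : (0 : ℝ) ≤ n := Nat.cast_nonneg _
  set y : ℝ := (n : ℝ) ^ ((1 : ℝ) / 4) with hy
  have hn1 : (0 : ℝ) < n := by
    have : 0 < n := by
      have : 10 ^ 12 ≤ n := hn
      omega
    exact_mod_cast this
  have hypos : 0 < y := Real.rpow_pos_of_pos hn1 _
  have hy4 : y ^ 4 = n := by
    rw [hy, ← Real.rpow_natCast, ← Real.rpow_mul hnpos]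
    norm_num
  obtain ⟨h1, h2, h3⟩ := s0_bound hn hypos hy4
  have : (2 * ((s0 n : ℕ) + 2) : ℝ) ≤ n := by
    rw [← hy4]
    have : y ^ 4 = y * y ^ 3 := by ring
    rw [this]
    have : (1200 : ℝ) ≤ y ^ 3 := by
      calc (1200 : ℝ) ≤ 1000 ^ 3 := by norm_num
        _ ≤ y ^ 3 := pow_le_pow_left₀ (by norm_num) h3 3
    nlinarith
  exact_mod_cast this

/-- The union bound beats the number of graphs. -/
theorem numeric {n : ℕ} (hn : n0 ≤ n) :
    (n : ℝ) ^ 3 * 2 ^ (n.choose 2) * ∏ m ∈ Mset n, Bm n m ≤ 1 := by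
  have hnN : 10 ^ 12 ≤ n := hn
  have hn1 : (0 : ℝ) < n := by
    have : 0 < n := by omega
    exact_mod_cast this
  set y : ℝ := (n : ℝ) ^ ((1 : ℝ) / 4) with hy
  have hypos : 0 < y := Real.rpow_pos_of_pos hn1 _
  have hy4 : y ^ 4 = n := by
    rw [hy, ← Real.rpow_natCast, ← Real.rpow_mul hn1.le]
    norm_num
  obtain ⟨hs0, hlog, hy1000⟩ := s0_bound hn hypos hy4
  set l : ℝ := Real.log n with hl
  have hl0 : 0 ≤ l := Real.log_nonneg (by
    have : 1 ≤ n := by omega
    exact_mod_cast this)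
  have hprodpos : 0 < ∏ m ∈ Mset n, Bm n m :=
    Finset.prod_pos (fun m hm => Bm_pos (by omega) (mem_Mset_le hm))
  rw [← Real.log_nonpos_iff (by positivity)]
  rw [Real.log_mul (by positivity) hprodpos.ne', Real.log_mul (by positivity) (by positivity),
    Real.log_pow, Real.log_pow, Real.log_prod (fun m hm =>
      (Bm_pos (n := n) (by omega) (mem_Mset_le hm)).ne')]
  have h1 : ∑ m ∈ Mset n, Real.log (Bm n m) =
      (Mset n).card * (7 * l) - 3 / 4 * ∑ m ∈ Mset n, Real.log (n.choose m : ℕ) := by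
    rw [Finset.sum_congr rfl (fun m hm => log_Bm (by omega) (mem_Mset_le hm)),
      Finset.sum_sub_distrib, sum_const, nsmul_eq_mul, Finset.mul_sum]
  rw [h1]
  have hMcard : ((Mset n).card : ℝ) ≤ 2 * n := by
    have : (Mset n).card ≤ n + 1 := by
      unfold Mset
      refine (card_filter_le _ _).trans ?_
      rw [card_range]
    have h2 : ((Mset n).card : ℝ) ≤ n + 1 := by exact_mod_cast this
    have h3 : (1 : ℝ) ≤ n := by
      have : 1 ≤ n := by omega
      exact_mod_cast this
    linarith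
  -- the complement
  have h2 : An n ≤ ∑ m ∈ Mset n, Real.log (n.choose m : ℕ) +
      (2 * n) * (2 * (600 * y) * l) := by
    have hsub : Mset n ⊆ range (n + 1) := by unfold Mset; exact filter_subset _ _
    unfold An
    rw [← Finset.sum_sdiff hsub, add_comm]
    apply add_le_add le_rfl
    calc ∑ m ∈ range (n + 1) \ Mset n, Real.log (n.choose m : ℕ)
        ≤ ∑ m ∈ range (n + 1) \ Mset n, 2 * (600 * y) * l := by
          apply Finset.sum_le_sum
          intro m hm
          rw [mem_sdiff] at hm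
          have hm1 := hm.1
          have hm2 := hm.2
          rw [mem_range] at hm1
          have hpos : (0 : ℝ) < (n.choose m : ℕ) := by
            exact_mod_cast Nat.choose_pos (by omega)
          have hle : n.choose m ≤ n ^ (2 * (s0 n + 2)) := by
            by_cases h2m : 2 ≤ m
            · have hnot : ¬ (n.choose (s0 n + 2) ^ 2 ≤ n.choose m) := by
                intro hcon
                apply hm2
                unfold Mset
                rw [mem_filter, mem_range]
                exact ⟨hm1, h2m, hcon⟩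
              rw [not_le] at hnot
              calc n.choose m ≤ n.choose (s0 n + 2) ^ 2 := hnot.le
                _ ≤ (n ^ (s0 n + 2)) ^ 2 := Nat.pow_le_pow_left (Nat.choose_le_pow _ _) 2
                _ = n ^ (2 * (s0 n + 2)) := by rw [← pow_mul]; ring_nf
            · calc n.choose m ≤ n ^ m := Nat.choose_le_pow _ _
                _ ≤ n ^ (2 * (s0 n + 2)) := Nat.pow_le_pow_right (by omega) (by omega)
          have h3 : Real.log (n.choose m : ℕ) ≤ (2 * ((s0 n : ℕ) + 2) : ℝ) * l := by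
            have h4 : ((n.choose m : ℕ) : ℝ) ≤ (n : ℝ) ^ (2 * (s0 n + 2)) := by
              exact_mod_cast hle
            have h5 := Real.log_le_log hpos h4
            rw [Real.log_pow] at h5
            push_cast at h5
            exact h5
          refine h3.trans ?_
          apply mul_le_mul_of_nonneg_right _ hl0
          linarith
      _ = ((range (n + 1) \ Mset n).card : ℝ) * (2 * (600 * y) * l) := by
          rw [sum_const, nsmul_eq_mul]
      _ ≤ (2 * n) * (2 * (600 * y) * l) := by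
          apply mul_le_mul_of_nonneg_right _ (by positivity)
          have : (range (n + 1) \ Mset n).card ≤ n + 1 := by
            refine (card_le_card sdiff_subset).trans ?_
            rw [card_range]
          have h2 : ((range (n + 1) \ Mset n).card : ℝ) ≤ n + 1 := by exact_mod_cast this
          have h3 : (1 : ℝ) ≤ n := by
            have : 1 ≤ n := by omega
            exact_mod_cast this
          linarith
  have h3 := An_lower n
  have hchoose : ((n.choose 2 : ℕ) : ℝ) ≤ (n : ℝ) ^ 2 / 2 := by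
    rw [Nat.cast_choose_two]
    nlinarith
  have hlog2 := Real.log_two_lt_d9
  have hlog2pos : 0 < Real.log 2 := Real.log_pos (by norm_num)
  have e1 : ((n.choose 2 : ℕ) : ℝ) * Real.log 2 ≤ (n : ℝ) ^ 2 / 2 * 0.6931471808 := by
    apply mul_le_mul hchoose hlog2.le hlog2pos.le (by positivity)
  -- everything in terms of `y`
  have e2 : (n : ℝ) = y ^ 4 := hy4.symm
  have e3 : ((Mset n).card : ℝ) * (7 * l) ≤ 56 * y ^ 5 := by
    calc ((Mset n).card : ℝ) * (7 * l) ≤ (2 * n) * (7 * (4 * y)) := by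
          apply mul_le_mul hMcard (by linarith) (by positivity) (by positivity)
      _ = 56 * y ^ 5 := by rw [e2]; ring
  have e4 : (2 * (n : ℝ)) * (2 * (600 * y) * l) ≤ 9600 * y ^ 6 := by
    calc (2 * (n : ℝ)) * (2 * (600 * y) * l) ≤ (2 * (n : ℝ)) * (2 * (600 * y) * (4 * y)) := by
          apply mul_le_mul_of_nonneg_left _ (by positivity)
          apply mul_le_mul_of_nonneg_left hlog (by positivity)
      _ = 9600 * y ^ 6 := by rw [e2]; ring
  have e5 : 0.475 * (y ^ 8) - 19 * y ^ 4 ≤ An n := by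
    refine le_trans ?_ h3
    rw [e2]
    have : 0 < y ^ 4 := by positivity
    nlinarith
  have e6 : ((n.choose 2 : ℕ) : ℝ) * Real.log 2 ≤ 0.3465735904 * y ^ 8 := by
    refine e1.trans (le_of_eq ?_)
    rw [e2]
    ring
  have e7 : ((3 : ℕ) : ℝ) * l ≤ 12 * y := by push_cast; linarith
  -- final inequality
  have hy2 : (10 : ℝ) ^ 6 ≤ y ^ 2 := by
    calc (10 : ℝ) ^ 6 = 1000 ^ 2 := by norm_num
      _ ≤ y ^ 2 := pow_le_pow_left₀ (by norm_num) hy1000 2
  have hy6 : 0 < y ^ 6 := by positivity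
  have f1 : (10 : ℝ) ^ 6 * y ^ 6 ≤ y ^ 8 := by
    calc (10 : ℝ) ^ 6 * y ^ 6 ≤ y ^ 2 * y ^ 6 := mul_le_mul_of_nonneg_right hy2 hy6.le
      _ = y ^ 8 := by ring
  have hy1 : 1 ≤ y := by linarith
  have f2 : y ^ 5 ≤ y ^ 6 := pow_le_pow_right₀ hy1 (by norm_num)
  have f3 : y ^ 4 ≤ y ^ 6 := pow_le_pow_right₀ hy1 (by norm_num)
  have f4 : y ≤ y ^ 6 := by
    calc y = y ^ 1 := (pow_one y).symm
      _ ≤ y ^ 6 := pow_le_pow_right₀ hy1 (by norm_num)
  have key : ((3 : ℕ) : ℝ) * l + ((n.choose 2 : ℕ) : ℝ) * Real.log 2 +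
      (((Mset n).card : ℝ) * (7 * l) - 3 / 4 * ∑ m ∈ Mset n, Real.log (n.choose m : ℕ)) ≤
      12 * y + 0.3465735904 * y ^ 8 + (56 * y ^ 5 -
        3 / 4 * (0.475 * (y ^ 8) - 19 * y ^ 4 - 9600 * y ^ 6)) := by
    linarith
  refine key.trans ?_
  linarith

end Pool.Agent.LibMP916a8b
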