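import Pool.Agent.LibMP916a8b.Levels
import Pool.Agent.LibMP916a8b.Numeric

/-!
Existence of a good property up to level `Nmax`.
-/

namespace Pool.Agent.LibMP916a8b

open Finset

set_option linter.unusedVariables false

/-- `G` has a non-isomorphic mate of the same order. -/
def NU (Q : ∀ m : ℕ, SimpleGraph (Fin m) → Prop) {n : ℕ} (G : SimpleGraph (Fin n)) : Prop :=
  ∃ H : SimpleGraph (Fin n), (∀ i, hcount Q G i = hcount Q H i) ∧ ¬ Nonempty (G ≃g H)

open Classical in
theorem card_not_good {n Nmax : ℕ} (hn : n0 ≤ n) (hnN : n ≤ Nmax)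
    (cs : ∀ m : ℕ, SimpleGraph (Fin m) → Bool × Finset (Fin m))
    (hcs : ∀ m, ∀ n, 2 ≤ n → n ≤ Nmax → 2 * (s0 n + 2) ≤ n → m ∈ Mset n →
      n ^ 2 * #{G : SimpleGraph (Fin n) | ¬ CoreGood (cs m) G} ≤ 2 ^ (n.choose 2)) :
    n * #{G : SimpleGraph (Fin n) | ¬ (Typical G ∧ ∀ m ∈ Mset n, CoreGood (cs m) G)} ≤
      2 * 2 ^ (n.choose 2) := by
  have hn2 : 2 ≤ n := by
    have : 10 ^ 12 ≤ n := hn
    omega
  have hcover : ({G : SimpleGraph (Fin n) | ¬ (Typical G ∧ ∀ m ∈ Mset n, CoreGood (cs m) G)} :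
      Finset _) ⊆ ({G : SimpleGraph (Fin n) | ¬ Typical G} : Finset _) ∪
      (Mset n).biUnion (fun m => {G : SimpleGraph (Fin n) | ¬ CoreGood (cs m) G}) := by
    intro G hG
    rw [mem_filter] at hG
    rw [mem_union, mem_filter, mem_biUnion]
    by_cases h : Typical G
    · right
      have h2 := hG.2
      push Not at h2
      obtain ⟨m, hm, hc⟩ := h2 h
      exact ⟨m, hm, by rw [mem_filter]; exact ⟨mem_univ _, hc⟩⟩
    · exact Or.inl ⟨mem_univ _, h⟩
  have h1 := (card_le_card hcover).trans (card_union_le _ _)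
  have h2 : n * #{G : SimpleGraph (Fin n) | ¬ Typical G} ≤ 2 ^ (n.choose 2) := by
    have := card_not_typical hn2
    exact_mod_cast this
  have hMcard : (Mset n).card ≤ n := by
    have : Mset n ⊆ (range (n + 1)).erase 0 := by
      intro m hm
      have h2 := mem_Mset_two hm
      have h3 := mem_Mset_le hm
      rw [mem_erase, mem_range]
      omega
    have h4 := card_le_card this
    rw [card_erase_of_mem (by simp), card_range] at h4
    omega
  have h3 : n * ((Mset n).biUnion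
      (fun m => ({G : SimpleGraph (Fin n) | ¬ CoreGood (cs m) G} : Finset _))).card ≤
      2 ^ (n.choose 2) := by
    have hnpos : 0 < n := by omega
    apply Nat.le_of_mul_le_mul_left _ hnpos
    calc n * (n * ((Mset n).biUnion
      (fun m => ({G : SimpleGraph (Fin n) | ¬ CoreGood (cs m) G} : Finset _))).card)
        ≤ n * (n * ∑ m ∈ Mset n, #{G : SimpleGraph (Fin n) | ¬ CoreGood (cs m) G}) := by
          apply Nat.mul_le_mul_left
          apply Nat.mul_le_mul_left
          exact card_biUnion_le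
      _ = ∑ m ∈ Mset n, n ^ 2 * #{G : SimpleGraph (Fin n) | ¬ CoreGood (cs m) G} := by
          rw [← mul_assoc, Finset.mul_sum]
          apply Finset.sum_congr rfl
          intro m _
          ring
      _ ≤ ∑ m ∈ Mset n, 2 ^ (n.choose 2) := by
          apply Finset.sum_le_sum
          intro m hm
          exact hcs m n hn2 hnN (s0_le hn) hm
      _ = (Mset n).card * 2 ^ (n.choose 2) := by rw [sum_const, smul_eq_mul]
      _ ≤ n * 2 ^ (n.choose 2) := Nat.mul_le_mul_right _ hMcard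
  calc n * #{G : SimpleGraph (Fin n) | ¬ (Typical G ∧ ∀ m ∈ Mset n, CoreGood (cs m) G)}
      ≤ n * (#{G : SimpleGraph (Fin n) | ¬ Typical G} + ((Mset n).biUnion
      (fun m => ({G : SimpleGraph (Fin n) | ¬ CoreGood (cs m) G} : Finset _))).card) :=
        Nat.mul_le_mul_left _ h1
    _ = n * #{G : SimpleGraph (Fin n) | ¬ Typical G} + n * ((Mset n).biUnion
      (fun m => ({G : SimpleGraph (Fin n) | ¬ CoreGood (cs m) G} : Finset _))).card := by ring
    _ ≤ 2 ^ (n.choose 2) + 2 ^ (n.choose 2) := Nat.add_le_add h2 h3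
    _ = _ := by ring

open Classical in
theorem card_beta_bad {n Nmax : ℕ} (hn : n0 ≤ n) (hnN : n ≤ Nmax)
    (cs : ∀ m : ℕ, SimpleGraph (Fin m) → Bool × Finset (Fin m)) :
    (n : ℝ) ^ 2 * (#{β : (∀ m : Fin (Nmax + 1), Bt cs m) | ¬ (n *
      #{G : SimpleGraph (Fin n) | (Typical G ∧ ∀ m ∈ Mset n, CoreGood (cs m) G) ∧
        NU (Qof cs β) G} ≤ 2 ^ (n.choose 2))} : ℝ) ≤
      Fintype.card (∀ m : Fin (Nmax + 1), Bt cs m) := by
  have hn100 : 100 ≤ n := by
    have : 10 ^ 12 ≤ n := hn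
    omega
  have hnpos : (0 : ℝ) < n := by
    have : 0 < n := by omega
    exact_mod_cast this
  have hpair := fun (G H : SimpleGraph (Fin n)) (hG : Typical G)
    (hc : ∀ m ∈ Mset n, CoreGood (cs m) G) (hGH : ¬ Nonempty (G ≃g H)) =>
    pair_prob (Nmax := Nmax) cs hn100 (s0_le hn) hnN hG hc hGH
  have htot : (0 : ℝ) ≤ (Fintype.card (∀ m : Fin (Nmax + 1), Bt cs m) : ℝ) := Nat.cast_nonneg _
  generalize (Fintype.card (∀ m : Fin (Nmax + 1), Bt cs m) : ℝ) = tot at *
  set K : ℝ := 2 ^ (n.choose 2) with hK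
  have hKpos : 0 < K := by positivity
  set Pr : ℝ := ∏ m ∈ Mset n, Bm n m with hPr
  have hPr0 : 0 ≤ Pr := by
    apply Finset.prod_nonneg
    intro m _
    unfold Bm
    positivity
  obtain ⟨Good, hGood⟩ : ∃ Good : SimpleGraph (Fin n) → Prop, ∀ G, Good G ↔
      (Typical G ∧ ∀ m ∈ Mset n, CoreGood (cs m) G) := ⟨_, fun _ => Iff.rfl⟩
  simp only [← hGood]
  set S := ({β : (∀ m : Fin (Nmax + 1), Bt cs m) | ¬ (n *
      #{G : SimpleGraph (Fin n) | Good G ∧ NU (Qof cs β) G} ≤ 2 ^ (n.choose 2))} : Finset _)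
    with hS
  have hcomm : ∑ β : (∀ m : Fin (Nmax + 1), Bt cs m),
      (#{G : SimpleGraph (Fin n) | Good G ∧ NU (Qof cs β) G} : ℝ) =
      ∑ G : SimpleGraph (Fin n), (#{β : (∀ m : Fin (Nmax + 1), Bt cs m) |
        Good G ∧ NU (Qof cs β) G} : ℝ) := by
    have : ∑ β : (∀ m : Fin (Nmax + 1), Bt cs m),
      #{G : SimpleGraph (Fin n) | Good G ∧ NU (Qof cs β) G} =
      ∑ G : SimpleGraph (Fin n), #{β : (∀ m : Fin (Nmax + 1), Bt cs m) |
        Good G ∧ NU (Qof cs β) G} := by
      simp only [Finset.card_filter]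
      rw [Finset.sum_comm]
    exact_mod_cast this
  have hone : ∀ G : SimpleGraph (Fin n), (#{β : (∀ m : Fin (Nmax + 1), Bt cs m) |
        Good G ∧ NU (Qof cs β) G} : ℝ) ≤ K * (Pr * tot) := by
    intro G
    by_cases hG : Good G
    · have hG' := (hGood G).1 hG
      have hcover : ({β : (∀ m : Fin (Nmax + 1), Bt cs m) | Good G ∧ NU (Qof cs β) G} :
          Finset _) ⊆ (univ.filter (fun H : SimpleGraph (Fin n) => ¬ Nonempty (G ≃g H))).biUnion
          (fun H => ({β : (∀ m : Fin (Nmax + 1), Bt cs m) | ∀ i, hcount (Qof cs β) G i =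
            hcount (Qof cs β) H i} : Finset _)) := by
        intro β hβ
        obtain ⟨_, _, H, hH, hiso⟩ := mem_filter.1 hβ
        rw [mem_biUnion]
        exact ⟨H, mem_filter.2 ⟨mem_univ _, hiso⟩, mem_filter.2 ⟨mem_univ _, hH⟩⟩
      calc (#{β : (∀ m : Fin (Nmax + 1), Bt cs m) | Good G ∧ NU (Qof cs β) G} : ℝ)
          ≤ ∑ H ∈ univ.filter (fun H : SimpleGraph (Fin n) => ¬ Nonempty (G ≃g H)),
            (#{β : (∀ m : Fin (Nmax + 1), Bt cs m) | ∀ i, hcount (Qof cs β) G i =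
            hcount (Qof cs β) H i} : ℝ) := by
            exact_mod_cast (card_le_card hcover).trans card_biUnion_le
        _ ≤ ∑ H ∈ univ.filter (fun H : SimpleGraph (Fin n) => ¬ Nonempty (G ≃g H)), Pr * tot := by
            apply Finset.sum_le_sum
            intro H hH
            exact hpair G H hG'.1 hG'.2 (mem_filter.1 hH).2
        _ = (#(univ.filter (fun H : SimpleGraph (Fin n) => ¬ Nonempty (G ≃g H))) : ℝ) *
            (Pr * tot) := by rw [sum_const, nsmul_eq_mul]
        _ ≤ K * (Pr * tot) := by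
            apply mul_le_mul_of_nonneg_right _ (by positivity)
            have h1 : #(univ.filter (fun H : SimpleGraph (Fin n) => ¬ Nonempty (G ≃g H))) ≤
                2 ^ (n.choose 2) := by
              refine (card_filter_le _ _).trans ?_
              rw [card_univ, card_graphs]
            rw [hK]
            exact_mod_cast h1
    · have h0 : #{β : (∀ m : Fin (Nmax + 1), Bt cs m) | Good G ∧ NU (Qof cs β) G} = 0 := by
        rw [card_eq_zero]
        apply filter_false_of_mem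
        intro β _ h
        exact hG h.1
      rw [h0, Nat.cast_zero]
      positivity
  have hsum : ∑ β : (∀ m : Fin (Nmax + 1), Bt cs m),
      (#{G : SimpleGraph (Fin n) | Good G ∧ NU (Qof cs β) G} : ℝ) ≤ K * (K * (Pr * tot)) := by
    rw [hcomm]
    calc _ ≤ ∑ G : SimpleGraph (Fin n), K * (Pr * tot) := Finset.sum_le_sum (fun G _ => hone G)
      _ = _ := by
        rw [sum_const, card_univ, card_graphs, nsmul_eq_mul, hK]
        push_cast
        ring
  have hmarkov : (S.card : ℝ) * (K / n) ≤ ∑ β : (∀ m : Fin (Nmax + 1), Bt cs m),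
      (#{G : SimpleGraph (Fin n) | Good G ∧ NU (Qof cs β) G} : ℝ) := by
    calc (S.card : ℝ) * (K / n) = ∑ β ∈ S, (K / n) := by
          rw [sum_const, nsmul_eq_mul]
      _ ≤ ∑ β ∈ S, (#{G : SimpleGraph (Fin n) | Good G ∧ NU (Qof cs β) G} : ℝ) := by
          apply Finset.sum_le_sum
          intro β hβ
          have hβ2 := (mem_filter.1 hβ).2
          rw [not_le] at hβ2
          rw [div_le_iff₀ hnpos]
          have h' : K ≤ n * (#{G : SimpleGraph (Fin n) | Good G ∧ NU (Qof cs β) G} : ℝ) := by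
            rw [hK]; exact_mod_cast hβ2.le
          linarith
      _ ≤ _ := Finset.sum_le_univ_sum_of_nonneg (fun G => Nat.cast_nonneg _)
  have h3 := hmarkov.trans hsum
  have h4 : (S.card : ℝ) * (K / n) = K * (S.card / n) := by ring
  rw [h4] at h3
  have h5 := le_of_mul_le_mul_left h3 hKpos
  rw [div_le_iff₀ hnpos] at h5
  have hnum := numeric hn
  rw [← hK, ← hPr] at hnum
  calc (n : ℝ) ^ 2 * (S.card : ℝ) ≤ (n : ℝ) ^ 2 * (K * (Pr * tot) * n) :=
        mul_le_mul_of_nonneg_left h5 (by positivity)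
    _ = ((n : ℝ) ^ 3 * K * Pr) * tot := by ring
    _ ≤ 1 * tot := mul_le_mul_of_nonneg_right hnum htot
    _ = tot := one_mul _

open Classical in
/-- Finite version of the main theorem. -/
theorem exists_finite (Nmax : ℕ) : ∃ Q : ∀ m : ℕ, SimpleGraph (Fin m) → Prop,
    (∀ F, Q 1 F) ∧ ∀ n, n0 ≤ n → n ≤ Nmax →
      n * #{G : SimpleGraph (Fin n) | NU Q G} ≤ 3 * 2 ^ (n.choose 2) := by
  choose cs hcs using fun m => exists_core m Nmax
  have hmain : ∀ n, n0 ≤ n → n ≤ Nmax →
      (n : ℝ) ^ 2 * (#{β : (∀ m : Fin (Nmax + 1), Bt cs m) | ¬ (n *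
      #{G : SimpleGraph (Fin n) | (Typical G ∧ ∀ m ∈ Mset n, CoreGood (cs m) G) ∧
        NU (Qof cs β) G} ≤ 2 ^ (n.choose 2))} : ℝ) ≤
      Fintype.card (∀ m : Fin (Nmax + 1), Bt cs m) := fun n h1 h2 => card_beta_bad h1 h2 cs
  haveI : ∀ m : Fin (Nmax + 1), Nonempty (Bt cs m) := fun m => ⟨⟨∅, by simp⟩⟩
  have htotpos : (0 : ℝ) < (Fintype.card (∀ m : Fin (Nmax + 1), Bt cs m) : ℝ) := by
    exact_mod_cast Fintype.card_pos
  have htot' : (Fintype.card (∀ m : Fin (Nmax + 1), Bt cs m) : ℝ) =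
      ((univ : Finset (∀ m : Fin (Nmax + 1), Bt cs m)).card : ℝ) := by rw [card_univ]
  generalize (Fintype.card (∀ m : Fin (Nmax + 1), Bt cs m) : ℝ) = tot at *
  set bad : ℕ → Finset (∀ m : Fin (Nmax + 1), Bt cs m) := fun n =>
    {β : (∀ m : Fin (Nmax + 1), Bt cs m) | ¬ (n *
      #{G : SimpleGraph (Fin n) | (Typical G ∧ ∀ m ∈ Mset n, CoreGood (cs m) G) ∧
        NU (Qof cs β) G} ≤ 2 ^ (n.choose 2))} with hbad
  set I := (Ioc 1 Nmax).filter (fun n => n0 ≤ n) with hI
  have hcard : ((I.biUnion bad).card : ℝ) < tot := by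
    calc ((I.biUnion bad).card : ℝ) ≤ ∑ n ∈ I, ((bad n).card : ℝ) := by
          exact_mod_cast card_biUnion_le
      _ ≤ ∑ n ∈ I, tot * ((n : ℝ) ^ 2)⁻¹ := by
          apply Finset.sum_le_sum
          intro n hn
          rw [hI, mem_filter, mem_Ioc] at hn
          have := hmain n hn.2 hn.1.2
          have hnpos : (0 : ℝ) < n := by
            have : 0 < n := by omega
            exact_mod_cast this
          rw [← div_eq_mul_inv, le_div_iff₀ (by positivity), mul_comm]
          exact this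
      _ ≤ ∑ n ∈ Ioc 1 Nmax, tot * ((n : ℝ) ^ 2)⁻¹ := by
          apply Finset.sum_le_sum_of_subset_of_nonneg (filter_subset _ _)
          intro n _ _
          positivity
      _ = tot * ∑ n ∈ Ioc 1 Nmax, ((n : ℝ) ^ 2)⁻¹ := by rw [Finset.mul_sum]
      _ < tot := by
          rcases Nat.lt_or_ge Nmax 1 with h | h
          · have : Ioc 1 Nmax = ∅ := by
              apply Ioc_eq_empty_of_le
              omega
            rw [this, sum_empty, mul_zero]; exact htotpos
          · have h1 := sum_Ioc_inv_sq_le_sub (α := ℝ) one_ne_zero h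
            have h2 : (0 : ℝ) < ((Nmax : ℕ) : ℝ)⁻¹ := by
              have : (0 : ℝ) < Nmax := by exact_mod_cast h
              positivity
            have h3 : ∑ n ∈ Ioc 1 Nmax, ((n : ℝ) ^ 2)⁻¹ < 1 := by
              have h4 : ((1 : ℕ) : ℝ)⁻¹ = 1 := by norm_num
              rw [h4] at h1
              linarith
            calc tot * ∑ n ∈ Ioc 1 Nmax, ((n : ℝ) ^ 2)⁻¹ < tot * 1 :=
                  mul_lt_mul_of_pos_left h3 htotpos
              _ = tot := mul_one _
  rw [htot'] at hcard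
  have hcard' : (I.biUnion bad).card <
      (univ : Finset (∀ m : Fin (Nmax + 1), Bt cs m)).card := by
    exact_mod_cast hcard
  obtain ⟨β, _, hβ⟩ := exists_mem_notMem_of_card_lt_card hcard'
  refine ⟨Qof cs β, fun F => Or.inl le_rfl, ?_⟩
  intro n h1 h2
  have hnN : 10 ^ 12 ≤ n := h1
  have hgood : n * #{G : SimpleGraph (Fin n) |
      (Typical G ∧ ∀ m ∈ Mset n, CoreGood (cs m) G) ∧
        NU (Qof cs β) G} ≤ 2 ^ (n.choose 2) := by
    by_contra hcon
    apply hβ
    rw [mem_biUnion]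
    refine ⟨n, ?_, ?_⟩
    · rw [hI, mem_filter, mem_Ioc]
      exact ⟨⟨by omega, h2⟩, h1⟩
    · exact mem_filter.2 ⟨mem_univ _, hcon⟩
  have hng := card_not_good h1 h2 cs hcs
  have hcover : ({G : SimpleGraph (Fin n) | NU (Qof cs β) G} : Finset _) ⊆
      ({G : SimpleGraph (Fin n) | ¬ (Typical G ∧ ∀ m ∈ Mset n, CoreGood (cs m) G)} :
        Finset _) ∪ ({G : SimpleGraph (Fin n) |
      (Typical G ∧ ∀ m ∈ Mset n, CoreGood (cs m) G) ∧ NU (Qof cs β) G} : Finset _) := by
    intro G hG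
    have hG2 := (mem_filter.1 hG).2
    rw [mem_union, mem_filter, mem_filter]
    by_cases h : (Typical G ∧ ∀ m ∈ Mset n, CoreGood (cs m) G)
    · exact Or.inr ⟨mem_univ _, h, hG2⟩
    · exact Or.inl ⟨mem_univ _, h⟩
  have h3 := (card_le_card hcover).trans (card_union_le _ _)
  calc n * #{G : SimpleGraph (Fin n) | NU (Qof cs β) G} ≤ n * (#{G : SimpleGraph (Fin n) |
        ¬ (Typical G ∧ ∀ m ∈ Mset n, CoreGood (cs m) G)} + #{G : SimpleGraph (Fin n) |
      (Typical G ∧ ∀ m ∈ Mset n, CoreGood (cs m) G) ∧ NU (Qof cs β) G}) :=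
        Nat.mul_le_mul_left _ h3
    _ = n * #{G : SimpleGraph (Fin n) |
        ¬ (Typical G ∧ ∀ m ∈ Mset n, CoreGood (cs m) G)} + n * #{G : SimpleGraph (Fin n) |
      (Typical G ∧ ∀ m ∈ Mset n, CoreGood (cs m) G) ∧ NU (Qof cs β) G} := by ring
    _ ≤ 2 * 2 ^ (n.choose 2) + 2 ^ (n.choose 2) := Nat.add_le_add hng hgood
    _ = _ := by ring

end Pool.Agent.LibMP916a8b
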