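import Mathlib

/-!
Embeddings of induced subgraphs, canonical representatives.
-/

namespace Pool.Agent.LibMP916a8b

open Finset

set_option linter.unusedVariables false
set_option linter.style.haveILetI false

/-- `τ` restricted to `B` is an embedding of the induced subgraph `G[B]` into `H`. -/
def IsEmb {V W : Type*} (G : SimpleGraph V) (B : Finset V) (H : SimpleGraph W) (τ : V → W) :
    Prop :=
  Set.InjOn τ (B : Set V) ∧ ∀ x ∈ B, ∀ y ∈ B, (H.Adj (τ x) (τ y) ↔ G.Adj x y)

variable {V W X : Type*}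

theorem IsEmb.mono {G : SimpleGraph V} {B B' : Finset V} {H : SimpleGraph W} {τ : V → W}
    (h : IsEmb G B H τ) (hB : B' ⊆ B) : IsEmb G B' H τ :=
  ⟨h.1.mono (by exact_mod_cast hB), fun x hx y hy => h.2 x (hB hx) y (hB hy)⟩

theorem IsEmb.comp {G : SimpleGraph V} {B : Finset V} {H : SimpleGraph W} {C : Finset W}
    {K : SimpleGraph X} {τ : V → W} {σ : W → X}
    (h : IsEmb G B H τ) (h' : IsEmb H C K σ) (hBC : ∀ x ∈ B, τ x ∈ C) :
    IsEmb G B K (σ ∘ τ) := by
  refine ⟨?_, ?_⟩
  · intro x hx y hy hxy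
    have hx' : x ∈ B := by exact_mod_cast hx
    have hy' : y ∈ B := by exact_mod_cast hy
    have := h'.1 (by exact_mod_cast hBC x hx') (by exact_mod_cast hBC y hy') hxy
    exact h.1 hx hy this
  · intro x hx y hy
    simp only [Function.comp]
    rw [h'.2 _ (hBC x hx) _ (hBC y hy), h.2 x hx y hy]

theorem IsEmb.congr {G : SimpleGraph V} {B : Finset V} {H : SimpleGraph W} {τ τ' : V → W}
    (h : IsEmb G B H τ) (hτ : ∀ x ∈ B, τ' x = τ x) : IsEmb G B H τ' := by
  refine ⟨?_, ?_⟩
  · intro x hx y hy hxy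
    rw [hτ x hx, hτ y hy] at hxy
    exact h.1 hx hy hxy
  · intro x hx y hy
    rw [hτ x hx, hτ y hy]
    exact h.2 x hx y hy

theorem IsEmb.id (G : SimpleGraph V) (B : Finset V) : IsEmb G B G _root_.id :=
  ⟨fun x _ y _ h => h, fun _ _ _ _ => Iff.rfl⟩

theorem IsEmb.exists_inv [Nonempty V] [DecidableEq W] {G : SimpleGraph V} {B : Finset V} {H : SimpleGraph W}
    {τ : V → W} (h : IsEmb G B H τ) :
    ∃ σ : W → V, IsEmb H (B.image τ) G σ ∧ (∀ x ∈ B, σ (τ x) = x) := by
  refine ⟨Function.invFunOn τ B, ?_, ?_⟩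
  · have hinv : ∀ x ∈ B, Function.invFunOn τ B (τ x) = x := by
      intro x hx
      exact h.1.leftInvOn_invFunOn (by exact_mod_cast hx)
    refine ⟨?_, ?_⟩
    · intro a ha b hb hab
      simp only [coe_image, Set.mem_image, mem_coe] at ha hb
      obtain ⟨x, hx, rfl⟩ := ha
      obtain ⟨y, hy, rfl⟩ := hb
      rw [hinv x hx, hinv y hy] at hab
      rw [hab]
    · intro a ha b hb
      simp only [mem_image] at ha hb
      obtain ⟨x, hx, rfl⟩ := ha
      obtain ⟨y, hy, rfl⟩ := hb
      rw [hinv x hx, hinv y hy, h.2 x hx y hy]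
  · intro x hx
    exact h.1.leftInvOn_invFunOn (by exact_mod_cast hx)

theorem IsEmb.card_image [DecidableEq W] {G : SimpleGraph V} {B : Finset V} {H : SimpleGraph W}
    {τ : V → W} (h : IsEmb G B H τ) : (B.image τ).card = B.card :=
  Finset.card_image_of_injOn h.1

theorem IsEmb.of_iso {G : SimpleGraph V} {H : SimpleGraph W} (e : G ≃g H) (B : Finset V) :
    IsEmb G B H e :=
  ⟨fun x _ y _ h => e.injective h, fun x _ y _ => e.map_adj_iff⟩

theorem IsEmb.iso_of_univ [Fintype V] [Fintype W] {G : SimpleGraph V} {H : SimpleGraph W}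
    {τ : V → W} (h : IsEmb G univ H τ) (hc : Fintype.card V = Fintype.card W) :
    Nonempty (G ≃g H) := by
  have hinj : Function.Injective τ := by
    intro x y hxy
    exact h.1 (by simp) (by simp) hxy
  have hbij : Function.Bijective τ := (Fintype.bijective_iff_injective_and_card τ).2 ⟨hinj, hc⟩
  exact ⟨⟨Equiv.ofBijective τ hbij, by
    intro a b
    exact h.2 a (mem_univ _) b (mem_univ _)⟩⟩

/-- The isomorphism relation on graphs on `Fin k`. -/
def isoSetoid (k : ℕ) : Setoid (SimpleGraph (Fin k)) where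
  r F F' := Nonempty (F ≃g F')
  iseqv := ⟨fun _ => ⟨RelIso.refl _⟩, fun ⟨e⟩ => ⟨e.symm⟩, fun ⟨e⟩ ⟨f⟩ => ⟨e.trans f⟩⟩

/-- Canonical representative of the isomorphism class. -/
noncomputable def canon {k : ℕ} (F : SimpleGraph (Fin k)) : SimpleGraph (Fin k) :=
  (Quotient.mk (isoSetoid k) F).out

theorem canon_iso {k : ℕ} (F : SimpleGraph (Fin k)) : Nonempty (canon F ≃g F) := by
  have : (isoSetoid k).r (Quotient.mk (isoSetoid k) F).out F := by
    exact Quotient.exact (s := isoSetoid k) (Quotient.out_eq (Quotient.mk (isoSetoid k) F))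
  exact this

theorem canon_eq_of_iso {k : ℕ} {F F' : SimpleGraph (Fin k)} (h : Nonempty (F ≃g F')) :
    canon F = canon F' := by
  unfold canon
  congr 1
  exact Quotient.sound (s := isoSetoid k) h

theorem iso_of_canon_eq {k : ℕ} {F F' : SimpleGraph (Fin k)} (h : canon F = canon F') :
    Nonempty (F ≃g F') := by
  obtain ⟨e⟩ := canon_iso F
  obtain ⟨e'⟩ := canon_iso F'
  rw [h] at e
  exact ⟨e.symm.trans e'⟩

/-- The canonical representative on `Fin m` of the induced subgraph `G[A]`, when `A` has `m`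
elements. -/
noncomputable def code {n : ℕ} (m : ℕ) (G : SimpleGraph (Fin n)) (A : Finset (Fin n)) :
    SimpleGraph (Fin m) :=
  if h : A.card = m then canon (G.comap (A.orderEmbOfFin h)) else ⊥

theorem exists_code_emb {n m : ℕ} (G : SimpleGraph (Fin n)) {A : Finset (Fin n)}
    (h : A.card = m) :
    ∃ ψ : Fin m → Fin n, IsEmb (code m G A) univ G ψ ∧ univ.image ψ = A := by
  obtain ⟨e⟩ := canon_iso (G.comap (A.orderEmbOfFin h))
  refine ⟨fun i => A.orderEmbOfFin h (e i), ?_, ?_⟩
  · unfold code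
    rw [dif_pos h]
    refine ⟨?_, ?_⟩
    · intro x _ y _ hxy
      exact e.injective ((A.orderEmbOfFin h).injective hxy)
    · intro x _ y _
      have := e.map_adj_iff (v := x) (w := y)
      rw [← this]
      simp [SimpleGraph.comap_adj]
  · ext a
    simp only [mem_image, mem_univ, true_and]
    constructor
    · rintro ⟨i, rfl⟩
      exact Finset.orderEmbOfFin_mem A h _
    · intro ha
      have : a ∈ Set.range (A.orderEmbOfFin h) := by
        rw [Finset.range_orderEmbOfFin]; exact_mod_cast ha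
      obtain ⟨j, hj⟩ := this
      obtain ⟨i, hi⟩ := e.surjective j
      exact ⟨i, by rw [hi, hj]⟩

/-- If a graph `F` on `Fin m` embeds onto `G[A]`, then its canonical form is `code m G A`. -/
theorem canon_eq_code {n m : ℕ} {G : SimpleGraph (Fin n)} {A : Finset (Fin n)}
    (h : A.card = m) {F : SimpleGraph (Fin m)} {ψ : Fin m → Fin n}
    (hψ : IsEmb F univ G ψ) (him : univ.image ψ = A) : canon F = code m G A := by
  unfold code
  rw [dif_pos h]
  apply canon_eq_of_iso
  -- map `i ↦ (orderEmb)⁻¹ (ψ i)`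
  have hmem : ∀ i : Fin m, ∃ j : Fin m, A.orderEmbOfFin h j = ψ i := by
    intro i
    have : ψ i ∈ Set.range (A.orderEmbOfFin h) := by
      rw [Finset.range_orderEmbOfFin]
      have : ψ i ∈ univ.image ψ := mem_image_of_mem _ (mem_univ _)
      rw [him] at this
      exact_mod_cast this
    exact this
  choose f hf using hmem
  have hemb : IsEmb F univ (G.comap (A.orderEmbOfFin h)) f := by
    refine ⟨?_, ?_⟩
    · intro x _ y _ hxy
      have : ψ x = ψ y := by rw [← hf x, ← hf y, hxy]
      exact hψ.1 (by simp) (by simp) this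
    · intro x _ y _
      rw [SimpleGraph.comap_adj, hf x, hf y]
      exact hψ.2 x (mem_univ _) y (mem_univ _)
  exact hemb.iso_of_univ rfl

/-- canonical forms are fixed by `canon`. -/
theorem canon_code {n m : ℕ} (G : SimpleGraph (Fin n)) {A : Finset (Fin n)} (h : A.card = m) :
    canon (code m G A) = code m G A := by
  obtain ⟨ψ, hψ, him⟩ := exists_code_emb G h
  exact canon_eq_code h hψ him

theorem exists_emb_of_code_eq {n n' m : ℕ} [Nonempty (Fin n')] {G : SimpleGraph (Fin n)}
    {H : SimpleGraph (Fin n')} {A : Finset (Fin n)} {A' : Finset (Fin n')}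
    (h : A.card = m) (h' : A'.card = m) (hc : code m G A = code m H A') :
    ∃ τ : Fin n → Fin n', IsEmb G A H τ ∧ A.image τ = A' := by
  obtain ⟨ψ, hψ, him⟩ := exists_code_emb G h
  obtain ⟨ψ', hψ', him'⟩ := exists_code_emb H h'
  rcases Nat.eq_zero_or_pos m with hm | hm
  · subst hm
    have hA : A = ∅ := Finset.card_eq_zero.1 h
    have hA' : A' = ∅ := Finset.card_eq_zero.1 h'
    subst hA hA'
    refine ⟨fun _ => Classical.arbitrary _, ⟨by simp, by simp⟩, by simp⟩
  · haveI : Nonempty (Fin m) := ⟨⟨0, hm⟩⟩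
    obtain ⟨σ, hσ, hσ'⟩ := hψ.exists_inv
    rw [him] at hσ
    rw [hc] at hσ
    refine ⟨ψ' ∘ σ, hσ.comp hψ' (fun _ _ => mem_univ _), ?_⟩
    have h1 : A.image σ = (univ : Finset (Fin m)) := by
      ext i
      simp only [mem_image, mem_univ, iff_true]
      exact ⟨ψ i, by rw [← him]; exact mem_image_of_mem _ (mem_univ _), hσ' i (mem_univ _)⟩
    rw [← Finset.image_image, h1, him']

theorem code_eq_of_emb {n n' m : ℕ} {G : SimpleGraph (Fin n)}
    {H : SimpleGraph (Fin n')} {A : Finset (Fin n)}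
    (h : A.card = m) {τ : Fin n → Fin n'} (hτ : IsEmb G A H τ) :
    code m G A = code m H (A.image τ) := by
  obtain ⟨ψ, hψ, him⟩ := exists_code_emb G h
  rw [← canon_code G h]
  refine canon_eq_code (by rw [hτ.card_image, h]) (ψ := τ ∘ ψ) ?_ ?_
  · exact hψ.comp hτ (fun x _ => by rw [← him]; exact mem_image_of_mem _ (mem_univ _))
  · rw [← Finset.image_image, him]

end Pool.Agent.LibMP916a8b
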