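import Pool.Agent.LibMP916a8b.Rigid

/-!
Random core functions.
-/

namespace Pool.Agent.LibMP916a8b

open Finset

set_option linter.unusedVariables false

/-- sample space for the core of one graph on `Fin m` -/
abbrev Om (m : ℕ) : Type :=
  Bool × Fin (m + 1) × (∀ k : Fin (m + 1), {D : Finset (Fin m) // D.card = (k : ℕ)})

instance (m : ℕ) (k : Fin (m + 1)) : Nonempty {D : Finset (Fin m) // D.card = (k : ℕ)} := by
  obtain ⟨D, hD⟩ := Finset.exists_subset_card_eq (s := (univ : Finset (Fin m))) (n := (k : ℕ))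
    (by rw [card_univ, Fintype.card_fin]; exact Nat.lt_succ_iff.1 k.2)
  exact ⟨⟨D, hD.2⟩⟩

/-- the core -/
def coreOf {m : ℕ} (ω : Om m) : Finset (Fin m) := (ω.2.2 ω.2.1).1

theorem card_fix_coord (m : ℕ) (k : Fin (m + 1))
    (D : {D : Finset (Fin m) // D.card = (k : ℕ)}) :
    (#{f : (∀ k : Fin (m + 1), {D : Finset (Fin m) // D.card = (k : ℕ)}) | f k = D} : ℝ) *
      (m.choose k : ℕ) =
      Fintype.card (∀ k : Fin (m + 1), {D : Finset (Fin m) // D.card = (k : ℕ)}) := by
  classical
  have h := sum_update (B := fun k : Fin (m + 1) => {D : Finset (Fin m) // D.card = (k : ℕ)}) k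
    (fun f => if f k = D then (1 : ℝ) else 0)
  rw [Finset.sum_boole] at h
  have hc : (Fintype.card {D : Finset (Fin m) // D.card = (k : ℕ)} : ℝ) = (m.choose k : ℕ) := by
    have : Fintype.card {D : Finset (Fin m) // D.card = (k : ℕ)} = m.choose k := by
      rw [Fintype.card_finset_len, Fintype.card_fin]
    rw [this]
  rw [hc] at h
  simp only [Function.update_self] at h
  rw [mul_comm]
  rw [← h]
  simp

open Classical in
theorem core_prob {m : ℕ} (b : Bool) (D : Finset (Fin m)) :
    (#{ω : Om m | ω.1 = b ∧ coreOf ω = D} : ℝ) =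
      1 / (2 * (m + 1) * (m.choose D.card : ℕ)) * Fintype.card (Om m) := by
  have hDm : D.card ≤ m := by
    have := card_le_univ D
    rwa [Fintype.card_fin] at this
  set k : Fin (m + 1) := ⟨D.card, Nat.lt_succ_of_le hDm⟩ with hk
  have h1 : #{ω : Om m | ω.1 = b ∧ coreOf ω = D} =
      #{f : (∀ k : Fin (m + 1), {D : Finset (Fin m) // D.card = (k : ℕ)}) |
        f k = ⟨D, rfl⟩} := by
    symm
    apply Finset.card_bij (fun f _ => ((b, k, f) : Om m))
    · intro f hf
      rw [mem_filter] at hf ⊢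
      refine ⟨mem_univ _, rfl, ?_⟩
      unfold coreOf
      simp only
      rw [hf.2]
    · intro f _ g _ h
      simp only [Prod.mk.injEq, true_and] at h
      exact h
    · intro ω hω
      rw [mem_filter] at hω
      obtain ⟨_, hb, hD⟩ := hω
      obtain ⟨b', k', f⟩ := ω
      simp only at hb
      subst hb
      unfold coreOf at hD
      simp only at hD
      have hk' : k' = k := by
        apply Fin.ext
        rw [hk]
        simp only
        rw [← hD]
        exact (f k').2.symm
      subst hk'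
      refine ⟨f, ?_, rfl⟩
      rw [mem_filter]
      exact ⟨mem_univ _, Subtype.ext hD⟩
  have h2 := card_fix_coord m k ⟨D, rfl⟩
  have h3 : (Fintype.card (Om m) : ℝ) = 2 * ((m + 1) *
      Fintype.card (∀ k : Fin (m + 1), {D : Finset (Fin m) // D.card = (k : ℕ)})) := by
    have : Fintype.card (Om m) = 2 * ((m + 1) *
      Fintype.card (∀ k : Fin (m + 1), {D : Finset (Fin m) // D.card = (k : ℕ)})) := by
      rw [Fintype.card_prod, Fintype.card_prod, Fintype.card_bool, Fintype.card_fin]
    rw [this]; push_cast; ring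
  have hpos : (0 : ℝ) < (m.choose D.card : ℕ) := by exact_mod_cast Nat.choose_pos hDm
  rw [h1, h3, ← h2]
  have hkk : ((m.choose (k : ℕ) : ℕ) : ℝ) = (m.choose D.card : ℕ) := rfl
  rw [hkk]
  field_simp

/-- `A` is hit by `C` with kind `b` : the core function applied to the code of `G[A]` returns
the kind `b` and the set corresponding to `C`. -/
def Hit {n m : ℕ} (c : SimpleGraph (Fin m) → Bool × Finset (Fin m)) (G : SimpleGraph (Fin n))
    (b : Bool) (C A : Finset (Fin n)) : Prop :=
  ∃ ψ : Fin m → Fin n, IsEmb (code m G A) univ G ψ ∧ univ.image ψ = A ∧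
    c (code m G A) = (b, univ.filter (fun i => ψ i ∈ C))

open Classical in
/-- number of `A ⊇ C` hit by `C` -/
noncomputable def cnt {n m : ℕ} (c : SimpleGraph (Fin m) → Bool × Finset (Fin m))
    (G : SimpleGraph (Fin n)) (b : Bool) (C : Finset (Fin n)) : ℕ :=
  #{A ∈ powersetCard m (univ : Finset (Fin n)) | C ⊆ A ∧ Hit c G b C A}

/-- code of supersets of strong sets determine the set -/
theorem code_inj_of_rigid {n m : ℕ} {G : SimpleGraph (Fin n)} {A A' : Finset (Fin n)}
    (hn : 0 < n) (hA : A.card = m) (hA' : A'.card = m) (hr : Rigid G A)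
    (h : code m G A = code m G A') : A = A' := by
  haveI : Nonempty (Fin n) := ⟨⟨0, hn⟩⟩
  obtain ⟨τ, hτ, him⟩ := exists_emb_of_code_eq hA hA' h
  rw [← him]
  have h1 : A.image τ = A.image _root_.id := by
    apply Finset.image_congr
    intro x hx
    exact hr τ hτ x (by exact_mod_cast hx)
  rw [h1, image_id]

theorem preimage_card {n m : ℕ} {G : SimpleGraph (Fin n)} {F : SimpleGraph (Fin m)}
    {A C : Finset (Fin n)} {ψ : Fin m → Fin n} (hψ : IsEmb F univ G ψ)
    (him : univ.image ψ = A) (hCA : C ⊆ A) :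
    (univ.filter (fun i => ψ i ∈ C)).image ψ = C ∧
      (univ.filter (fun i => ψ i ∈ C)).card = C.card := by
  have h1 : (univ.filter (fun i => ψ i ∈ C)).image ψ = C := by
    ext x
    rw [mem_image]
    constructor
    · rintro ⟨i, hi, rfl⟩
      exact (mem_filter.1 hi).2
    · intro hx
      have := hCA hx
      rw [← him, mem_image] at this
      obtain ⟨i, _, hi⟩ := this
      exact ⟨i, mem_filter.2 ⟨mem_univ _, by rw [hi]; exact hx⟩, hi⟩
  refine ⟨h1, ?_⟩
  conv_rhs => rw [← h1]
  rw [card_image_of_injOn]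
  exact hψ.1.mono (by simp)

open Classical in
/-- For a strong set `C`, few core functions give a small count. -/
theorem core_chebyshev {n m k : ℕ} (hn : 0 < n) {G : SimpleGraph (Fin n)} {C : Finset (Fin n)}
    (hC : C.card = k) (hkm : k ≤ m) (hmn : m ≤ n) (hs : Strong G C) (b : Bool) :
    (#{c : SimpleGraph (Fin m) → Om m |
        (cnt (fun F => ((c F).1, coreOf (c F))) G b C : ℝ) <
          (n.choose m : ℕ) / (4 * (m + 1) * (n.choose k : ℕ))} : ℝ) ≤
      8 * (m + 1) * (n.choose k : ℕ) / (n.choose m : ℕ) *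
        Fintype.card (SimpleGraph (Fin m) → Om m) := by
  set 𝒜 := {A ∈ powersetCard m (univ : Finset (Fin n)) | C ⊆ A} with h𝒜
  set I := 𝒜.image (code m G) with hI
  have h𝒜card : 𝒜.card = (n - k).choose (m - k) := by
    have := card_superset C m (by rw [hC]; exact hkm)
    rw [Fintype.card_fin, hC] at this
    exact this
  have hinj : Set.InjOn (code m G) (𝒜 : Set (Finset (Fin n))) := by
    intro A hA A' hA' h
    have h1 : A ∈ 𝒜 := by exact_mod_cast hA
    have h1' : A' ∈ 𝒜 := by exact_mod_cast hA'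
    rw [h𝒜, mem_filter, mem_powersetCard] at h1 h1'
    exact code_inj_of_rigid hn h1.1.2 h1'.1.2 (hs.rigid_of_subset h1.2) h
  have hIcard : I.card = (n - k).choose (m - k) := by
    rw [hI, card_image_of_injOn hinj, h𝒜card]
  -- choose the set and the embedding for each code
  have hex : ∀ F : SimpleGraph (Fin m), ∃ (A : Finset (Fin n)) (ψ : Fin m → Fin n),
      F ∈ I → (A ∈ 𝒜 ∧ code m G A = F ∧ IsEmb F univ G ψ ∧ univ.image ψ = A) := by
    intro F
    by_cases hF : F ∈ I
    · have hF' := hF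
      rw [hI, mem_image] at hF'
      obtain ⟨A, hA, hAF⟩ := hF'
      have hA' := hA
      rw [h𝒜, mem_filter, mem_powersetCard] at hA'
      obtain ⟨ψ, hψ, him⟩ := exists_code_emb G hA'.1.2
      rw [hAF] at hψ
      exact ⟨A, ψ, fun _ => ⟨hA, hAF, hψ, him⟩⟩
    · have : ∃ ψ : Fin m → Fin n, True := by
        refine ⟨fun _ => ⟨0, hn⟩, trivial⟩
      exact ⟨∅, this.choose, fun h => absurd h hF⟩
  choose AF ψF hAF using hex
  obtain ⟨E, hEdef⟩ : ∃ E : SimpleGraph (Fin m) → Om m → Prop, ∀ F ω,
      E F ω ↔ (ω.1 = b ∧ coreOf ω = univ.filter (fun i => ψF F i ∈ C)) :=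
    ⟨_, fun _ _ => Iff.rfl⟩
  set p : ℝ := 1 / (2 * (m + 1) * (m.choose k : ℕ)) with hp
  have hmk : (0 : ℝ) < (m.choose k : ℕ) := by exact_mod_cast Nat.choose_pos hkm
  have hnm : (0 : ℝ) < (n.choose m : ℕ) := by exact_mod_cast Nat.choose_pos hmn
  have hnk : (0 : ℝ) < (n.choose k : ℕ) := by exact_mod_cast Nat.choose_pos (hkm.trans hmn)
  have hppos : 0 < p := by positivity
  have hE : ∀ F ∈ I, (#{ω : Om m | E F ω} : ℝ) = p * Fintype.card (Om m) := by
    intro F hF
    obtain ⟨hA, hcode, hψ, him⟩ := hAF F hF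
    rw [h𝒜, mem_filter] at hA
    have hc := (preimage_card hψ him hA.2).2
    have h0 := core_prob b (univ.filter (fun i => ψF F i ∈ C))
    rw [hc, hC] at h0
    rw [← h0]
    congr 2
    ext ω
    simp only [mem_filter, mem_univ, true_and, hEdef]
  have hInon : I.Nonempty := by
    rw [← card_pos, hIcard]
    exact Nat.choose_pos (by omega)
  haveI : Nonempty (Om m) := inferInstance
  have hcheb := chebyshev_count' I E p hppos hE hInon
  -- p * |I| = T / (2 (m+1) N)
  have hpI : p * I.card = (n.choose m : ℕ) / (2 * (m + 1) * (n.choose k : ℕ)) := by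
    rw [hIcard, hp]
    have h1 := Nat.choose_mul (n := n) (k := m) (s := k) hkm
    have h2 : ((n.choose m : ℕ) : ℝ) * (m.choose k : ℕ) =
        (n.choose k : ℕ) * ((n - k).choose (m - k) : ℕ) := by exact_mod_cast h1
    field_simp
    linarith
  rw [hpI] at hcheb
  have hle : ∀ c : SimpleGraph (Fin m) → Om m, #{F ∈ I | E F (c F)} ≤
      cnt (fun F => ((c F).1, coreOf (c F))) G b C := by
    intro c
    unfold cnt
    apply card_le_card_of_injOn AF
    · intro F hF
      have hF' : F ∈ ({F ∈ I | E F (c F)} : Finset _) := by exact_mod_cast hF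
      rw [mem_filter] at hF'
      obtain ⟨hFI, hcE⟩ := hF'
      rw [hEdef] at hcE
      obtain ⟨hA, hcode, hψ, him⟩ := hAF F hFI
      rw [h𝒜, mem_filter] at hA
      have : AF F ∈ ({A ∈ powersetCard m (univ : Finset (Fin n)) | C ⊆ A ∧
          Hit (fun F => ((c F).1, coreOf (c F))) G b C A} : Finset _) := by
        rw [mem_filter]
        refine ⟨hA.1, hA.2, ψF F, ?_, him, ?_⟩
        · rw [hcode]; exact hψ
        · rw [hcode]
          simp only [hcE.1, hcE.2]
      exact_mod_cast this
    · intro F hF F' hF' hFF'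
      have h1 : F ∈ ({F ∈ I | E F (c F)} : Finset _) := by exact_mod_cast hF
      have h2 : F' ∈ ({F ∈ I | E F (c F)} : Finset _) := by exact_mod_cast hF'
      rw [mem_filter] at h1 h2
      rw [← (hAF F h1.1).2.1, ← (hAF F' h2.1).2.1, hFF']
  have hsub : ({c : SimpleGraph (Fin m) → Om m |
        (cnt (fun F => ((c F).1, coreOf (c F))) G b C : ℝ) <
          (n.choose m : ℕ) / (4 * (m + 1) * (n.choose k : ℕ))} : Finset _) ⊆
      ({c : SimpleGraph (Fin m) → Om m | (#{F ∈ I | E F (c F)} : ℝ) <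
        (n.choose m : ℕ) / (2 * (m + 1) * (n.choose k : ℕ)) / 2} : Finset _) := by
    intro c hc
    rw [mem_filter] at hc ⊢
    refine ⟨mem_univ _, ?_⟩
    have h1 : (#{F ∈ I | E F (c F)} : ℝ) ≤ cnt (fun F => ((c F).1, coreOf (c F))) G b C := by
      exact_mod_cast hle c
    have h2 : ((n.choose m : ℕ) : ℝ) / (2 * (m + 1) * (n.choose k : ℕ)) / 2 =
        (n.choose m : ℕ) / (4 * (m + 1) * (n.choose k : ℕ)) := by
      field_simp
      ring
    rw [h2]
    exact h1.trans_lt hc.2
  have h3 : (4 : ℝ) / ((n.choose m : ℕ) / (2 * (m + 1) * (n.choose k : ℕ))) =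
      8 * (m + 1) * (n.choose k : ℕ) / (n.choose m : ℕ) := by
    rw [div_div_eq_mul_div]
    ring
  rw [h3] at hcheb
  have hfin := card_le_card hsub
  exact (Nat.cast_le.2 hfin).trans hcheb

end Pool.Agent.LibMP916a8b
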