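import Pool.Agent.LibMP916a8b.Params

/-!
Existence of good core functions.
-/

namespace Pool.Agent.LibMP916a8b

open Finset

set_option linter.unusedVariables false

/-- threshold for the counts -/
noncomputable def theta (n m k : ℕ) : ℝ :=
  (n.choose m : ℕ) / (4 * (m + 1) * (n.choose k : ℕ))

open Classical in
/-- number of strong `k`-sets with a low count -/
noncomputable def coreBad {n m : ℕ} (c : SimpleGraph (Fin m) → Bool × Finset (Fin m))
    (G : SimpleGraph (Fin n)) (k : ℕ) : ℕ :=
  #{C ∈ powersetCard k (univ : Finset (Fin n)) | Strong G C ∧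
    ¬ (theta n m k ≤ (cnt c G false C : ℝ) ∧ theta n m k ≤ (cnt c G true C : ℝ))}

/-- the core function `c` is good for `G` -/
def CoreGood {n m : ℕ} (c : SimpleGraph (Fin m) → Bool × Finset (Fin m))
    (G : SimpleGraph (Fin n)) : Prop :=
  32 * n ^ 2 * coreBad c G (kk n m) ≤ n.choose (kk n m)

/-- core function associated to a sample -/
def toCore {m : ℕ} (c : SimpleGraph (Fin m) → Om m) :
    SimpleGraph (Fin m) → Bool × Finset (Fin m) :=
  fun F => ((c F).1, coreOf (c F))

open Classical in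
theorem sum_coreBad {n m k : ℕ} (hn : 0 < n) (G : SimpleGraph (Fin n)) (hkm : k ≤ m)
    (hmn : m ≤ n) :
    ∑ c : SimpleGraph (Fin m) → Om m, (coreBad (toCore c) G k : ℝ) ≤
      (n.choose k : ℕ) * (16 * (m + 1) * (n.choose k : ℕ) / (n.choose m : ℕ) *
        Fintype.card (SimpleGraph (Fin m) → Om m)) := by
  have hcheb := fun (C : Finset (Fin n)) (hC : C.card = k) (hs : Strong G C) (b : Bool) =>
    core_chebyshev hn hC hkm hmn hs b
  have hnm : (0 : ℝ) < (n.choose m : ℕ) := by exact_mod_cast Nat.choose_pos hmn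
  have htot : (0 : ℝ) ≤ (Fintype.card (SimpleGraph (Fin m) → Om m) : ℝ) := Nat.cast_nonneg _
  generalize (Fintype.card (SimpleGraph (Fin m) → Om m) : ℝ) = tot at *
  have h1 : ∑ c : SimpleGraph (Fin m) → Om m, (coreBad (toCore c) G k : ℝ) =
      ∑ C ∈ powersetCard k (univ : Finset (Fin n)),
        (#{c : SimpleGraph (Fin m) → Om m | Strong G C ∧
          ¬ (theta n m k ≤ (cnt (toCore c) G false C : ℝ) ∧
            theta n m k ≤ (cnt (toCore c) G true C : ℝ))} : ℝ) := by
    have : ∑ c : SimpleGraph (Fin m) → Om m, coreBad (toCore c) G k =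
      ∑ C ∈ powersetCard k (univ : Finset (Fin n)),
        #{c : SimpleGraph (Fin m) → Om m | Strong G C ∧
          ¬ (theta n m k ≤ (cnt (toCore c) G false C : ℝ) ∧
            theta n m k ≤ (cnt (toCore c) G true C : ℝ))} := by
      simp only [coreBad, Finset.card_filter]
      rw [Finset.sum_comm]
    exact_mod_cast this
  rw [h1]
  have h2 : ∀ C ∈ powersetCard k (univ : Finset (Fin n)),
      (#{c : SimpleGraph (Fin m) → Om m | Strong G C ∧
          ¬ (theta n m k ≤ (cnt (toCore c) G false C : ℝ) ∧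
            theta n m k ≤ (cnt (toCore c) G true C : ℝ))} : ℝ) ≤
        16 * (m + 1) * (n.choose k : ℕ) / (n.choose m : ℕ) * tot := by
    intro C hC
    rw [mem_powersetCard] at hC
    by_cases hs : Strong G C
    · have h3 := hcheb C hC.2 hs false
      have h4 := hcheb C hC.2 hs true
      have hsub : ({c : SimpleGraph (Fin m) → Om m | Strong G C ∧
          ¬ (theta n m k ≤ (cnt (toCore c) G false C : ℝ) ∧
            theta n m k ≤ (cnt (toCore c) G true C : ℝ))} : Finset _) ⊆
          ({c : SimpleGraph (Fin m) → Om m |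
            (cnt (fun F => ((c F).1, coreOf (c F))) G false C : ℝ) <
              (n.choose m : ℕ) / (4 * (m + 1) * (n.choose k : ℕ))} : Finset _) ∪
          ({c : SimpleGraph (Fin m) → Om m |
            (cnt (fun F => ((c F).1, coreOf (c F))) G true C : ℝ) <
              (n.choose m : ℕ) / (4 * (m + 1) * (n.choose k : ℕ))} : Finset _) := by
        intro c hc
        rw [mem_filter] at hc
        rw [mem_union, mem_filter, mem_filter]
        have h5 := hc.2.2
        rw [not_and_or, not_le, not_le] at h5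
        rcases h5 with h5 | h5
        · exact Or.inl ⟨mem_univ _, h5⟩
        · exact Or.inr ⟨mem_univ _, h5⟩
      have h6 := (card_le_card hsub).trans (card_union_le _ _)
      have h7 := Nat.cast_le (α := ℝ).2 h6
      rw [Nat.cast_add] at h7
      refine h7.trans ((add_le_add h3 h4).trans (le_of_eq ?_))
      ring
    · have h8 : #{c : SimpleGraph (Fin m) → Om m | Strong G C ∧
          ¬ (theta n m k ≤ (cnt (toCore c) G false C : ℝ) ∧
            theta n m k ≤ (cnt (toCore c) G true C : ℝ))} = 0 := by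
        rw [card_eq_zero]
        apply filter_false_of_mem
        intro c _ hc
        exact hs hc.1
      rw [h8, Nat.cast_zero]
      positivity
  calc _ ≤ ∑ C ∈ powersetCard k (univ : Finset (Fin n)),
        16 * (m + 1) * (n.choose k : ℕ) / (n.choose m : ℕ) * tot := Finset.sum_le_sum h2
    _ = _ := by
      rw [sum_const, card_powersetCard, card_univ, Fintype.card_fin, nsmul_eq_mul]

open Classical in
theorem card_not_coreGood {n m : ℕ} (hn0 : 2 ≤ n) (hn : 2 * (s0 n + 2) ≤ n) (hm : m ∈ Mset n)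
    (G : SimpleGraph (Fin n)) :
    (n : ℝ) ^ 4 * (#{c : SimpleGraph (Fin m) → Om m | ¬ CoreGood (toCore c) G} : ℝ) ≤
      Fintype.card (SimpleGraph (Fin m) → Om m) := by
  have hk := kk_le hn hm
  have hmn := mem_Mset_le hm
  have hsum := sum_coreBad (by omega) G hk hmn
  have htot : (0 : ℝ) ≤ (Fintype.card (SimpleGraph (Fin m) → Om m) : ℝ) := Nat.cast_nonneg _
  generalize (Fintype.card (SimpleGraph (Fin m) → Om m) : ℝ) = tot at *
  set S := ({c : SimpleGraph (Fin m) → Om m | ¬ CoreGood (toCore c) G} : Finset _) with hS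
  set N : ℝ := ((n.choose (kk n m) : ℕ) : ℝ) with hN
  set T : ℝ := ((n.choose m : ℕ) : ℝ) with hT
  have hn2 : (2 : ℝ) ≤ n := by exact_mod_cast hn0
  have hnpos : (0 : ℝ) < n := by linarith
  have hTpos : 0 < T := by rw [hT]; exact_mod_cast Nat.choose_pos hmn
  have hNpos : 0 < N := by rw [hN]; exact_mod_cast Nat.choose_pos (hk.trans hmn)
  have hNT : N ^ 2 ≤ T := by rw [hN, hT]; exact_mod_cast kk_spec hn hm
  have hNbig : (n : ℝ) ^ 100 ≤ N := by
    rw [hN]; exact_mod_cast pow_le_choose_kk (by omega) hn hm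
  have hmarkov : (S.card : ℝ) * (N / (32 * n ^ 2)) ≤
      ∑ c : SimpleGraph (Fin m) → Om m, (coreBad (toCore c) G (kk n m) : ℝ) := by
    calc (S.card : ℝ) * (N / (32 * n ^ 2)) = ∑ c ∈ S, (N / (32 * n ^ 2) : ℝ) := by
          rw [sum_const, nsmul_eq_mul]
      _ ≤ ∑ c ∈ S, (coreBad (toCore c) G (kk n m) : ℝ) := by
          apply Finset.sum_le_sum
          intro c hc
          rw [hS, mem_filter] at hc
          have h := hc.2
          unfold CoreGood at h
          rw [not_le] at h
          rw [div_le_iff₀ (by positivity)]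
          have h' : N ≤ 32 * n ^ 2 * coreBad (toCore c) G (kk n m) := by
            rw [hN]; exact_mod_cast h.le
          linarith
      _ ≤ _ := Finset.sum_le_univ_sum_of_nonneg (fun G => Nat.cast_nonneg _)
  have h3 := hmarkov.trans hsum
  have h4 : (S.card : ℝ) * (N / (32 * n ^ 2)) = N * (S.card / (32 * n ^ 2)) := by ring
  rw [h4] at h3
  have h5 := le_of_mul_le_mul_left h3 hNpos
  rw [div_le_iff₀ (by positivity)] at h5
  -- N / T ≤ 1 / N ≤ 1 / n^100
  have h6 : N / T ≤ 1 / n ^ 100 := by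
    rw [div_le_div_iff₀ hTpos (by positivity), one_mul]
    calc N * n ^ 100 ≤ N * N := mul_le_mul_of_nonneg_left hNbig hNpos.le
      _ = N ^ 2 := by ring
      _ ≤ T := hNT
  have hm1 : (m : ℝ) + 1 ≤ 2 * n := by
    have : (m : ℝ) ≤ n := by exact_mod_cast hmn
    linarith
  have h7 : 16 * ((m : ℝ) + 1) * N / T ≤ 32 * n * (1 / n ^ 100) := by
    calc 16 * ((m : ℝ) + 1) * N / T = 16 * ((m : ℝ) + 1) * (N / T) := by ring
      _ ≤ 16 * (2 * n) * (1 / n ^ 100) := by
          apply mul_le_mul
          · linarith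
          · exact h6
          · positivity
          · positivity
      _ = _ := by ring
  have h8 : (n : ℝ) ^ 4 * (32 * n * (1 / n ^ 100) * (32 * n ^ 2)) ≤ 1 := by
    have : (n : ℝ) ^ 4 * (32 * n * (1 / n ^ 100) * (32 * n ^ 2)) = 1024 / n ^ 93 := by
      field_simp
      ring
    rw [this, div_le_one (by positivity)]
    calc (1024 : ℝ) ≤ 2 ^ 93 := by norm_num
      _ ≤ n ^ 93 := pow_le_pow_left₀ (by norm_num) hn2 93
  calc (n : ℝ) ^ 4 * (S.card : ℝ) ≤ (n : ℝ) ^ 4 *
        (16 * ((m : ℝ) + 1) * N / T * tot * (32 * n ^ 2)) :=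
        mul_le_mul_of_nonneg_left h5 (by positivity)
    _ ≤ (n : ℝ) ^ 4 * (32 * n * (1 / n ^ 100) * tot * (32 * n ^ 2)) := by
        apply mul_le_mul_of_nonneg_left _ (by positivity)
        apply mul_le_mul_of_nonneg_right _ (by positivity)
        exact mul_le_mul_of_nonneg_right h7 htot
    _ = ((n : ℝ) ^ 4 * (32 * n * (1 / n ^ 100) * (32 * n ^ 2))) * tot := by ring
    _ ≤ 1 * tot := mul_le_mul_of_nonneg_right h8 htot
    _ = tot := one_mul _

open Classical in
theorem card_bad_core {n m : ℕ} (hn0 : 2 ≤ n) (hn : 2 * (s0 n + 2) ≤ n) (hm : m ∈ Mset n) :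
    (n : ℝ) ^ 2 * (#{c : SimpleGraph (Fin m) → Om m | ¬ (n ^ 2 *
      #{G : SimpleGraph (Fin n) | ¬ CoreGood (toCore c) G} ≤ 2 ^ (n.choose 2))} : ℝ) ≤
      Fintype.card (SimpleGraph (Fin m) → Om m) := by
  have hG := fun G => card_not_coreGood hn0 hn hm (G := G)
  have htot : (0 : ℝ) ≤ (Fintype.card (SimpleGraph (Fin m) → Om m) : ℝ) := Nat.cast_nonneg _
  generalize (Fintype.card (SimpleGraph (Fin m) → Om m) : ℝ) = tot at *
  have hn2 : (2 : ℝ) ≤ n := by exact_mod_cast hn0
  have hnpos : (0 : ℝ) < n := by linarith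
  set S := ({c : SimpleGraph (Fin m) → Om m | ¬ (n ^ 2 *
      #{G : SimpleGraph (Fin n) | ¬ CoreGood (toCore c) G} ≤ 2 ^ (n.choose 2))} : Finset _)
    with hS
  set K : ℝ := 2 ^ (n.choose 2) with hK
  have hKpos : 0 < K := by positivity
  have hcomm : ∑ c : SimpleGraph (Fin m) → Om m,
      (#{G : SimpleGraph (Fin n) | ¬ CoreGood (toCore c) G} : ℝ) =
      ∑ G : SimpleGraph (Fin n), (#{c : SimpleGraph (Fin m) → Om m |
        ¬ CoreGood (toCore c) G} : ℝ) := by
    have : ∑ c : SimpleGraph (Fin m) → Om m,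
      #{G : SimpleGraph (Fin n) | ¬ CoreGood (toCore c) G} =
      ∑ G : SimpleGraph (Fin n), #{c : SimpleGraph (Fin m) → Om m |
        ¬ CoreGood (toCore c) G} := by
      simp only [Finset.card_filter]
      rw [Finset.sum_comm]
    exact_mod_cast this
  have hmarkov : (S.card : ℝ) * (K / n ^ 2) ≤ ∑ c : SimpleGraph (Fin m) → Om m,
      (#{G : SimpleGraph (Fin n) | ¬ CoreGood (toCore c) G} : ℝ) := by
    calc (S.card : ℝ) * (K / n ^ 2) = ∑ c ∈ S, (K / n ^ 2) := by
          rw [sum_const, nsmul_eq_mul]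
      _ ≤ ∑ c ∈ S, (#{G : SimpleGraph (Fin n) | ¬ CoreGood (toCore c) G} : ℝ) := by
          apply Finset.sum_le_sum
          intro c hc
          rw [hS, mem_filter, not_le] at hc
          rw [div_le_iff₀ (by positivity)]
          have h' : K ≤ n ^ 2 * (#{G : SimpleGraph (Fin n) | ¬ CoreGood (toCore c) G} : ℝ) := by
            rw [hK]; exact_mod_cast hc.2.le
          linarith
      _ ≤ _ := Finset.sum_le_univ_sum_of_nonneg (fun G => Nat.cast_nonneg _)
  rw [hcomm] at hmarkov
  have h1 : ∑ G : SimpleGraph (Fin n), (#{c : SimpleGraph (Fin m) → Om m |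
        ¬ CoreGood (toCore c) G} : ℝ) ≤ K * (tot / n ^ 4) := by
    calc _ ≤ ∑ G : SimpleGraph (Fin n), tot / (n : ℝ) ^ 4 := by
          apply Finset.sum_le_sum
          intro G _
          rw [le_div_iff₀ (by positivity)]
          have := hG G
          linarith
      _ = K * (tot / n ^ 4) := by
          rw [sum_const, card_univ, card_graphs, nsmul_eq_mul, hK]
          push_cast
          ring
  have h2 := hmarkov.trans h1
  have h3 : (S.card : ℝ) * (K / n ^ 2) = K * (S.card / n ^ 2) := by ring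
  rw [h3] at h2
  have h4 := le_of_mul_le_mul_left h2 hKpos
  rw [div_le_div_iff₀ (by positivity) (by positivity)] at h4
  have h5 : (S.card : ℝ) * (n ^ 2) * (n ^ 2) ≤ tot * (n ^ 2) := by
    calc (S.card : ℝ) * (n ^ 2) * (n ^ 2) = S.card * n ^ 4 := by ring
      _ ≤ _ := h4
  have h6 := le_of_mul_le_mul_right h5 (by positivity : (0 : ℝ) < (n : ℝ) ^ 2)
  linarith

open Classical in
/-- For every `m` there is a core function on level `m` which is good for most graphs on `n`
vertices for all relevant `n ≤ Nmax`. -/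
theorem exists_core (m Nmax : ℕ) : ∃ c : SimpleGraph (Fin m) → Bool × Finset (Fin m),
    ∀ n, 2 ≤ n → n ≤ Nmax → 2 * (s0 n + 2) ≤ n → m ∈ Mset n →
      n ^ 2 * #{G : SimpleGraph (Fin n) | ¬ CoreGood c G} ≤ 2 ^ (n.choose 2) := by
  have hmain : ∀ n, 2 ≤ n → n ≤ Nmax → 2 * (s0 n + 2) ≤ n → m ∈ Mset n →
      (n : ℝ) ^ 2 * (#{c : SimpleGraph (Fin m) → Om m | ¬ (n ^ 2 *
      #{G : SimpleGraph (Fin n) | ¬ CoreGood (toCore c) G} ≤ 2 ^ (n.choose 2))} : ℝ) ≤
      Fintype.card (SimpleGraph (Fin m) → Om m) := fun n h1 _ h3 h4 => card_bad_core h1 h3 h4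
  have htotpos : (0 : ℝ) < (Fintype.card (SimpleGraph (Fin m) → Om m) : ℝ) := by
    exact_mod_cast Fintype.card_pos
  have htot' : (Fintype.card (SimpleGraph (Fin m) → Om m) : ℝ) =
      ((univ : Finset (SimpleGraph (Fin m) → Om m)).card : ℝ) := by rw [card_univ]
  generalize (Fintype.card (SimpleGraph (Fin m) → Om m) : ℝ) = tot at *
  set P : ℕ → Prop := fun n => 2 * (s0 n + 2) ≤ n ∧ m ∈ Mset n with hP
  set bad : ℕ → Finset (SimpleGraph (Fin m) → Om m) := fun n =>
    {c : SimpleGraph (Fin m) → Om m | ¬ (n ^ 2 *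
      #{G : SimpleGraph (Fin n) | ¬ CoreGood (toCore c) G} ≤ 2 ^ (n.choose 2))} with hbad
  set I := (Ioc 1 Nmax).filter P with hI
  have hcard : ((I.biUnion bad).card : ℝ) < tot := by
    calc ((I.biUnion bad).card : ℝ) ≤ ∑ n ∈ I, ((bad n).card : ℝ) := by
          exact_mod_cast card_biUnion_le
      _ ≤ ∑ n ∈ I, tot * ((n : ℝ) ^ 2)⁻¹ := by
          apply Finset.sum_le_sum
          intro n hn
          rw [hI, mem_filter, mem_Ioc] at hn
          have := hmain n (by omega) hn.1.2 hn.2.1 hn.2.2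
          have hnpos : (0 : ℝ) < n := by
            have : 0 < n := by omega
            exact_mod_cast this
          rw [← div_eq_mul_inv, le_div_iff₀ (by positivity), mul_comm]
          exact this
      _ ≤ ∑ n ∈ Ioc 1 Nmax, tot * ((n : ℝ) ^ 2)⁻¹ := by
          apply Finset.sum_le_sum_of_subset_of_nonneg (filter_subset _ _)
          intro n _ _
          positivity
      _ = tot * ∑ n ∈ Ioc 1 Nmax, ((n : ℝ) ^ 2)⁻¹ := by rw [Finset.mul_sum]
      _ < tot := by
          rcases Nat.lt_or_ge Nmax 1 with h | h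
          · have : Ioc 1 Nmax = ∅ := by
              apply Ioc_eq_empty_of_le
              omega
            rw [this, sum_empty, mul_zero]; exact htotpos
          · have h1 := sum_Ioc_inv_sq_le_sub (α := ℝ) one_ne_zero h
            have h2 : (0 : ℝ) < ((Nmax : ℕ) : ℝ)⁻¹ := by
              have : (0 : ℝ) < Nmax := by exact_mod_cast h
              positivity
            have h3 : ∑ n ∈ Ioc 1 Nmax, ((n : ℝ) ^ 2)⁻¹ < 1 := by
              have h4 : ((1 : ℕ) : ℝ)⁻¹ = 1 := by norm_num
              rw [h4] at h1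
              linarith
            calc tot * ∑ n ∈ Ioc 1 Nmax, ((n : ℝ) ^ 2)⁻¹ < tot * 1 :=
                  mul_lt_mul_of_pos_left h3 htotpos
              _ = tot := mul_one _
  rw [htot'] at hcard
  have hcard' : (I.biUnion bad).card < (univ : Finset (SimpleGraph (Fin m) → Om m)).card := by
    exact_mod_cast hcard
  obtain ⟨c, _, hc⟩ := exists_mem_notMem_of_card_lt_card hcard'
  refine ⟨toCore c, ?_⟩
  intro n h1 h2 h3 h4
  by_contra hcon
  apply hc
  rw [mem_biUnion]
  refine ⟨n, ?_, ?_⟩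
  · rw [hI, mem_filter, mem_Ioc]
    exact ⟨⟨by omega, h2⟩, h3, h4⟩
  · simp only [hbad, mem_filter, mem_univ, true_and]
    exact hcon

end Pool.Agent.LibMP916a8b
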