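import Mathlib

/-!
Counting lemmas: resampling one coordinate, a level-by-level bound, a Chebyshev bound, and
double counting of pairs of subsets.
-/

namespace Pool.Agent.LibMP916a8b

open Finset

set_option linter.unusedVariables false
set_option linter.unusedSectionVars false

section product

variable {ι : Type*} [Fintype ι] [DecidableEq ι] {B : ι → Type*} [∀ i, Fintype (B i)]

theorem sum_update (m : ι) (f : (∀ i, B i) → ℝ) :
    ∑ β : (∀ i, B i), ∑ x : B m, f (Function.update β m x) =
      Fintype.card (B m) * ∑ β : (∀ i, B i), f β := by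
  have h1 : ∑ β : (∀ i, B i), ∑ x : B m, f (Function.update β m x) =
      ∑ q : (∀ i, B i) × B m, f (Function.update q.1 m q.2) := by
    rw [Fintype.sum_prod_type]
  have h2 : ∑ q : (∀ i, B i) × B m, f (Function.update q.1 m q.2) =
      ∑ q : (∀ i, B i) × B m, f q.1 := by
    let e : ((∀ i, B i) × B m) ≃ ((∀ i, B i) × B m) :=
      { toFun := fun q => (Function.update q.1 m q.2, q.1 m)
        invFun := fun q => (Function.update q.1 m q.2, q.1 m)
        left_inv := by
          rintro ⟨β, x⟩
          simp
        right_inv := by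
          rintro ⟨β, x⟩
          simp }
    exact Equiv.sum_comp e (fun q : (∀ i, B i) × B m => f q.1)
  rw [h1, h2, Fintype.sum_prod_type]
  simp only [sum_const, card_univ, nsmul_eq_mul]
  rw [← Finset.mul_sum]

end product

section level

variable {ι : Type*} [Fintype ι] [LinearOrder ι] {B : ι → Type*} [∀ i, Fintype (B i)]
  [∀ i, Nonempty (B i)]

open Classical in
theorem level_lemma (M : Finset ι) (E : ι → (∀ i, B i) → Prop) (b : ι → ℝ)
    (hb : ∀ m ∈ M, 0 ≤ b m)
    (hdep : ∀ m ∈ M, ∀ β β' : (∀ i, B i), (∀ i ≤ m, β i = β' i) → (E m β ↔ E m β'))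
    (hE : ∀ m ∈ M, ∀ β : (∀ i, B i),
      (#{x : B m | E m (Function.update β m x)} : ℝ) ≤ b m * Fintype.card (B m)) :
    (#{β : (∀ i, B i) | ∀ m ∈ M, E m β} : ℝ) ≤ (∏ m ∈ M, b m) * Fintype.card (∀ i, B i) := by
  induction M using Finset.induction_on_max with
  | empty => simp
  | insert a s hmax ih =>
    have has : a ∉ s := fun h => lt_irrefl _ (hmax a h)
    have ih' := ih (fun m hm => hb m (mem_insert_of_mem hm))
      (fun m hm => hdep m (mem_insert_of_mem hm)) (fun m hm => hE m (mem_insert_of_mem hm))
    have hEa := hE a (mem_insert_self _ _)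
    have hba := hb a (mem_insert_self _ _)
    have hcard : (0 : ℝ) < Fintype.card (B a) := by
      exact_mod_cast Fintype.card_pos
    rw [prod_insert has]
    -- the count as a sum of indicators
    have key : (Fintype.card (B a) : ℝ) * (#{β : (∀ i, B i) | ∀ m ∈ insert a s, E m β} : ℝ) ≤
        (Fintype.card (B a) : ℝ) * (b a * (#{β : (∀ i, B i) | ∀ m ∈ s, E m β} : ℝ)) := by
      have h1 : (#{β : (∀ i, B i) | ∀ m ∈ insert a s, E m β} : ℝ) =
          ∑ β : (∀ i, B i), (if ∀ m ∈ insert a s, E m β then (1 : ℝ) else 0) := by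
        rw [Finset.sum_boole]
      rw [h1, ← sum_update a (fun β => if ∀ m ∈ insert a s, E m β then (1 : ℝ) else 0)]
      have h2 : (#{β : (∀ i, B i) | ∀ m ∈ s, E m β} : ℝ) =
          ∑ β : (∀ i, B i), (if ∀ m ∈ s, E m β then (1 : ℝ) else 0) := by
        rw [Finset.sum_boole]
      rw [h2, Finset.mul_sum, Finset.mul_sum]
      apply Finset.sum_le_sum
      intro β _
      have hinv : ∀ x : B a, (∀ m ∈ s, E m (Function.update β a x)) ↔ (∀ m ∈ s, E m β) := by
        intro x
        refine forall₂_congr ?_
        intro m hm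
        apply hdep m (mem_insert_of_mem hm)
        intro i hi
        have : i ≠ a := by
          rintro rfl
          exact absurd (hmax m hm) (not_lt.2 hi)
        simp [Function.update_of_ne this]
      by_cases hs : ∀ m ∈ s, E m β
      · rw [if_pos hs, mul_one]
        have h3 : ∑ x : B a, (if ∀ m ∈ insert a s, E m (Function.update β a x) then (1 : ℝ) else 0)
            = (#{x : B a | E a (Function.update β a x)} : ℝ) := by
          rw [← Finset.sum_boole]
          apply Finset.sum_congr rfl
          intro x _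
          have : (∀ m ∈ insert a s, E m (Function.update β a x)) ↔
              E a (Function.update β a x) := by
            constructor
            · intro h; exact h a (mem_insert_self _ _)
            · intro h m hm
              rcases mem_insert.1 hm with rfl | hm
              · exact h
              · exact (hinv x).2 hs m hm
          simp only [this]
        rw [h3]
        calc _ ≤ _ := hEa β
          _ = _ := by ring
      · rw [if_neg hs, mul_zero, mul_zero]
        apply le_of_eq
        apply Finset.sum_eq_zero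
        intro x _
        rw [if_neg]
        intro h
        exact hs ((hinv x).1 (fun m hm => h m (mem_insert_of_mem hm)))
    have key2 := le_of_mul_le_mul_left key hcard
    calc _ ≤ _ := key2
      _ ≤ b a * ((∏ m ∈ s, b m) * Fintype.card (∀ i, B i)) :=
        mul_le_mul_of_nonneg_left ih' hba
      _ = _ := by ring

end level

section chebyshev

variable {ι Ω : Type*} [Fintype ι] [DecidableEq ι] [Fintype Ω] [Nonempty Ω]

theorem sum_coord_zero (i j : ι) (hij : i ≠ j) (f g : Ω → ℝ) (hg : ∑ x, g x = 0) :
    ∑ c : ι → Ω, f (c i) * g (c j) = 0 := by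
  have h := sum_update (B := fun _ : ι => Ω) j (fun c => f (c i) * g (c j))
  have h2 : ∑ β : (ι → Ω), ∑ x : Ω,
      f (Function.update β j x i) * g (Function.update β j x j) = 0 := by
    apply Finset.sum_eq_zero
    intro β _
    simp only [Function.update_self, Function.update_of_ne hij]
    rw [← Finset.mul_sum, hg, mul_zero]
  rw [h2] at h
  have hc : (Fintype.card Ω : ℝ) ≠ 0 := by
    exact_mod_cast Fintype.card_ne_zero
  rcases mul_eq_zero.1 h.symm with h | h
  · exact absurd h hc
  · exact h

theorem sum_coord (i : ι) (f : Ω → ℝ) :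
    (Fintype.card Ω : ℝ) * ∑ c : ι → Ω, f (c i) = Fintype.card (ι → Ω) * ∑ x, f x := by
  have h := sum_update (B := fun _ : ι => Ω) i (fun c => f (c i))
  rw [← h]
  simp only [Function.update_self]
  rw [sum_const, card_univ, nsmul_eq_mul]

open Classical in
theorem chebyshev_count' (I : Finset ι) (E : ι → Ω → Prop) (p : ℝ) (hp : 0 < p)
    (hE : ∀ i ∈ I, (#{x : Ω | E i x} : ℝ) = p * Fintype.card Ω) (hI : I.Nonempty) :
    (#{c : ι → Ω | (#{i ∈ I | E i (c i)} : ℝ) < p * I.card / 2} : ℝ) ≤
      4 / (p * I.card) * Fintype.card (ι → Ω) := by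
  set tot : ℝ := (Fintype.card (ι → Ω) : ℝ) with htot
  have hΩ : (0 : ℝ) < Fintype.card Ω := by exact_mod_cast Fintype.card_pos
  let Z : ι → (ι → Ω) → ℝ := fun i c => (if E i (c i) then (1 : ℝ) else 0) - p
  have hIpos : (0 : ℝ) < I.card := by exact_mod_cast hI.card_pos
  -- second moment
  have hsum0 : ∀ i ∈ I, ∑ x : Ω, ((if E i x then (1 : ℝ) else 0) - p) = 0 := by
    intro i hi
    rw [Finset.sum_sub_distrib, Finset.sum_const, card_univ, nsmul_eq_mul, Finset.sum_boole,
      hE i hi]
    ring
  have hsq : ∀ i ∈ I, ∑ c : ι → Ω, Z i c * Z i c ≤ p * tot := by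
    intro i hi
    have h := sum_coord i (fun x : Ω => ((if E i x then (1 : ℝ) else 0) - p) *
      ((if E i x then (1 : ℝ) else 0) - p))
    have h2 : ∑ x : Ω, ((if E i x then (1 : ℝ) else 0) - p) *
      ((if E i x then (1 : ℝ) else 0) - p) = Fintype.card Ω * (p - p ^ 2) := by
      have : ∀ x : Ω, ((if E i x then (1 : ℝ) else 0) - p) *
        ((if E i x then (1 : ℝ) else 0) - p) =
        (1 - 2 * p) * (if E i x then (1 : ℝ) else 0) + p ^ 2 := by
        intro x
        by_cases hx : E i x
        · simp only [if_pos hx]; ring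
        · simp only [if_neg hx]; ring
      rw [Finset.sum_congr rfl (fun x _ => this x), Finset.sum_add_distrib, ← Finset.mul_sum,
        Finset.sum_boole, Finset.sum_const, hE i hi, card_univ, nsmul_eq_mul]
      ring
    rw [h2] at h
    have h3 : ∑ c : ι → Ω, Z i c * Z i c = tot * (p - p ^ 2) := by
      have : (Fintype.card Ω : ℝ) * ∑ c : ι → Ω, Z i c * Z i c =
        (Fintype.card Ω : ℝ) * (tot * (p - p ^ 2)) := by
        rw [htot]
        linarith
      exact mul_left_cancel₀ hΩ.ne' this
    rw [h3]
    have : 0 ≤ tot := by rw [htot]; positivity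
    nlinarith [sq_nonneg p]
  have hcross : ∀ i ∈ I, ∀ j ∈ I, i ≠ j → ∑ c : ι → Ω, Z i c * Z j c = 0 := by
    intro i hi j hj hij
    exact sum_coord_zero i j hij (fun x => (if E i x then (1 : ℝ) else 0) - p)
      (fun x => (if E j x then (1 : ℝ) else 0) - p) (hsum0 j hj)
  have hmoment : ∑ c : ι → Ω, (∑ i ∈ I, Z i c) ^ 2 ≤ I.card * (p * tot) := by
    have h1 : ∀ c : ι → Ω, (∑ i ∈ I, Z i c) ^ 2 = ∑ i ∈ I, ∑ j ∈ I, Z i c * Z j c := by
      intro c
      rw [sq, Finset.sum_mul_sum]
    rw [Finset.sum_congr rfl (fun c _ => h1 c), Finset.sum_comm]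
    have h2 : ∀ i ∈ I, ∑ c : ι → Ω, ∑ j ∈ I, Z i c * Z j c ≤ p * tot := by
      intro i hi
      rw [Finset.sum_comm, ← Finset.add_sum_erase _ _ hi]
      have : ∑ j ∈ I.erase i, ∑ c : ι → Ω, Z i c * Z j c = 0 := by
        apply Finset.sum_eq_zero
        intro j hj
        exact hcross i hi j (mem_of_mem_erase hj) (ne_of_mem_erase hj).symm
      rw [this, add_zero]
      exact hsq i hi
    calc _ ≤ ∑ i ∈ I, p * tot := Finset.sum_le_sum h2
      _ = _ := by rw [sum_const, nsmul_eq_mul]
  -- Markov
  have hX : ∀ c : ι → Ω, ∑ i ∈ I, Z i c = (#{i ∈ I | E i (c i)} : ℝ) - p * I.card := by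
    intro c
    simp only [Z]
    rw [Finset.sum_sub_distrib, Finset.sum_const, nsmul_eq_mul, Finset.sum_boole]
    ring
  set S := ({c : ι → Ω | (#{i ∈ I | E i (c i)} : ℝ) < p * I.card / 2} : Finset (ι → Ω)) with hS
  have h4 : (S.card : ℝ) * (p * I.card / 2) ^ 2 ≤ ∑ c : ι → Ω, (∑ i ∈ I, Z i c) ^ 2 := by
    calc (S.card : ℝ) * (p * I.card / 2) ^ 2 = ∑ c ∈ S, (p * I.card / 2) ^ 2 := by
          rw [sum_const, nsmul_eq_mul]
      _ ≤ ∑ c ∈ S, (∑ i ∈ I, Z i c) ^ 2 := by
          apply Finset.sum_le_sum
          intro c hc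
          rw [hS, mem_filter] at hc
          rw [hX c]
          have h5 := hc.2
          have h6 : (0 : ℝ) < p * I.card := mul_pos hp hIpos
          nlinarith
      _ ≤ _ := by
          apply Finset.sum_le_univ_sum_of_nonneg
          intro c
          positivity
  have h5 := h4.trans hmoment
  have h6 : (0 : ℝ) < p * I.card := mul_pos hp hIpos
  rw [div_mul_eq_mul_div, le_div_iff₀ h6]
  have h7 : (S.card : ℝ) * (p * I.card) * (p * I.card) ≤ (4 * tot) * (p * I.card) := by
    nlinarith
  exact le_of_mul_le_mul_right h7 h6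

end chebyshev

section subsets

variable {α : Type*} [Fintype α] [DecidableEq α]

/-- Number of `m`-sets containing a given set. -/
theorem card_superset (C : Finset α) (m : ℕ) (h : C.card ≤ m) :
    #{A ∈ powersetCard m (univ : Finset α) | C ⊆ A} =
      (Fintype.card α - C.card).choose (m - C.card) := by
  have : (powersetCard (m - C.card) (univ \ C)).card =
      (Fintype.card α - C.card).choose (m - C.card) := by
    rw [card_powersetCard, card_univ_sdiff]
  rw [← this]
  apply Finset.card_bij' (fun A _ => A \ C) (fun D _ => C ∪ D)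
  · intro A hA
    rw [mem_filter, mem_powersetCard] at hA
    rw [mem_powersetCard]
    refine ⟨sdiff_subset_sdiff (subset_univ _) subset_rfl, ?_⟩
    rw [card_sdiff_of_subset hA.2, hA.1.2]
  · intro D hD
    rw [mem_powersetCard] at hD
    rw [mem_filter, mem_powersetCard]
    refine ⟨⟨subset_univ _, ?_⟩, subset_union_left⟩
    rw [card_union_of_disjoint, hD.2]
    · omega
    · rw [Finset.disjoint_left]
      intro x hx hx'
      have := hD.1 hx'
      rw [mem_sdiff] at this
      exact this.2 hx
  · intro A hA
    rw [mem_filter] at hA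
    exact union_sdiff_of_subset hA.2
  · intro D hD
    rw [mem_powersetCard] at hD
    have : Disjoint C D := by
      rw [Finset.disjoint_left]
      intro x hx hx'
      have := hD.1 hx'
      rw [mem_sdiff] at this
      exact this.2 hx
    exact union_sdiff_cancel_left this

/-- The density of a downward closed family decreases with the level. -/
theorem downclosed_card {p : Finset α → Prop} [DecidablePred p]
    (hp : ∀ C C0, p C → C0 ⊆ C → p C0) {s0 s : ℕ} (h : s0 ≤ s) (hs : s ≤ Fintype.card α) :
    #{C ∈ powersetCard s (univ : Finset α) | p C} * (Fintype.card α).choose s0 ≤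
      #{C ∈ powersetCard s0 (univ : Finset α) | p C} * (Fintype.card α).choose s := by
  have h1 : #{C ∈ powersetCard s (univ : Finset α) | p C} * s.choose s0 ≤
      #{C ∈ powersetCard s0 (univ : Finset α) | p C} *
        (Fintype.card α - s0).choose (s - s0) := by
    apply Finset.card_mul_le_card_mul (fun C C0 => C0 ⊆ C)
    · intro C hC
      rw [mem_filter, mem_powersetCard] at hC
      have : (powersetCard s0 C).card = s.choose s0 := by
        rw [card_powersetCard, hC.1.2]
      rw [← this]
      apply card_le_card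
      intro C0 hC0
      rw [mem_powersetCard] at hC0
      rw [Finset.mem_bipartiteAbove, mem_filter, mem_powersetCard]
      exact ⟨⟨⟨subset_univ _, hC0.2⟩, hp C C0 hC.2 hC0.1⟩, hC0.1⟩
    · intro C0 hC0
      rw [mem_filter, mem_powersetCard] at hC0
      have := card_superset C0 s (by rw [hC0.1.2]; exact h)
      rw [hC0.1.2] at this
      rw [← this]
      apply card_le_card
      intro C hC
      rw [Finset.mem_bipartiteBelow, mem_filter] at hC
      rw [mem_filter]
      exact ⟨hC.1.1, hC.2⟩
  have h2 := Nat.choose_mul (n := Fintype.card α) (k := s) (s := s0) h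
  have h3 : 0 < s.choose s0 := Nat.choose_pos h
  apply Nat.le_of_mul_le_mul_right _ h3
  calc _ = (#{C ∈ powersetCard s (univ : Finset α) | p C} * s.choose s0) *
        (Fintype.card α).choose s0 := by ring
    _ ≤ (#{C ∈ powersetCard s0 (univ : Finset α) | p C} *
        (Fintype.card α - s0).choose (s - s0)) * (Fintype.card α).choose s0 :=
        Nat.mul_le_mul_right _ h1
    _ = #{C ∈ powersetCard s0 (univ : Finset α) | p C} *
        ((Fintype.card α).choose s0 * (Fintype.card α - s0).choose (s - s0)) := by ring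
    _ = _ := by rw [← h2]; ring

end subsets

end Pool.Agent.LibMP916a8b
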