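import Mathlib

/-!
Anti-concentration: a two-scale Littlewood-Offord type bound.
-/

namespace Pool.Agent.LibMP916a8b

open Finset

set_option linter.unusedVariables false

theorem centralBinom_sq_le (n : ℕ) : (Nat.centralBinom n) ^ 2 * (3 * n + 1) ≤ 16 ^ n := by
  induction n with
  | zero => simp
  | succ n ih =>
    have h := Nat.succ_mul_centralBinom_succ n
    -- (n+1) * cb(n+1) = 2 * (2n+1) * cb n
    have h2 : (n + 1) ^ 2 * ((Nat.centralBinom (n + 1)) ^ 2 * (3 * (n + 1) + 1)) ≤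
        (n + 1) ^ 2 * 16 ^ (n + 1) := by
      calc (n + 1) ^ 2 * ((Nat.centralBinom (n + 1)) ^ 2 * (3 * (n + 1) + 1))
          = ((n + 1) * Nat.centralBinom (n + 1)) ^ 2 * (3 * n + 4) := by ring
        _ = (2 * (2 * n + 1) * Nat.centralBinom n) ^ 2 * (3 * n + 4) := by rw [h]
        _ = 4 * (Nat.centralBinom n) ^ 2 * ((2 * n + 1) ^ 2 * (3 * n + 4)) := by ring
        _ ≤ 4 * (Nat.centralBinom n) ^ 2 * (4 * (n + 1) ^ 2 * (3 * n + 1)) := by
            apply Nat.mul_le_mul_left
            nlinarith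
        _ = 16 * (n + 1) ^ 2 * ((Nat.centralBinom n) ^ 2 * (3 * n + 1)) := by ring
        _ ≤ 16 * (n + 1) ^ 2 * 16 ^ n := Nat.mul_le_mul_left _ ih
        _ = (n + 1) ^ 2 * 16 ^ (n + 1) := by ring
    exact Nat.le_of_mul_le_mul_left h2 (by positivity)

theorem centralBinom_le (n : ℕ) : (Nat.centralBinom n : ℝ) * √(3 * n + 1) ≤ 4 ^ n := by
  have h := centralBinom_sq_le n
  have h1 : ((Nat.centralBinom n : ℝ)) ^ 2 * (3 * n + 1) ≤ (4 ^ n) ^ 2 := by
    have : ((Nat.centralBinom n) ^ 2 * (3 * n + 1) : ℝ) ≤ 16 ^ n := by exact_mod_cast h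
    calc _ ≤ _ := this
      _ = _ := by rw [← pow_mul, mul_comm n 2, pow_mul]; norm_num
  have h2 : ((Nat.centralBinom n : ℝ) * √(3 * n + 1)) ^ 2 ≤ (4 ^ n) ^ 2 := by
    rw [mul_pow, Real.sq_sqrt (by positivity)]
    exact h1
  exact le_of_sq_le_sq h2 (by positivity)

theorem choose_half_le (N : ℕ) (hN : 1 ≤ N) :
    ((N.choose (N / 2) : ℕ) : ℝ) * √N ≤ 2 ^ N := by
  rcases Nat.even_or_odd' N with ⟨k, hk | hk⟩
  · subst hk
    have h1 : 2 * k / 2 = k := by omega
    rw [h1]
    have h := centralBinom_le k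
    rw [Nat.centralBinom] at h
    have h2 : √((2 * k : ℕ) : ℝ) ≤ √(3 * k + 1) := by
      apply Real.sqrt_le_sqrt
      push_cast
      have : (0 : ℝ) ≤ k := Nat.cast_nonneg k
      linarith
    calc _ ≤ (((2 * k).choose k : ℕ) : ℝ) * √(3 * k + 1) :=
          mul_le_mul_of_nonneg_left h2 (Nat.cast_nonneg _)
      _ ≤ 4 ^ k := h
      _ = 2 ^ (2 * k) := by rw [pow_mul]; norm_num
  · subst hk
    have h1 : (2 * k + 1) / 2 = k := by omega
    rw [h1]
    have h := centralBinom_le (k + 1)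
    have h3 : Nat.centralBinom (k + 1) = 2 * (2 * k + 1).choose k := by
      rw [Nat.centralBinom]
      have : 2 * (k + 1) = (2 * k + 1) + 1 := by ring
      rw [this, Nat.choose_succ_succ]
      have h4 : (2 * k + 1).choose (k + 1) = (2 * k + 1).choose k := by
        rw [← Nat.choose_symm_of_eq_add]
        omega
      rw [Nat.succ_eq_add_one, h4]; ring
    rw [h3] at h
    have h2 : √((2 * k + 1 : ℕ) : ℝ) ≤ √(3 * ((k + 1 : ℕ) : ℝ) + 1) := by
      apply Real.sqrt_le_sqrt
      push_cast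
      have : (0 : ℝ) ≤ k := Nat.cast_nonneg k
      linarith
    have h5 : 2 * ((((2 * k + 1).choose k : ℕ) : ℝ) * √((2 * k + 1 : ℕ) : ℝ)) ≤ 4 ^ (k + 1) := by
      calc _ ≤ 2 * ((((2 * k + 1).choose k : ℕ) : ℝ) * √(3 * ((k + 1 : ℕ) : ℝ) + 1)) := by
            apply mul_le_mul_of_nonneg_left _ (by norm_num)
            exact mul_le_mul_of_nonneg_left h2 (Nat.cast_nonneg _)
        _ = ((2 * (2 * k + 1).choose k : ℕ) : ℝ) * √(3 * ((k + 1 : ℕ) : ℝ) + 1) := by
            push_cast; ring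
        _ ≤ _ := h
    have h6 : (4 : ℝ) ^ (k + 1) = 2 * 2 ^ (2 * k + 1) := by
      rw [pow_succ, pow_succ, pow_mul]; norm_num; ring
    rw [h6] at h5
    linarith

theorem choose_le_exp (N j : ℕ) (hN : 1 ≤ N) (hj : j ≤ N) :
    ((N.choose j : ℕ) : ℝ) ≤ 2 ^ N * Real.exp (-2 * ((j : ℝ) - N / 2) ^ 2 / N) := by
  have hNpos : (0 : ℝ) < N := by exact_mod_cast hN
  set l : ℝ := (2 * j - N) / N with hl
  have h1 : ((N.choose j : ℕ) : ℝ) * (Real.exp l ^ j * Real.exp (-l) ^ (N - j)) ≤
      (Real.exp l + Real.exp (-l)) ^ N := by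
    rw [add_pow]
    have := Finset.single_le_sum (f := fun m => Real.exp l ^ m * Real.exp (-l) ^ (N - m) *
      ((N.choose m : ℕ) : ℝ)) (s := range (N + 1)) (fun i _ => by positivity)
      (mem_range.2 (Nat.lt_succ_of_le hj))
    calc _ = Real.exp l ^ j * Real.exp (-l) ^ (N - j) * ((N.choose j : ℕ) : ℝ) := by ring
      _ ≤ _ := this
  have h2 : (Real.exp l + Real.exp (-l)) ^ N ≤ 2 ^ N * Real.exp (l ^ 2 / 2 * N) := by
    have h3 : Real.exp l + Real.exp (-l) = 2 * Real.cosh l := by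
      rw [Real.cosh_eq]; ring
    rw [h3, mul_pow]
    apply mul_le_mul_of_nonneg_left _ (by positivity)
    calc Real.cosh l ^ N ≤ (Real.exp (l ^ 2 / 2)) ^ N :=
          pow_le_pow_left₀ (Real.cosh_pos l).le (Real.cosh_le_exp_half_sq l) N
      _ = _ := by rw [← Real.exp_nat_mul]; ring_nf
  have h4 : Real.exp l ^ j * Real.exp (-l) ^ (N - j) = Real.exp (l * (2 * j - N)) := by
    rw [← Real.exp_nat_mul, ← Real.exp_nat_mul, ← Real.exp_add]
    congr 1
    rw [Nat.cast_sub hj]
    ring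
  rw [h4] at h1
  have h5 := h1.trans h2
  have h6 : ((N.choose j : ℕ) : ℝ) =
      ((N.choose j : ℕ) : ℝ) * Real.exp (l * (2 * j - N)) * Real.exp (-(l * (2 * j - N))) := by
    rw [mul_assoc, ← Real.exp_add]; simp
  rw [h6]
  calc _ ≤ 2 ^ N * Real.exp (l ^ 2 / 2 * N) * Real.exp (-(l * (2 * j - N))) :=
        mul_le_mul_of_nonneg_right h5 (Real.exp_pos _).le
    _ = 2 ^ N * Real.exp (-2 * ((j : ℝ) - N / 2) ^ 2 / N) := by
        rw [mul_assoc, ← Real.exp_add]
        congr 2
        rw [hl]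
        field_simp
        ring

section sperner

variable {α : Type*} [DecidableEq α]

/-- A window of length `L` contains few subset sums of numbers at least `L`. -/
theorem sperner_window (I : Finset α) (d : α → ℝ) (L : ℝ) (hL : 0 < L)
    (hd : ∀ a ∈ I, L ≤ d a) (x : ℝ) :
    #{s ∈ I.powerset | x ≤ ∑ a ∈ s, d a ∧ ∑ a ∈ s, d a < x + L} ≤
      I.card.choose (I.card / 2) := by
  classical
  set F := {s ∈ I.powerset | x ≤ ∑ a ∈ s, d a ∧ ∑ a ∈ s, d a < x + L} with hF
  let f : Finset α → Finset I := fun s => s.subtype (fun a => a ∈ I)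
  have hmap : ∀ s ∈ F, (f s).map (Function.Embedding.subtype _) = s := by
    intro s hs
    rw [hF, mem_filter, mem_powerset] at hs
    simp only [f]
    rw [Finset.subtype_map]
    exact Finset.filter_true_of_mem (fun a ha => hs.1 ha)
  have hinj : Set.InjOn f F := by
    intro s hs t ht hst
    rw [← hmap s (by exact_mod_cast hs), ← hmap t (by exact_mod_cast ht), hst]
  have hcard : F.card = (F.image f).card := (Finset.card_image_of_injOn hinj).symm
  have hanti : IsAntichain (fun x1 x2 => x1 ⊆ x2) (F.image f : Set (Finset I)) := by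
    intro s' hs' t' ht' hne hsub
    simp only [coe_image, Set.mem_image, mem_coe] at hs' ht'
    obtain ⟨s, hs, rfl⟩ := hs'
    obtain ⟨t, ht, rfl⟩ := ht'
    have hst : s ⊆ t := by
      rw [← hmap s hs, ← hmap t ht]
      exact Finset.map_subset_map.2 hsub
    have hne' : s ≠ t := by rintro rfl; exact hne rfl
    obtain ⟨a, hat, has⟩ : ∃ a ∈ t, a ∉ s := by
      by_contra hcon
      push Not at hcon
      exact hne' (Finset.Subset.antisymm hst hcon)
    rw [hF, mem_filter, mem_powerset] at hs ht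
    have h1 : ∑ b ∈ s, d b + d a ≤ ∑ b ∈ t, d b := by
      rw [add_comm, ← Finset.sum_insert has]
      apply Finset.sum_le_sum_of_subset_of_nonneg
      · intro b hb
        rcases mem_insert.1 hb with rfl | hb
        · exact hat
        · exact hst hb
      · intro b hb _
        exact hL.le.trans (hd b (ht.1 hb))
    have h2 := hd a (ht.1 hat)
    linarith [hs.2.1, ht.2.2]
  have h := hanti.sperner
  rw [← hcard, Fintype.card_coe] at h
  exact h

theorem sperner_interval (I : Finset α) (d : α → ℝ) (L : ℝ) (hL : 0 < L)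
    (hd : ∀ a ∈ I, L ≤ d a) (x w : ℝ) (hw : 0 ≤ w) :
    (#{s ∈ I.powerset | x ≤ ∑ a ∈ s, d a ∧ ∑ a ∈ s, d a ≤ x + w} : ℝ) ≤
      (w / L + 1) * (I.card.choose (I.card / 2) : ℕ) := by
  classical
  set F := {s ∈ I.powerset | x ≤ ∑ a ∈ s, d a ∧ ∑ a ∈ s, d a ≤ x + w} with hF
  let g : Finset α → ℕ := fun s => ⌊(∑ a ∈ s, d a - x) / L⌋₊
  have hg : ∀ s ∈ F, g s ∈ range (⌊w / L⌋₊ + 1) := by
    intro s hs
    rw [hF, mem_filter] at hs
    rw [mem_range, Nat.lt_succ_iff]
    apply Nat.floor_le_floor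
    apply div_le_div_of_nonneg_right _ hL.le
    linarith [hs.2.2]
  have h1 := Finset.card_eq_sum_card_fiberwise (f := g) (s := F) (t := range (⌊w / L⌋₊ + 1)) hg
  have h2 : ∀ j ∈ range (⌊w / L⌋₊ + 1), #{s ∈ F | g s = j} ≤ I.card.choose (I.card / 2) := by
    intro j _
    refine le_trans (card_le_card ?_) (sperner_window I d L hL hd (x + j * L))
    intro s hs
    rw [mem_filter, hF, mem_filter] at hs
    obtain ⟨⟨hsI, hx1, hx2⟩, hgs⟩ := hs
    rw [mem_filter]
    refine ⟨hsI, ?_⟩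
    have hnn : 0 ≤ (∑ a ∈ s, d a - x) / L := div_nonneg (by linarith) hL.le
    have h3 := Nat.floor_le hnn
    have h4 := Nat.lt_floor_add_one ((∑ a ∈ s, d a - x) / L)
    simp only [g] at hgs
    rw [hgs] at h3 h4
    rw [le_div_iff₀ hL] at h3
    rw [div_lt_iff₀ hL] at h4
    constructor
    · linarith
    · nlinarith
  have h3 : F.card ≤ (⌊w / L⌋₊ + 1) * I.card.choose (I.card / 2) := by
    rw [h1]
    calc _ ≤ ∑ j ∈ range (⌊w / L⌋₊ + 1), I.card.choose (I.card / 2) := Finset.sum_le_sum h2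
      _ = _ := by rw [sum_const, card_range, smul_eq_mul]
  calc (F.card : ℝ) ≤ (((⌊w / L⌋₊ + 1) * I.card.choose (I.card / 2) : ℕ) : ℝ) := by
        exact_mod_cast h3
    _ = ((⌊w / L⌋₊ : ℝ) + 1) * ((I.card.choose (I.card / 2) : ℕ) : ℝ) := by push_cast; ring
    _ ≤ _ := by
        apply mul_le_mul_of_nonneg_right _ (Nat.cast_nonneg _)
        have := Nat.floor_le (div_nonneg hw hL.le)
        linarith

/-- number of subsets of given (real) cardinality -/
theorem card_eq_real_le (I : Finset α) (hI : I.Nonempty) (u : ℝ) :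
    (#{s ∈ I.powerset | (s.card : ℝ) = u} : ℝ) ≤ (I.card.choose (I.card / 2) : ℕ) := by
  classical
  by_cases h : ∃ j : ℕ, (j : ℝ) = u
  · obtain ⟨j, rfl⟩ := h
    have h1 : {s ∈ I.powerset | (s.card : ℝ) = (j : ℝ)} = powersetCard j I := by
      ext s
      simp only [mem_filter, mem_powerset, mem_powersetCard, Nat.cast_inj]
    rw [h1, card_powersetCard]
    exact_mod_cast Nat.choose_le_middle j I.card
  · have h1 : {s ∈ I.powerset | (s.card : ℝ) = u} = ∅ := by
      apply Finset.filter_false_of_mem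
      intro s _ hs
      exact h ⟨s.card, hs⟩
    rw [h1]
    simp

theorem card_eq_real_le_exp (I : Finset α) (hI : I.Nonempty) (u a : ℝ) (ha : 0 ≤ a)
    (hu : a < |u - I.card / 2|) :
    (#{s ∈ I.powerset | (s.card : ℝ) = u} : ℝ) ≤
      2 ^ I.card * Real.exp (-2 * a ^ 2 / I.card) := by
  classical
  by_cases h : ∃ j : ℕ, (j : ℝ) = u ∧ j ≤ I.card
  · obtain ⟨j, rfl, hj⟩ := h
    have h1 : {s ∈ I.powerset | (s.card : ℝ) = (j : ℝ)} = powersetCard j I := by
      ext s
      simp only [mem_filter, mem_powerset, mem_powersetCard, Nat.cast_inj]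
    rw [h1, card_powersetCard]
    refine (choose_le_exp I.card j hI.card_pos hj).trans ?_
    apply mul_le_mul_of_nonneg_left _ (by positivity)
    apply Real.exp_le_exp.2
    have hpos : (0 : ℝ) < I.card := by exact_mod_cast hI.card_pos
    apply div_le_div_of_nonneg_right _ hpos.le
    have h2 : a ^ 2 ≤ ((j : ℝ) - I.card / 2) ^ 2 := by
      rw [← sq_abs ((j : ℝ) - I.card / 2)]
      exact pow_le_pow_left₀ ha hu.le 2
    linarith
  · have h1 : {s ∈ I.powerset | (s.card : ℝ) = u} = ∅ := by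
      apply Finset.filter_false_of_mem
      intro s hs hs'
      rw [mem_powerset] at hs
      exact h ⟨s.card, hs', card_le_card hs⟩
    rw [h1]
    simp only [card_empty, Nat.cast_zero]
    positivity

/-- The two-scale anti-concentration bound. -/
theorem lo_main (S I0 I1 : Finset α) (h0 : I0 ⊆ S) (h1 : I1 ⊆ S) (hdis : Disjoint I0 I1)
    (d : α → ℝ) (hd0 : ∀ l ∈ I0, d l = 1) (L : ℝ) (hL : 0 < L) (hd1 : ∀ l ∈ I1, L ≤ d l)
    (hI0 : I0.Nonempty) (hI1 : I1.Nonempty) (a : ℝ) (ha : 0 ≤ a) (t : ℝ) :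
    (#{s ∈ S.powerset | ∑ l ∈ s, d l = t} : ℝ) ≤
      (Real.exp (-2 * a ^ 2 / I0.card) + (2 * a / L + 1) * (1 / √I0.card) * (1 / √I1.card)) *
        2 ^ S.card := by
  classical
  set R := S \ (I0 ∪ I1) with hR
  have hScard : S.card = R.card + I1.card + I0.card := by
    have hsub : I0 ∪ I1 ⊆ S := union_subset h0 h1
    rw [hR, card_sdiff_of_subset hsub, card_union_of_disjoint hdis]
    have := card_le_card hsub
    rw [card_union_of_disjoint hdis] at this
    omega
  -- step 1 : injection into the product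
  have step1 : #{s ∈ S.powerset | ∑ l ∈ s, d l = t} ≤
      #{q ∈ (R.powerset ×ˢ I1.powerset) ×ˢ I0.powerset |
        (q.2.card : ℝ) = t - ∑ l ∈ q.1.1, d l - ∑ l ∈ q.1.2, d l} := by
    apply card_le_card_of_injOn (fun s => ((s ∩ R, s ∩ I1), s ∩ I0))
    · intro s hs
      have hs' : s ∈ {s ∈ S.powerset | ∑ l ∈ s, d l = t} := by exact_mod_cast hs
      rw [mem_filter, mem_powerset] at hs'
      obtain ⟨hsS, hsum⟩ := hs'
      simp only [coe_filter, mem_product, mem_powerset, Set.mem_setOf_eq]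
      refine ⟨⟨⟨inter_subset_right, inter_subset_right⟩, inter_subset_right⟩, ?_⟩
      have e1 : ∑ l ∈ s ∩ I0, d l = ((s ∩ I0).card : ℝ) := by
        rw [Finset.sum_congr rfl (fun l hl => hd0 l (mem_of_mem_inter_right hl))]
        simp
      have e2 : s = (s ∩ R) ∪ ((s ∩ I1) ∪ (s ∩ I0)) := by
        ext x
        simp only [mem_union, mem_inter, hR, mem_sdiff]
        constructor
        · intro hx
          have := hsS hx
          tauto
        · tauto
      have d1 : Disjoint (s ∩ I1) (s ∩ I0) :=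
        (hdis.symm).mono inter_subset_right inter_subset_right
      have d2 : Disjoint (s ∩ R) ((s ∩ I1) ∪ (s ∩ I0)) := by
        rw [Finset.disjoint_left]
        intro x hx hx'
        simp only [mem_union, mem_inter, hR, mem_sdiff] at hx hx'
        tauto
      have e3 : ∑ l ∈ s, d l = ∑ l ∈ s ∩ R, d l + (∑ l ∈ s ∩ I1, d l + ∑ l ∈ s ∩ I0, d l) := by
        conv_lhs => rw [e2]
        rw [Finset.sum_union d2, Finset.sum_union d1]
      rw [e1] at e3
      linarith
    · intro s hs s' hs' hss'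
      have hsS : s ⊆ S := by
        have : s ∈ {s ∈ S.powerset | ∑ l ∈ s, d l = t} := by exact_mod_cast hs
        rw [mem_filter, mem_powerset] at this
        exact this.1
      have hsS' : s' ⊆ S := by
        have : s' ∈ {s ∈ S.powerset | ∑ l ∈ s, d l = t} := by exact_mod_cast hs'
        rw [mem_filter, mem_powerset] at this
        exact this.1
      simp only [Prod.mk.injEq] at hss'
      obtain ⟨⟨e1, e2⟩, e3⟩ := hss'
      ext x
      have f1 := Finset.ext_iff.1 e1 x
      have f2 := Finset.ext_iff.1 e2 x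
      have f3 := Finset.ext_iff.1 e3 x
      simp only [mem_inter, hR, mem_sdiff, mem_union] at f1 f2 f3
      constructor
      · intro hx
        have := hsS hx
        tauto
      · intro hx
        have := hsS' hx
        tauto
  -- step 2 : product count
  have step2 : #{q ∈ (R.powerset ×ˢ I1.powerset) ×ˢ I0.powerset |
        (q.2.card : ℝ) = t - ∑ l ∈ q.1.1, d l - ∑ l ∈ q.1.2, d l} =
      ∑ r ∈ R.powerset, ∑ s1 ∈ I1.powerset,
        #{s0 ∈ I0.powerset | (s0.card : ℝ) = t - ∑ l ∈ r, d l - ∑ l ∈ s1, d l} := by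
    rw [Finset.card_filter, Finset.sum_product, Finset.sum_product]
    apply Finset.sum_congr rfl
    intro r _
    apply Finset.sum_congr rfl
    intro s1 _
    rw [Finset.card_filter]
  set c0 : ℝ := ((I0.card.choose (I0.card / 2) : ℕ) : ℝ) with hc0
  set c1 : ℝ := ((I1.card.choose (I1.card / 2) : ℕ) : ℝ) with hc1
  have hI0pos : (0 : ℝ) < I0.card := by exact_mod_cast hI0.card_pos
  have hI1pos : (0 : ℝ) < I1.card := by exact_mod_cast hI1.card_pos
  have step3 : ∀ r ∈ R.powerset, (∑ s1 ∈ I1.powerset,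
        (#{s0 ∈ I0.powerset | (s0.card : ℝ) = t - ∑ l ∈ r, d l - ∑ l ∈ s1, d l} : ℝ)) ≤
      2 ^ I1.card * (2 ^ I0.card * Real.exp (-2 * a ^ 2 / I0.card)) +
        (2 * a / L + 1) * c1 * c0 := by
    intro r _
    set t' := t - ∑ l ∈ r, d l with ht'
    rw [← Finset.sum_filter_add_sum_filter_not I1.powerset
      (fun s1 => a < |(t' - ∑ l ∈ s1, d l) - I0.card / 2|)]
    apply add_le_add
    · calc _ ≤ ∑ s1 ∈ I1.powerset with a < |(t' - ∑ l ∈ s1, d l) - I0.card / 2|,
            2 ^ I0.card * Real.exp (-2 * a ^ 2 / I0.card) := by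
            apply Finset.sum_le_sum
            intro s1 hs1
            rw [mem_filter] at hs1
            exact card_eq_real_le_exp I0 hI0 _ a ha hs1.2
        _ ≤ ∑ s1 ∈ I1.powerset, 2 ^ I0.card * Real.exp (-2 * a ^ 2 / I0.card) := by
            apply Finset.sum_le_sum_of_subset_of_nonneg (filter_subset _ _)
            intro _ _ _
            positivity
        _ = _ := by rw [sum_const, card_powerset, nsmul_eq_mul]; push_cast; ring
    · calc _ ≤ ∑ s1 ∈ I1.powerset with ¬ a < |(t' - ∑ l ∈ s1, d l) - I0.card / 2|, c0 := by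
            apply Finset.sum_le_sum
            intro s1 _
            exact card_eq_real_le I0 hI0 _
        _ = (#{s1 ∈ I1.powerset | ¬ a < |(t' - ∑ l ∈ s1, d l) - I0.card / 2|} : ℝ) * c0 := by
            rw [sum_const, nsmul_eq_mul]
        _ ≤ ((2 * a / L + 1) * c1) * c0 := by
            apply mul_le_mul_of_nonneg_right _ (by positivity)
            have := sperner_interval I1 d L hL hd1 (t' - I0.card / 2 - a) (2 * a) (by linarith)
            refine le_trans ?_ this
            have hsub : {s1 ∈ I1.powerset | ¬ a < |(t' - ∑ l ∈ s1, d l) - I0.card / 2|} ⊆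
                {s ∈ I1.powerset | t' - I0.card / 2 - a ≤ ∑ a ∈ s, d a ∧
                  ∑ a ∈ s, d a ≤ t' - I0.card / 2 - a + 2 * a} := by
              intro s1 hs1
              rw [mem_filter, not_lt, abs_le] at hs1
              rw [mem_filter]
              refine ⟨hs1.1, ?_, ?_⟩ <;> linarith [hs1.2.1, hs1.2.2]
            exact_mod_cast card_le_card hsub
  have step4 : (#{s ∈ S.powerset | ∑ l ∈ s, d l = t} : ℝ) ≤
      2 ^ R.card * (2 ^ I1.card * (2 ^ I0.card * Real.exp (-2 * a ^ 2 / I0.card)) +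
        (2 * a / L + 1) * c1 * c0) := by
    calc (#{s ∈ S.powerset | ∑ l ∈ s, d l = t} : ℝ) ≤
        ((∑ r ∈ R.powerset, ∑ s1 ∈ I1.powerset,
        #{s0 ∈ I0.powerset | (s0.card : ℝ) = t - ∑ l ∈ r, d l - ∑ l ∈ s1, d l} : ℕ) : ℝ) := by
          rw [← step2]; exact_mod_cast step1
      _ = ∑ r ∈ R.powerset, ∑ s1 ∈ I1.powerset,
        (#{s0 ∈ I0.powerset | (s0.card : ℝ) = t - ∑ l ∈ r, d l - ∑ l ∈ s1, d l} : ℝ) := by
          push_cast; rfl
      _ ≤ ∑ r ∈ R.powerset, (2 ^ I1.card * (2 ^ I0.card * Real.exp (-2 * a ^ 2 / I0.card)) +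
        (2 * a / L + 1) * c1 * c0) := Finset.sum_le_sum step3
      _ = _ := by rw [sum_const, card_powerset, nsmul_eq_mul]; push_cast; ring
  have hs0 : (0 : ℝ) < √I0.card := Real.sqrt_pos.2 hI0pos
  have hs1 : (0 : ℝ) < √I1.card := Real.sqrt_pos.2 hI1pos
  have b0 : c0 ≤ 2 ^ I0.card * (1 / √I0.card) := by
    rw [mul_one_div, le_div_iff₀ hs0]
    exact choose_half_le _ hI0.card_pos
  have b1 : c1 ≤ 2 ^ I1.card * (1 / √I1.card) := by
    rw [mul_one_div, le_div_iff₀ hs1]
    exact choose_half_le _ hI1.card_pos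
  have hw : 0 ≤ 2 * a / L + 1 := by positivity
  refine step4.trans ?_
  calc 2 ^ R.card * (2 ^ I1.card * (2 ^ I0.card * Real.exp (-2 * a ^ 2 / I0.card)) +
        (2 * a / L + 1) * c1 * c0)
      ≤ 2 ^ R.card * (2 ^ I1.card * (2 ^ I0.card * Real.exp (-2 * a ^ 2 / I0.card)) +
        (2 * a / L + 1) * (2 ^ I1.card * (1 / √I1.card)) * (2 ^ I0.card * (1 / √I0.card))) := by
        apply mul_le_mul_of_nonneg_left _ (by positivity)
        apply add_le_add le_rfl
        apply mul_le_mul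
        · exact mul_le_mul_of_nonneg_left b1 hw
        · exact b0
        · positivity
        · positivity
    _ = _ := by
        rw [hScard, pow_add, pow_add]
        ring

end sperner

end Pool.Agent.LibMP916a8b
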