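import Pool.Agent.LibMP916a8b.Basic

/-!
Counting partitions with `n - m + 1` blocks: those with a block of size `m` and the others.
-/

namespace Pool.Agent.LibMP916a8b

open Finset

set_option linter.unusedVariables false

open Classical in
/-- Number of partitions into exactly `i` blocks, all of whose codes are in `Q`. -/
noncomputable def hcount (Q : ∀ m : ℕ, SimpleGraph (Fin m) → Prop) {n : ℕ}
    (G : SimpleGraph (Fin n)) (i : ℕ) : ℕ :=
  #{π : Finpartition (univ : Finset (Fin n)) | π.parts.card = i ∧
    ∀ B ∈ π.parts, Q B.card (code B.card G B)}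

open Classical in
/-- Number of `m`-subsets whose code is in `Q`. -/
noncomputable def acount (Q : ∀ m : ℕ, SimpleGraph (Fin m) → Prop) {n : ℕ}
    (G : SimpleGraph (Fin n)) (m : ℕ) : ℕ :=
  #{A ∈ powersetCard m (univ : Finset (Fin n)) | Q m (code m G A)}

open Classical in
/-- Number of partitions into `n - m + 1` blocks, all of size less than `m`. -/
noncomputable def rest (Q : ∀ m : ℕ, SimpleGraph (Fin m) → Prop) {n : ℕ}
    (G : SimpleGraph (Fin n)) (m : ℕ) : ℕ :=
  #{π : Finpartition (univ : Finset (Fin n)) | π.parts.card = n - m + 1 ∧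
    (∀ B ∈ π.parts, B.card < m) ∧ ∀ B ∈ π.parts, Q B.card (code B.card G B)}

/-- The partition with the block `A` and singletons. -/
def mkPart {n : ℕ} (A : Finset (Fin n)) (hA : A.Nonempty) :
    Finpartition (univ : Finset (Fin n)) :=
  (⊥ : Finpartition (univ \ A)).extend (b := A) (c := univ) (by simpa using hA.ne_empty)
    (by exact Finset.sdiff_disjoint) (by simp)

theorem mem_mkPart {n : ℕ} (A : Finset (Fin n)) (hA : A.Nonempty) (B : Finset (Fin n)) :
    B ∈ (mkPart A hA).parts ↔ B = A ∨ ∃ x, x ∉ A ∧ B = {x} := by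
  unfold mkPart
  simp only [Finpartition.extend_parts, Finpartition.parts_bot, mem_insert, mem_map, mem_sdiff,
    mem_univ, true_and, Function.Embedding.coeFn_mk]
  constructor
  · rintro (h | ⟨x, hx, h⟩)
    · exact Or.inl h
    · exact Or.inr ⟨x, hx, h.symm⟩
  · rintro (h | ⟨x, hx, h⟩)
    · exact Or.inl h
    · exact Or.inr ⟨x, hx, h.symm⟩

theorem card_mkPart {n m : ℕ} (A : Finset (Fin n)) (hA : A.Nonempty) (hm : A.card = m)
    (h2 : 2 ≤ m) : (mkPart A hA).parts.card = n - m + 1 := by
  unfold mkPart
  rw [Finpartition.extend_parts, card_insert_of_notMem, Finpartition.parts_bot, card_map,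
    card_univ_diff, Fintype.card_fin, hm]
  rw [Finpartition.parts_bot]
  simp only [mem_map, mem_sdiff, mem_univ, true_and, Function.Embedding.coeFn_mk, not_exists,
    not_and]
  intro x _ h
  have := congrArg Finset.card h
  rw [card_singleton] at this
  omega

theorem card_parts_add_le {n : ℕ} (π : Finpartition (univ : Finset (Fin n)))
    {B : Finset (Fin n)} (hB : B ∈ π.parts) : B.card + (π.parts.card - 1) ≤ n := by
  have h := π.sum_card_parts
  rw [card_univ, Fintype.card_fin] at h
  rw [← Finset.add_sum_erase _ _ hB] at h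
  have h2 : (π.parts.erase B).card ≤ ∑ x ∈ π.parts.erase B, x.card := by
    rw [card_eq_sum_ones]
    apply sum_le_sum
    intro C hC
    exact (π.nonempty_of_mem_parts (mem_of_mem_erase hC)).card_pos
  rw [card_erase_of_mem hB] at h2
  omega

theorem card_other {n : ℕ} (π : Finpartition (univ : Finset (Fin n)))
    {B C : Finset (Fin n)} (hB : B ∈ π.parts) (hC : C ∈ π.parts) (hne : C ≠ B)
    (hn : n ≤ B.card + (π.parts.card - 1)) : C.card = 1 := by
  have h := π.sum_card_parts
  rw [card_univ, Fintype.card_fin] at h
  rw [← Finset.add_sum_erase _ _ hB] at h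
  have hC' : C ∈ π.parts.erase B := mem_erase.2 ⟨hne, hC⟩
  rw [← Finset.add_sum_erase _ _ hC'] at h
  have h2 : ((π.parts.erase B).erase C).card ≤ ∑ x ∈ (π.parts.erase B).erase C, x.card := by
    rw [card_eq_sum_ones]
    apply sum_le_sum
    intro D hD
    exact (π.nonempty_of_mem_parts (mem_of_mem_erase (mem_of_mem_erase hD))).card_pos
  rw [card_erase_of_mem hC', card_erase_of_mem hB] at h2
  have h3 : 0 < C.card := (π.nonempty_of_mem_parts hC).card_pos
  have h4 : 2 ≤ π.parts.card := by
    have : ({B, C} : Finset (Finset (Fin n))) ⊆ π.parts := by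
      intro x hx
      simp only [mem_insert, mem_singleton] at hx
      rcases hx with rfl | rfl
      · exact hB
      · exact hC
    have h5 := card_le_card this
    rwa [card_pair (Ne.symm hne)] at h5
  omega

theorem hcount_eq {Q : ∀ m : ℕ, SimpleGraph (Fin m) → Prop} (hQ : ∀ F, Q 1 F) {n m : ℕ}
    (G : SimpleGraph (Fin n)) (h2 : 2 ≤ m) (hmn : m ≤ n) :
    hcount Q G (n - m + 1) = acount Q G m + rest Q G m := by
  classical
  unfold hcount acount rest
  rw [← Finset.card_filter_add_card_filter_not (s := {π : Finpartition (univ : Finset (Fin n)) |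
    π.parts.card = n - m + 1 ∧ ∀ B ∈ π.parts, Q B.card (code B.card G B)})
    (p := fun π => ∃ B ∈ π.parts, B.card = m)]
  congr 1
  · symm
    apply Finset.card_bij (fun (A : Finset (Fin n)) hA => mkPart A (by
      rw [mem_filter, mem_powersetCard] at hA
      rw [← Finset.card_pos]; omega))
    · intro A hA
      rw [mem_filter, mem_powersetCard] at hA
      obtain ⟨⟨_, hAm⟩, hQA⟩ := hA
      simp only [mem_filter, mem_univ, true_and]
      refine ⟨⟨card_mkPart A _ hAm h2, ?_⟩, A, (mem_mkPart A _ A).2 (Or.inl rfl), hAm⟩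
      intro B hB
      rw [mem_mkPart] at hB
      rcases hB with rfl | ⟨x, _, rfl⟩
      · subst hAm; exact hQA
      · exact hQ _
    · intro A hA A' hA' hAA'
      rw [mem_filter, mem_powersetCard] at hA hA'
      have h1 : A ∈ (mkPart A' (by rw [← Finset.card_pos]; omega)).parts := by
        rw [← hAA', mem_mkPart]; exact Or.inl rfl
      rw [mem_mkPart] at h1
      rcases h1 with h1 | ⟨x, _, h1⟩
      · exact h1
      · have := congrArg Finset.card h1
        rw [card_singleton] at this
        omega
    · intro π hπ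
      simp only [mem_filter, mem_univ, true_and] at hπ
      obtain ⟨⟨hc, hQπ⟩, A, hA, hAm⟩ := hπ
      have hne : A.Nonempty := π.nonempty_of_mem_parts hA
      refine ⟨A, ?_, ?_⟩
      · rw [mem_filter, mem_powersetCard]
        refine ⟨⟨subset_univ _, hAm⟩, ?_⟩
        have := hQπ A hA
        subst hAm; exact this
      · apply Finpartition.ext
        ext B
        rw [mem_mkPart]
        have hother : ∀ C ∈ π.parts, C ≠ A → C.card = 1 := by
          intro C hC hCA
          exact card_other π hA hC hCA (by omega)
        constructor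
        · rintro (rfl | ⟨x, hx, rfl⟩)
          · exact hA
          · obtain ⟨C, hC, hxC⟩ := π.exists_mem (mem_univ x)
            have hCA : C ≠ A := by rintro rfl; exact hx hxC
            have hC1 := hother C hC hCA
            obtain ⟨y, hy⟩ := Finset.card_eq_one.1 hC1
            rw [hy, mem_singleton] at hxC
            rw [hxC, ← hy]; exact hC
        · intro hB
          by_cases hBA : B = A
          · exact Or.inl hBA
          · right
            have hB1 := hother B hB hBA
            obtain ⟨y, hy⟩ := Finset.card_eq_one.1 hB1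
            refine ⟨y, ?_, hy⟩
            intro hyA
            have hdis := π.disjoint hB hA hBA
            rw [Function.onFun, id, id, Finset.disjoint_left] at hdis
            exact hdis (by rw [hy]; exact mem_singleton_self y) hyA
  · congr 1
    ext π
    simp only [mem_filter, mem_univ, true_and, not_exists, not_and]
    constructor
    · rintro ⟨⟨hc, hQπ⟩, hno⟩
      refine ⟨hc, ?_, hQπ⟩
      intro B hB
      have h1 := card_parts_add_le π hB
      have h3 := hno B hB
      omega
    · rintro ⟨hc, hlt, hQπ⟩
      refine ⟨⟨hc, hQπ⟩, ?_⟩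
      intro B hB
      have := hlt B hB
      omega

/-- `rest` depends only on the levels below `m`. -/
theorem rest_congr {Q Q' : ∀ m : ℕ, SimpleGraph (Fin m) → Prop} {n m : ℕ}
    (G : SimpleGraph (Fin n)) (h : ∀ j < m, ∀ F, Q j F ↔ Q' j F) : rest Q G m = rest Q' G m := by
  classical
  unfold rest
  congr 1
  ext π
  simp only [mem_filter, mem_univ, true_and]
  constructor
  · rintro ⟨hc, hlt, hQ⟩
    exact ⟨hc, hlt, fun B hB => (h _ (hlt B hB) _).1 (hQ B hB)⟩
  · rintro ⟨hc, hlt, hQ⟩
    exact ⟨hc, hlt, fun B hB => (h _ (hlt B hB) _).2 (hQ B hB)⟩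

theorem acount_congr {Q Q' : ∀ m : ℕ, SimpleGraph (Fin m) → Prop} {n m : ℕ}
    (G : SimpleGraph (Fin n)) (h : ∀ F, Q m F ↔ Q' m F) : acount Q G m = acount Q' G m := by
  classical
  unfold acount
  congr 1
  ext A
  simp only [mem_filter, h]

end Pool.Agent.LibMP916a8b
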