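import Pool.Agent.LibMP916a8b.Pair2
import Pool.Agent.LibMP916a8b.Partition

/-!
The probability that two fixed non-isomorphic graphs have equal partition counts.
-/

namespace Pool.Agent.LibMP916a8b

open Finset

set_option linter.unusedVariables false

section

variable {Nmax : ℕ} (cs : ∀ m : ℕ, SimpleGraph (Fin m) → Bool × Finset (Fin m))

/-- choices at level `m` -/
abbrev Bt (m : ℕ) : Type := {s : Finset Lab // s ∈ (labSet (cs m)).powerset}

/-- The property determined by a choice of label sets. -/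
def Qof (β : ∀ m : Fin (Nmax + 1), Bt cs m) : ∀ j : ℕ, SimpleGraph (Fin j) → Prop :=
  fun j F => j ≤ 1 ∨ ∃ h : j < Nmax + 1, labelOf (cs j) F ∈ (β ⟨j, h⟩).1

theorem acount_Qof (β : ∀ m : Fin (Nmax + 1), Bt cs m) {n : ℕ} (G : SimpleGraph (Fin n))
    (m : Fin (Nmax + 1)) (hm : 2 ≤ (m : ℕ)) :
    acount (Qof cs β) G m = ∑ l ∈ (β m).1, nlab (cs m) G l := by
  classical
  unfold acount nlab
  have h := Finset.card_eq_sum_card_fiberwise (f := fun A => labelOf (cs m) (code m G A))
    (s := {A ∈ powersetCard (m : ℕ) (univ : Finset (Fin n)) | Qof cs β m (code m G A)})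
    (t := (β m).1) (by
      intro A hA
      have hA' : A ∈ ({A ∈ powersetCard (m : ℕ) (univ : Finset (Fin n)) |
        Qof cs β m (code m G A)} : Finset _) := by exact_mod_cast hA
      rw [mem_filter] at hA'
      rcases hA'.2 with h | ⟨h, h'⟩
      · omega
      · exact_mod_cast h')
  rw [h]
  apply Finset.sum_congr rfl
  intro l hl
  congr 1
  ext A
  simp only [mem_filter]
  constructor
  · rintro ⟨⟨h1, _⟩, h2⟩
    exact ⟨h1, h2⟩
  · rintro ⟨h1, h2⟩
    refine ⟨⟨h1, Or.inr ⟨m.2, ?_⟩⟩, h2⟩
    rw [h2]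
    exact hl

open Classical in
theorem level_bound {n : ℕ} (hn0 : 100 ≤ n) (hn : 2 * (s0 n + 2) ≤ n)
    {m : Fin (Nmax + 1)} (hm : (m : ℕ) ∈ Mset n) {G H : SimpleGraph (Fin n)}
    (hG : Typical G) (hc : CoreGood (cs m) G) (hGH : ¬ Nonempty (G ≃g H))
    (β : ∀ m : Fin (Nmax + 1), Bt cs m) :
    (#{x : Bt cs m | hcount (Qof cs (Function.update β m x)) G (n - m + 1) =
      hcount (Qof cs (Function.update β m x)) H (n - m + 1)} : ℝ) ≤
      Bm n m * Fintype.card (Bt cs m) := by
  have hm2 := mem_Mset_two hm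
  have hmn := mem_Mset_le hm
  have hcard : (Fintype.card (Bt cs m) : ℝ) = 2 ^ (labSet (cs m)).card := by
    rw [Fintype.card_coe, card_powerset]; push_cast; rfl
  rw [hcard]
  set t : ℝ := (rest (Qof cs β) H m : ℝ) - rest (Qof cs β) G m with ht
  refine le_trans ?_ (pair_bound hn0 hn hm hG hc hGH t)
  have hQ1 : ∀ (β : ∀ m : Fin (Nmax + 1), Bt cs m) F, Qof cs β 1 F := fun β F => Or.inl le_rfl
  have : #{x : Bt cs m | hcount (Qof cs (Function.update β m x)) G (n - m + 1) =
      hcount (Qof cs (Function.update β m x)) H (n - m + 1)} ≤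
      #{s ∈ (labSet (cs m)).powerset | ∑ l ∈ s, dlab (cs m) G H l = t} := by
    apply card_le_card_of_injOn (fun x => x.1)
    · intro x hx
      have hx' : x ∈ ({x : Bt cs m | hcount (Qof cs (Function.update β m x)) G (n - m + 1) =
        hcount (Qof cs (Function.update β m x)) H (n - m + 1)} : Finset _) := by
        exact_mod_cast hx
      rw [mem_filter] at hx'
      have h1 := hx'.2
      rw [hcount_eq (hQ1 _) G hm2 hmn, hcount_eq (hQ1 _) H hm2 hmn] at h1
      have hrest : ∀ K : SimpleGraph (Fin n), rest (Qof cs (Function.update β m x)) K m =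
          rest (Qof cs β) K m := by
        intro K
        apply rest_congr
        intro j hj F
        unfold Qof
        apply or_congr Iff.rfl
        apply exists_congr
        intro hj'
        rw [Function.update_of_ne]
        intro heq
        have := congrArg Fin.val heq
        simp only at this
        omega
      rw [hrest G, hrest H, acount_Qof cs _ G m hm2, acount_Qof cs _ H m hm2,
        Function.update_self] at h1
      have h2 : x.1 ∈ ({s ∈ (labSet (cs m)).powerset | ∑ l ∈ s, dlab (cs m) G H l = t} :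
        Finset _) := by
        rw [mem_filter]
        refine ⟨x.2, ?_⟩
        unfold dlab
        rw [Finset.sum_sub_distrib, ht]
        have h3 : ((∑ l ∈ x.1, nlab (cs m) G l : ℕ) : ℝ) + rest (Qof cs β) G m =
            ((∑ l ∈ x.1, nlab (cs m) H l : ℕ) : ℝ) + rest (Qof cs β) H m := by
          exact_mod_cast h1
        push_cast at h3
        linarith
      exact_mod_cast h2
    · intro x _ y _ h
      exact Subtype.ext h
  exact_mod_cast this

open Classical in
/-- The probability that all the relevant partition counts of `G` and `H` agree. -/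
theorem pair_prob {n : ℕ} (hn0 : 100 ≤ n) (hn : 2 * (s0 n + 2) ≤ n) (hnN : n ≤ Nmax)
    {G H : SimpleGraph (Fin n)} (hG : Typical G) (hc : ∀ m ∈ Mset n, CoreGood (cs m) G)
    (hGH : ¬ Nonempty (G ≃g H)) :
    (#{β : (∀ m : Fin (Nmax + 1), Bt cs m) | ∀ i, hcount (Qof cs β) G i =
      hcount (Qof cs β) H i} : ℝ) ≤
      (∏ m ∈ Mset n, Bm n m) * Fintype.card (∀ m : Fin (Nmax + 1), Bt cs m) := by
  haveI : ∀ m : Fin (Nmax + 1), Nonempty (Bt cs m) := fun m => ⟨⟨∅, by simp⟩⟩
  set M : Finset (Fin (Nmax + 1)) := univ.filter (fun m => (m : ℕ) ∈ Mset n) with hM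
  obtain ⟨E, hE⟩ : ∃ E : Fin (Nmax + 1) → (∀ m : Fin (Nmax + 1), Bt cs m) → Prop,
      ∀ m β, E m β ↔
        hcount (Qof cs β) G (n - m + 1) = hcount (Qof cs β) H (n - m + 1) :=
    ⟨_, fun _ _ => Iff.rfl⟩
  have hMmem : ∀ m ∈ M, (m : ℕ) ∈ Mset n := fun m hm => (mem_filter.1 hm).2
  have hlev := level_lemma (B := fun m : Fin (Nmax + 1) => Bt cs m) M E (fun m => Bm n m)
    (fun m _ => by unfold Bm; positivity)
    (by
      intro m hm β β' hββ'
      have hQ : ∀ j ≤ (m : ℕ), ∀ F, Qof cs β j F ↔ Qof cs β' j F := by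
        intro j hj F
        unfold Qof
        apply or_congr Iff.rfl
        apply exists_congr
        intro hj'
        rw [hββ' ⟨j, hj'⟩ (by exact_mod_cast hj)]
      have hm2 := mem_Mset_two (hMmem m hm)
      have hmn := mem_Mset_le (hMmem m hm)
      have hcongr : ∀ K : SimpleGraph (Fin n), hcount (Qof cs β) K (n - m + 1) =
          hcount (Qof cs β') K (n - m + 1) := by
        intro K
        rw [hcount_eq (fun F => Or.inl le_rfl) K hm2 hmn,
          hcount_eq (fun F => Or.inl le_rfl) K hm2 hmn,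
          acount_congr K (hQ m le_rfl), rest_congr K (fun j hj => hQ j hj.le)]
      rw [hE, hE, hcongr G, hcongr H])
    (by
      intro m hm β
      have h := level_bound cs hn0 hn (hMmem m hm) hG (hc m (hMmem m hm)) hGH β
      have h2 : #{x : Bt cs m | E m (Function.update β m x)} =
          #{x : Bt cs m | hcount (Qof cs (Function.update β m x)) G (n - m + 1) =
            hcount (Qof cs (Function.update β m x)) H (n - m + 1)} := by
        congr 1
        ext x
        simp only [mem_filter, mem_univ, true_and, hE]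
      rw [h2]
      exact h)
  have hprod : ∏ m ∈ M, Bm n m = ∏ m ∈ Mset n, Bm n m := by
    apply Finset.prod_bij (fun (m : Fin (Nmax + 1)) _ => (m : ℕ))
    · intro m hm; exact hMmem m hm
    · intro m _ m' _ h; exact Fin.ext h
    · intro m hm
      have := mem_Mset_le hm
      refine ⟨⟨m, by omega⟩, ?_, rfl⟩
      rw [hM, mem_filter]
      exact ⟨mem_univ _, hm⟩
    · intro m _; rfl
  rw [hprod] at hlev
  refine le_trans ?_ hlev
  apply Nat.cast_le.2
  apply Finset.card_le_card
  intro β hβ
  have hβ2 := (Finset.mem_filter.1 hβ).2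
  exact (@Finset.mem_filter _ _ (_) _ _).2 ⟨mem_univ _, fun m _ => (hE _ _).2 (hβ2 _)⟩

end

end Pool.Agent.LibMP916a8b
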