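import Pool.Agent.LibMP916a8b.Assembly

/-!
Compactness: a single property for all `n`.
-/

namespace Pool.Agent.LibMP916a8b

open Finset Filter

set_option linter.unusedVariables false

theorem hcount_congr {Q Q' : ∀ m : ℕ, SimpleGraph (Fin m) → Prop} {n : ℕ}
    (h : ∀ j ≤ n, ∀ F, Q j F ↔ Q' j F) (G : SimpleGraph (Fin n)) (i : ℕ) :
    hcount Q G i = hcount Q' G i := by
  classical
  unfold hcount
  congr 1
  ext π
  simp only [mem_filter, mem_univ, true_and]
  have hB : ∀ B : Finset (Fin n), B.card ≤ n := by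
    intro B
    have := card_le_univ B
    rwa [Fintype.card_fin] at this
  constructor
  · rintro ⟨hc, hQ⟩
    exact ⟨hc, fun B hB' => (h _ (hB B) _).1 (hQ B hB')⟩
  · rintro ⟨hc, hQ⟩
    exact ⟨hc, fun B hB' => (h _ (hB B) _).2 (hQ B hB')⟩

theorem NU_congr {Q Q' : ∀ m : ℕ, SimpleGraph (Fin m) → Prop} {n : ℕ}
    (h : ∀ j ≤ n, ∀ F, Q j F ↔ Q' j F) (G : SimpleGraph (Fin n)) :
    NU Q G ↔ NU Q' G := by
  unfold NU
  simp only [hcount_congr h]

open Classical in
/-- There is a single property which works for all `n`. -/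
theorem exists_property : ∃ Q : ∀ m : ℕ, SimpleGraph (Fin m) → Prop,
    (∀ F, Q 1 F) ∧ ∀ n, n0 ≤ n →
      n * #{G : SimpleGraph (Fin n) | NU Q G} ≤ 3 * 2 ^ (n.choose 2) := by
  choose QN hQ1 hQ2 using exists_finite
  let U : Ultrafilter ℕ := hyperfilter ℕ
  let Q : ∀ m : ℕ, SimpleGraph (Fin m) → Prop := fun m F => ∀ᶠ N in (U : Filter ℕ), QN N m F
  refine ⟨Q, ?_, ?_⟩
  · intro F
    exact Filter.Eventually.of_forall (fun N => hQ1 N F)
  · intro n hn
    have hpt : ∀ j : ℕ, ∀ F : SimpleGraph (Fin j),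
        ∀ᶠ N in (U : Filter ℕ), (Q j F ↔ QN N j F) := by
      intro j F
      by_cases h : Q j F
      · have h' : ∀ᶠ N in (U : Filter ℕ), QN N j F := h
        filter_upwards [h'] with N hN
        exact ⟨fun _ => hN, fun _ => h⟩
      · have h' : ∀ᶠ N in (U : Filter ℕ), ¬ QN N j F := Ultrafilter.eventually_not.2 h
        filter_upwards [h'] with N hN
        exact ⟨fun hq => absurd hq h, fun hq => absurd hq hN⟩
    have hall : ∀ᶠ N in (U : Filter ℕ), ∀ j ∈ range (n + 1), ∀ F : SimpleGraph (Fin j),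
        (Q j F ↔ QN N j F) := by
      rw [eventually_all_finset]
      intro j _
      rw [eventually_all]
      intro F
      exact hpt j F
    have hge : ∀ᶠ N in (U : Filter ℕ), n ≤ N := by
      have h1 : ∀ᶠ N in (cofinite : Filter ℕ), n ≤ N := by
        rw [Nat.cofinite_eq_atTop]
        exact eventually_ge_atTop n
      exact h1.filter_mono (hyperfilter_le_cofinite)
    obtain ⟨N, hN1, hN2⟩ := (hall.and hge).exists
    have hcongr : ∀ j ≤ n, ∀ F, Q j F ↔ QN N j F := by
      intro j hj F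
      exact hN1 j (mem_range.2 (by omega)) F
    have h2 := hQ2 N n hn hN2
    have h3 : #{G : SimpleGraph (Fin n) | NU Q G} =
        #{G : SimpleGraph (Fin n) | NU (QN N) G} := by
      congr 1
      ext G
      simp only [mem_filter, mem_univ, true_and]
      exact NU_congr hcongr G
    rw [h3]
    exact h2

end Pool.Agent.LibMP916a8b
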