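import Pool.Agent.LibMP916a8b.Core2
import Pool.Agent.LibMP916a8b.LO

/-!
The anti-concentration bound for a pair of non-isomorphic graphs at one level.
-/

namespace Pool.Agent.LibMP916a8b

open Finset

set_option linter.unusedVariables false

/-- Labels. -/
abbrev Lab : Type := Bool × (Σ k : ℕ, SimpleGraph (Fin k))

/-- The label of a graph on `Fin m`. -/
noncomputable def labelOf {m : ℕ} (c : SimpleGraph (Fin m) → Bool × Finset (Fin m))
    (F : SimpleGraph (Fin m)) : Lab :=
  if (c F).1 = true then (true, ⟨(c F).2.card, code (c F).2.card F (c F).2⟩)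
  else (false, ⟨m, F⟩)

open Classical in
/-- number of `m`-sets with a given label -/
noncomputable def nlab {n m : ℕ} (c : SimpleGraph (Fin m) → Bool × Finset (Fin m))
    (G : SimpleGraph (Fin n)) (l : Lab) : ℕ :=
  #{A ∈ powersetCard m (univ : Finset (Fin n)) | labelOf c (code m G A) = l}

/-- the difference of the numbers of `m`-sets with a given label -/
noncomputable def dlab {n m : ℕ} (c : SimpleGraph (Fin m) → Bool × Finset (Fin m))
    (G H : SimpleGraph (Fin n)) (l : Lab) : ℝ :=
  (nlab c G l : ℝ) - nlab c H l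

open Classical in
/-- the set of all labels at level `m` -/
noncomputable def labSet {m : ℕ} (c : SimpleGraph (Fin m) → Bool × Finset (Fin m)) :
    Finset Lab :=
  (univ : Finset (SimpleGraph (Fin m))).image (labelOf c)

theorem labelOf_true {m : ℕ} {c : SimpleGraph (Fin m) → Bool × Finset (Fin m)}
    {F : SimpleGraph (Fin m)} {D : Finset (Fin m)} (h : c F = (true, D)) :
    labelOf c F = (true, ⟨D.card, code D.card F D⟩) := by
  unfold labelOf
  rw [h]
  simp

theorem labelOf_false {m : ℕ} {c : SimpleGraph (Fin m) → Bool × Finset (Fin m)}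
    {F : SimpleGraph (Fin m)} {D : Finset (Fin m)} (h : c F = (false, D)) :
    labelOf c F = (false, ⟨m, F⟩) := by
  unfold labelOf
  rw [h]
  simp

section

variable {n m k : ℕ} {c : SimpleGraph (Fin m) → Bool × Finset (Fin m)}
  {G H : SimpleGraph (Fin n)}

/-- labels of hit sets of kind `true` -/
theorem label_hit_true {C A : Finset (Fin n)} (hC : C.card = k) (hCA : C ⊆ A)
    (h : Hit c G true C A) : labelOf c (code m G A) = (true, ⟨k, code k G C⟩) := by
  obtain ⟨ψ, hψ, him, hc⟩ := h
  rw [labelOf_true hc]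
  obtain ⟨h1, h2⟩ := preimage_card hψ him hCA
  have h3 := code_eq_of_emb (m := k) (A := univ.filter (fun i => ψ i ∈ C)) (by rw [h2, hC])
    (hψ.mono (subset_univ _))
  rw [h1] at h3
  have h4 : (univ.filter (fun i => ψ i ∈ C)).card = k := by rw [h2, hC]
  rw [h4, h3]

/-- labels of kind `true` are specific -/
theorem embeds_of_label_true {C : Finset (Fin n)} (hn : 0 < n) (hm : 0 < m) (hC : C.card = k)
    {A' : Finset (Fin n)} (hA' : A'.card = m)
    (h : labelOf c (code m H A') = (true, ⟨k, code k G C⟩)) : Embeds G C H := by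
  haveI : Nonempty (Fin m) := ⟨⟨0, hm⟩⟩
  obtain ⟨ψ, hψ, him⟩ := exists_code_emb H hA'
  rcases hcF : c (code m H A') with ⟨b, D⟩
  cases b with
  | false =>
    rw [labelOf_false hcF] at h
    simp at h
  | true =>
    rw [labelOf_true hcF] at h
    simp only [Prod.mk.injEq, true_and] at h
    rw [Sigma.mk.inj_iff] at h
    obtain ⟨h1, h2⟩ := h
    -- `D.card = k`
    have h3 : code k (code m H A') D = code k G C := by
      subst h1
      exact eq_of_heq h2
    obtain ⟨τ, hτ, _⟩ := exists_emb_of_code_eq (n' := m) hC h1 h3.symm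
    exact ⟨ψ ∘ τ, hτ.comp hψ (fun _ _ => mem_univ _)⟩

theorem embeds_of_label_false {A A' : Finset (Fin n)} (hn : 0 < n) (hA : A.card = m)
    (hA' : A'.card = m)
    (h : labelOf c (code m H A') = (false, ⟨m, code m G A⟩)) : Embeds G A H := by
  haveI : Nonempty (Fin n) := ⟨⟨0, hn⟩⟩
  rcases hcF : c (code m H A') with ⟨b, D⟩
  cases b with
  | true =>
    rw [labelOf_true hcF] at h
    simp at h
  | false =>
    rw [labelOf_false hcF] at h
    simp only [Prod.mk.injEq, true_and] at h
    rw [Sigma.mk.inj_iff] at h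
    obtain ⟨τ, hτ, _⟩ := exists_emb_of_code_eq hA hA' (eq_of_heq h.2).symm
    exact ⟨τ, hτ⟩

theorem eq_of_label_false {A A' : Finset (Fin n)} (hn : 0 < n) (hA : A.card = m)
    (hA' : A'.card = m) (hr : Rigid G A)
    (h : labelOf c (code m G A') = (false, ⟨m, code m G A⟩)) : A = A' := by
  rcases hcF : c (code m G A') with ⟨b, D⟩
  cases b with
  | true =>
    rw [labelOf_true hcF] at h
    simp at h
  | false =>
    rw [labelOf_false hcF] at h
    simp only [Prod.mk.injEq, true_and] at h
    rw [Sigma.mk.inj_iff] at h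
    exact code_inj_of_rigid hn hA hA' hr (eq_of_heq h.2).symm

/-- hit sets of two strong sets are different -/
theorem hit_unique {b : Bool} {C C' A : Finset (Fin n)} (hr : Rigid G A)
    (hCA : C ⊆ A) (hCA' : C' ⊆ A) (h : Hit c G b C A) (h' : Hit c G b C' A) (hm : 0 < m)
    (hA : A.card = m) : C = C' := by
  obtain ⟨ψ, hψ, him, hc⟩ := h
  obtain ⟨ψ', hψ', him', hc'⟩ := h'
  haveI : Nonempty (Fin m) := ⟨⟨0, hm⟩⟩
  -- ψ = ψ'
  obtain ⟨σ, hσ, hσ'⟩ := hψ.exists_inv
  rw [him] at hσ
  have hcomp : IsEmb G A G (ψ' ∘ σ) := hσ.comp hψ' (fun _ _ => mem_univ _)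
  have heq : ∀ i, ψ' i = ψ i := by
    intro i
    have h1 : ψ i ∈ A := by rw [← him]; exact mem_image_of_mem _ (mem_univ _)
    have h2 := hr _ hcomp (ψ i) h1
    simp only [Function.comp] at h2
    rw [hσ' i (mem_univ _)] at h2
    exact h2
  have h3 : univ.filter (fun i => ψ i ∈ C) = univ.filter (fun i => ψ' i ∈ C') := by
    have := hc.symm.trans hc'
    simp only [Prod.mk.injEq, true_and] at this
    exact this
  have h4 := (preimage_card hψ him hCA).1
  have h5 := (preimage_card hψ' him' hCA').1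
  rw [← h4, ← h5, h3]
  apply Finset.image_congr
  intro i _
  exact (heq i).symm

open Classical in
/-- Structure of the labels for a typical, core-good graph. -/
theorem exists_label_sets (hn : 0 < n) (hm : 0 < m) (hmn : m ≤ n) (hk : k ≤ m) (hG : Typical G)
    (hc : 32 * n ^ 2 * coreBad c G k ≤ n.choose k) (hGH : ¬ Nonempty (G ≃g H))
    (hk2 : s0 n + 2 ≤ k) :
    ∃ I0 I1 : Finset Lab, I0 ⊆ labSet c ∧ I1 ⊆ labSet c ∧ Disjoint I0 I1 ∧
      (∀ l ∈ I0, dlab c G H l = 1) ∧ (∀ l ∈ I1, theta n m k ≤ dlab c G H l) ∧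
      n.choose k ≤ 16 * n ^ 2 * I1.card ∧ (I1.card : ℝ) * theta n m k ≤ I0.card ∧
      I0.card ≤ n.choose m := by
  set J := {C ∈ powersetCard k (univ : Finset (Fin n)) | Strong G C ∧ ¬ Embeds G C H ∧
    theta n m k ≤ (cnt c G false C : ℝ) ∧ theta n m k ≤ (cnt c G true C : ℝ)} with hJ
  have hthpos : 0 < theta n m k := by
    unfold theta
    have h1 : (0 : ℝ) < (n.choose m : ℕ) := by exact_mod_cast Nat.choose_pos hmn
    have h2 : (0 : ℝ) < (n.choose k : ℕ) := by exact_mod_cast Nat.choose_pos (hk.trans hmn)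
    positivity
  -- size of J
  have hJcard : n.choose k ≤ 16 * n ^ 2 * J.card := by
    have h1 := many_nonembeddable hG hGH hk2 (hk.trans hmn)
    have h2 := typical_strong hG (s := k) (by omega) (hk.trans hmn)
    have hcover : {C ∈ powersetCard k (univ : Finset (Fin n)) | ¬ Embeds G C H} ⊆
        J ∪ ({C ∈ powersetCard k (univ : Finset (Fin n)) | ¬ Strong G C} ∪
          {C ∈ powersetCard k (univ : Finset (Fin n)) | Strong G C ∧
    ¬ (theta n m k ≤ (cnt c G false C : ℝ) ∧ theta n m k ≤ (cnt c G true C : ℝ))}) := by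
      intro C hC
      simp only [mem_union, hJ, mem_filter] at hC ⊢
      tauto
    have h3 := (card_le_card hcover).trans ((card_union_le _ _).trans
      (Nat.add_le_add_left (card_union_le _ _) _))
    have h4 : #{C ∈ powersetCard k (univ : Finset (Fin n)) | Strong G C ∧
      ¬ (theta n m k ≤ (cnt c G false C : ℝ) ∧ theta n m k ≤ (cnt c G true C : ℝ))} =
      coreBad c G k := rfl
    rw [h4] at h3
    have h5 : 8 * n ^ 2 * #{C ∈ powersetCard k (univ : Finset (Fin n)) | ¬ Embeds G C H} ≤
        8 * n ^ 2 * (J.card + (#{C ∈ powersetCard k (univ : Finset (Fin n)) | ¬ Strong G C} +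
          coreBad c G k)) := Nat.mul_le_mul_left _ h3
    have h6 : 4 * n.choose k ≤ 32 * n ^ 2 * J.card + (n.choose k + n.choose k) := by
      calc 4 * n.choose k ≤ 4 * (8 * n ^ 2 *
            #{C ∈ powersetCard k (univ : Finset (Fin n)) | ¬ Embeds G C H}) :=
            Nat.mul_le_mul_left _ h1
        _ ≤ 4 * (8 * n ^ 2 * (J.card +
            (#{C ∈ powersetCard k (univ : Finset (Fin n)) | ¬ Strong G C} +
            coreBad c G k))) := Nat.mul_le_mul_left _ h5
        _ = 32 * n ^ 2 * J.card + (32 * n ^ 2 *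
            #{C ∈ powersetCard k (univ : Finset (Fin n)) | ¬ Strong G C} +
            32 * n ^ 2 * coreBad c G k) := by ring
        _ ≤ _ := by
            apply Nat.add_le_add_left
            exact Nat.add_le_add h2 hc
    have h7 : 2 * n.choose k ≤ 2 * (16 * n ^ 2 * J.card) := by
      have : 2 * (16 * n ^ 2 * J.card) = 32 * n ^ 2 * J.card := by ring
      omega
    exact Nat.le_of_mul_le_mul_left h7 (by norm_num)
  -- the sets
  set I1 := J.image (fun C => ((true, ⟨k, code k G C⟩) : Lab)) with hI1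
  let W : Finset (Fin n) → Finset (Finset (Fin n)) := fun C =>
    {A ∈ powersetCard m (univ : Finset (Fin n)) | C ⊆ A ∧ Hit c G false C A}
  set U := J.biUnion W with hU
  set I0 := U.image (fun A => ((false, ⟨m, code m G A⟩) : Lab)) with hI0
  have hJmem : ∀ C ∈ J, C.card = k ∧ Strong G C ∧ ¬ Embeds G C H ∧
    theta n m k ≤ (cnt c G false C : ℝ) ∧ theta n m k ≤ (cnt c G true C : ℝ) := by
    intro C hC
    rw [hJ, mem_filter, mem_powersetCard] at hC
    exact ⟨hC.1.2, hC.2⟩
  have hI1card : I1.card = J.card := by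
    rw [hI1]
    apply card_image_of_injOn
    intro C hC C' hC' h
    have h1 := hJmem C (by exact_mod_cast hC)
    have h1' := hJmem C' (by exact_mod_cast hC')
    simp only [Prod.mk.injEq, true_and] at h
    rw [Sigma.mk.inj_iff] at h
    exact code_inj_of_rigid hn h1.1 h1'.1 h1.2.1.rigid (eq_of_heq h.2)
  have hUmem : ∀ A ∈ U, ∃ C ∈ J, A.card = m ∧ C ⊆ A ∧ Hit c G false C A := by
    intro A hA
    rw [hU, mem_biUnion] at hA
    obtain ⟨C, hC, hA⟩ := hA
    simp only [W, mem_filter, mem_powersetCard] at hA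
    exact ⟨C, hC, hA.1.2, hA.2⟩
  have hUrigid : ∀ A ∈ U, Rigid G A := by
    intro A hA
    obtain ⟨C, hC, _, hCA, _⟩ := hUmem A hA
    exact (hJmem C hC).2.1.rigid_of_subset hCA
  have hI0card : I0.card = U.card := by
    rw [hI0]
    apply card_image_of_injOn
    intro A hA A' hA' h
    have hA1 : A ∈ U := by exact_mod_cast hA
    have hA1' : A' ∈ U := by exact_mod_cast hA'
    obtain ⟨_, _, h1, _⟩ := hUmem A hA1
    obtain ⟨_, _, h1', _⟩ := hUmem A' hA1'
    simp only [Prod.mk.injEq, true_and] at h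
    rw [Sigma.mk.inj_iff] at h
    exact code_inj_of_rigid hn h1 h1' (hUrigid A hA1) (eq_of_heq h.2)
  have hUcard : U.card = ∑ C ∈ J, cnt c G false C := by
    rw [hU, card_biUnion]
    · rfl
    · intro C hC C' hC' hne
      have hC1 : C ∈ J := by exact_mod_cast hC
      rw [Function.onFun, Finset.disjoint_left]
      intro A hA hA'
      simp only [W, mem_filter, mem_powersetCard] at hA hA'
      apply hne
      exact hit_unique ((hJmem C hC1).2.1.rigid_of_subset hA.2.1) hA.2.1 hA'.2.1 hA.2.2 hA'.2.2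
        hm hA.1.2
  refine ⟨I0, I1, ?_, ?_, ?_, ?_, ?_, ?_, ?_, ?_⟩
  · intro l hl
    rw [hI0, mem_image] at hl
    obtain ⟨A, hA, rfl⟩ := hl
    obtain ⟨C, hC, hAm, hCA, ψ, hψ, him, hc'⟩ := hUmem A hA
    unfold labSet
    rw [mem_image]
    exact ⟨code m G A, mem_univ _, labelOf_false hc'⟩
  · intro l hl
    rw [hI1, mem_image] at hl
    obtain ⟨C, hC, rfl⟩ := hl
    obtain ⟨hCk, hs, hE, h0, h1⟩ := hJmem C hC
    have hpos : 0 < cnt c G true C := by
      have : (0 : ℝ) < cnt c G true C := hthpos.trans_le h1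
      exact_mod_cast this
    unfold cnt at hpos
    rw [card_pos] at hpos
    obtain ⟨A, hA⟩ := hpos
    rw [mem_filter, mem_powersetCard] at hA
    unfold labSet
    rw [mem_image]
    exact ⟨code m G A, mem_univ _, label_hit_true hCk hA.2.1 hA.2.2⟩
  · rw [Finset.disjoint_left]
    intro l hl hl'
    rw [hI0, mem_image] at hl
    rw [hI1, mem_image] at hl'
    obtain ⟨A, _, rfl⟩ := hl
    obtain ⟨C, _, h⟩ := hl'
    simp at h
  · intro l hl
    rw [hI0, mem_image] at hl
    obtain ⟨A, hA, rfl⟩ := hl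
    obtain ⟨C, hC, hAm, hCA, hhit⟩ := hUmem A hA
    have hr := hUrigid A hA
    have h1 : nlab c G ((false, ⟨m, code m G A⟩) : Lab) = 1 := by
      unfold nlab
      rw [card_eq_one]
      refine ⟨A, ?_⟩
      ext A'
      rw [mem_filter, mem_powersetCard, mem_singleton]
      constructor
      · rintro ⟨⟨_, hA'⟩, h⟩
        exact (eq_of_label_false hn hAm hA' hr h).symm
      · rintro rfl
        obtain ⟨ψ, hψ, him, hc'⟩ := hhit
        exact ⟨⟨subset_univ _, hAm⟩, labelOf_false hc'⟩
    have h2 : nlab c H ((false, ⟨m, code m G A⟩) : Lab) = 0 := by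
      unfold nlab
      rw [card_eq_zero]
      apply filter_false_of_mem
      intro A' hA' h
      rw [mem_powersetCard] at hA'
      have := embeds_of_label_false hn hAm hA'.2 h
      exact (hJmem C hC).2.2.1 (this.mono hCA)
    unfold dlab
    rw [h1, h2]
    norm_num
  · intro l hl
    rw [hI1, mem_image] at hl
    obtain ⟨C, hC, rfl⟩ := hl
    obtain ⟨hCk, hs, hE, h0, h1⟩ := hJmem C hC
    have h2 : nlab c H ((true, ⟨k, code k G C⟩) : Lab) = 0 := by
      unfold nlab
      rw [card_eq_zero]
      apply filter_false_of_mem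
      intro A' hA' h
      rw [mem_powersetCard] at hA'
      exact hE (embeds_of_label_true hn hm hCk hA'.2 h)
    have h3 : cnt c G true C ≤ nlab c G ((true, ⟨k, code k G C⟩) : Lab) := by
      unfold cnt nlab
      apply card_le_card
      intro A hA
      rw [mem_filter] at hA ⊢
      exact ⟨hA.1, label_hit_true hCk hA.2.1 hA.2.2⟩
    unfold dlab
    rw [h2, Nat.cast_zero, sub_zero]
    have h4 : (cnt c G true C : ℝ) ≤ nlab c G ((true, ⟨k, code k G C⟩) : Lab) := by
      exact_mod_cast h3
    exact h1.trans h4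
  · rw [hI1card]; exact hJcard
  · rw [hI1card, hI0card, hUcard]
    push_cast
    calc (J.card : ℝ) * theta n m k = ∑ C ∈ J, theta n m k := by
          rw [sum_const, nsmul_eq_mul]
      _ ≤ _ := Finset.sum_le_sum (fun C hC => (hJmem C hC).2.2.2.1)
  · rw [hI0card]
    have : U ⊆ powersetCard m (univ : Finset (Fin n)) := by
      intro A hA
      obtain ⟨_, _, h1, _⟩ := hUmem A hA
      rw [mem_powersetCard]
      exact ⟨subset_univ _, h1⟩
    have h1 := card_le_card this
    rwa [card_powersetCard, card_univ, Fintype.card_fin] at h1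

end

end Pool.Agent.LibMP916a8b
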