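import Pool.Agent.LibMP916a8b.Pair

/-!
Numerical form of the anti-concentration bound.
-/

namespace Pool.Agent.LibMP916a8b

open Finset

set_option linter.unusedVariables false

/-- the bound at level `m` -/
noncomputable def Bm (n m : ℕ) : ℝ :=
  (n : ℝ) ^ 7 / (((n.choose m : ℕ) : ℝ) ^ ((1 : ℝ) / 4)) ^ 3

theorem real_bound {n T N th j0 j1 m u : ℝ} (hn : 100 ≤ n) (hT : 1 ≤ T) (hN : 0 < N)
    (hNT : N ^ 2 ≤ T) (hTN : T ≤ n ^ 2 * N ^ 2) (hm0 : 0 ≤ m) (hm : m + 1 ≤ 2 * n)
    (hth : th = T / (4 * (m + 1) * N)) (hj1 : N ≤ 16 * n ^ 2 * j1) (hj0 : j1 * th ≤ j0)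
    (hj0T : j0 ≤ T) (hu : 0 < u) (huT : u ^ 4 = T) (hTexp : T ≤ Real.exp (2 * n)) :
    Real.exp (-2 * (√n * u ^ 2) ^ 2 / j0) +
      (2 * (√n * u ^ 2) / th + 1) * (1 / √j0) * (1 / √j1) ≤ n ^ 7 / u ^ 3 := by
  have hnpos : 0 < n := by linarith
  have hTpos : 0 < T := by linarith
  have hj1pos : 0 < j1 := by
    have : 0 < 16 * n ^ 2 * j1 := hN.trans_le hj1
    by_contra hcon
    rw [not_lt] at hcon
    have h2 : 16 * n ^ 2 * j1 ≤ 0 := mul_nonpos_of_nonneg_of_nonpos (by positivity) hcon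
    linarith
  have hthpos : 0 < th := by rw [hth]; positivity
  have hj0pos : 0 < j0 := (mul_pos hj1pos hthpos).trans_le hj0
  have hs : 0 < √n := Real.sqrt_pos.2 hnpos
  have hs2 : √n ^ 2 = n := Real.sq_sqrt hnpos.le
  have hsge : 10 ≤ √n := by
    rw [show (10 : ℝ) = √(10 ^ 2) by rw [Real.sqrt_sq (by norm_num)]]
    apply Real.sqrt_le_sqrt
    linarith
  have hu1 : 1 ≤ u := by
    by_contra hcon
    rw [not_le] at hcon
    have : u ^ 4 < 1 := pow_lt_one₀ hu.le hcon (by norm_num)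
    linarith
  -- first term
  have t1 : Real.exp (-2 * (√n * u ^ 2) ^ 2 / j0) ≤ 1 / u ^ 3 := by
    have e1 : (√n * u ^ 2) ^ 2 = n * T := by
      rw [mul_pow, hs2, ← huT]; ring
    have e2 : -2 * (√n * u ^ 2) ^ 2 / j0 ≤ -(2 * n) := by
      rw [e1, div_le_iff₀ hj0pos]
      nlinarith
    calc Real.exp (-2 * (√n * u ^ 2) ^ 2 / j0) ≤ Real.exp (-(2 * n)) := Real.exp_le_exp.2 e2
      _ = 1 / Real.exp (2 * n) := by rw [Real.exp_neg, one_div]
      _ ≤ 1 / T := one_div_le_one_div_of_le hTpos hTexp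
      _ ≤ 1 / u ^ 3 := by
          apply one_div_le_one_div_of_le (by positivity)
          rw [← huT]
          exact pow_le_pow_right₀ hu1 (by norm_num)
  -- window factor
  have t2 : 2 * (√n * u ^ 2) / th + 1 ≤ 17 * (n * √n) := by
    have e1 : 2 * (√n * u ^ 2) / th = 8 * (m + 1) * √n * (N * u ^ 2 / T) := by
      rw [hth]
      field_simp
      ring
    have e2 : N * u ^ 2 / T ≤ 1 := by
      rw [div_le_one hTpos]
      have e3 : N ≤ u ^ 2 := by
        have : N ^ 2 ≤ (u ^ 2) ^ 2 := by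
          rw [← pow_mul]; norm_num; rw [huT]; exact hNT
        exact le_of_sq_le_sq this (by positivity)
      calc N * u ^ 2 ≤ u ^ 2 * u ^ 2 := mul_le_mul_of_nonneg_right e3 (by positivity)
        _ = T := by rw [← huT]; ring
    have e4 : 8 * (m + 1) * √n * (N * u ^ 2 / T) ≤ 8 * (2 * n) * √n * 1 := by
      apply mul_le_mul
      · apply mul_le_mul_of_nonneg_right _ hs.le
        linarith
      · exact e2
      · positivity
      · positivity
    have e5 : 1 ≤ n * √n := by nlinarith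
    rw [e1]
    linarith
  -- 1/√j1
  have t3 : 1 / √j1 ≤ 4 * (n * √n) / u := by
    have e1 : u ^ 2 ≤ n * N := by
      have : (u ^ 2) ^ 2 ≤ (n * N) ^ 2 := by
        rw [← pow_mul]; norm_num; rw [huT, mul_pow]; exact hTN
      exact le_of_sq_le_sq this (by positivity)
    have e2 : u ^ 2 ≤ (4 * (n * √n)) ^ 2 * j1 := by
      calc u ^ 2 ≤ n * N := e1
        _ ≤ n * (16 * n ^ 2 * j1) := mul_le_mul_of_nonneg_left hj1 hnpos.le
        _ = (4 * n) ^ 2 * n * j1 := by ring
        _ = (4 * n) ^ 2 * √n ^ 2 * j1 := by rw [hs2]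
        _ = _ := by ring
    have e3 : u ≤ 4 * (n * √n) * √j1 := by
      have : u ^ 2 ≤ (4 * (n * √n) * √j1) ^ 2 := by
        rw [mul_pow _ (√j1), Real.sq_sqrt hj1pos.le]
        exact e2
      exact le_of_sq_le_sq this (by positivity)
    have hsj : 0 < √j1 := Real.sqrt_pos.2 hj1pos
    rw [div_le_div_iff₀ hsj hu]
    linarith
  -- 1/√j0
  have t4 : 1 / √j0 ≤ 12 * (n * √n) / u ^ 2 := by
    have e1 : T ≤ 128 * n ^ 3 * j0 := by
      have h1 : N * th ≤ 16 * n ^ 2 * j0 := by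
        calc N * th ≤ 16 * n ^ 2 * j1 * th := mul_le_mul_of_nonneg_right hj1 hthpos.le
          _ = 16 * n ^ 2 * (j1 * th) := by ring
          _ ≤ _ := mul_le_mul_of_nonneg_left hj0 (by positivity)
      have h2 : N * th * (4 * (m + 1)) = T := by
        rw [hth]
        field_simp
      calc T = N * th * (4 * (m + 1)) := h2.symm
        _ ≤ 16 * n ^ 2 * j0 * (4 * (2 * n)) := by
            apply mul_le_mul h1 (by linarith) (by positivity) (by positivity)
        _ = 128 * n ^ 3 * j0 := by ring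
    have e2 : (u ^ 2) ^ 2 ≤ (12 * (n * √n)) ^ 2 * j0 := by
      calc (u ^ 2) ^ 2 = T := by rw [← huT]; ring
        _ ≤ 128 * n ^ 3 * j0 := e1
        _ ≤ 144 * n ^ 3 * j0 := by
            apply mul_le_mul_of_nonneg_right _ hj0pos.le
            have : 0 < n ^ 3 := by positivity
            linarith
        _ = (12 * n) ^ 2 * n * j0 := by ring
        _ = (12 * n) ^ 2 * √n ^ 2 * j0 := by rw [hs2]
        _ = _ := by ring
    have e3 : u ^ 2 ≤ 12 * (n * √n) * √j0 := by
      have : (u ^ 2) ^ 2 ≤ (12 * (n * √n) * √j0) ^ 2 := by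
        rw [mul_pow _ (√j0), Real.sq_sqrt hj0pos.le]
        exact e2
      exact le_of_sq_le_sq this (by positivity)
    have hsj : 0 < √j0 := Real.sqrt_pos.2 hj0pos
    rw [div_le_div_iff₀ hsj (by positivity)]
    linarith
  have hw0 : 0 ≤ 2 * (√n * u ^ 2) / th + 1 := by positivity
  have t5 : (2 * (√n * u ^ 2) / th + 1) * (1 / √j0) * (1 / √j1) ≤
      17 * (n * √n) * (12 * (n * √n) / u ^ 2) * (4 * (n * √n) / u) := by
    apply mul_le_mul
    · apply mul_le_mul t2 t4 (by positivity) (by positivity)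
    · exact t3
    · positivity
    · positivity
  have t6 : 17 * (n * √n) * (12 * (n * √n) / u ^ 2) * (4 * (n * √n) / u) ≤ n ^ 6 / u ^ 3 := by
    have e1 : 17 * (n * √n) * (12 * (n * √n) / u ^ 2) * (4 * (n * √n) / u) =
        816 * (n ^ 4 * √n) / u ^ 3 := by
      field_simp
      have : √n ^ 3 = n * √n := by
        calc √n ^ 3 = √n ^ 2 * √n := by ring
          _ = n * √n := by rw [hs2]
      ring_nf
      rw [hs2]
    rw [e1]
    apply div_le_div_of_nonneg_right _ (by positivity)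
    have e2 : 816 ≤ n * √n := by nlinarith
    calc 816 * (n ^ 4 * √n) ≤ (n * √n) * (n ^ 4 * √n) :=
          mul_le_mul_of_nonneg_right e2 (by positivity)
      _ = n ^ 5 * √n ^ 2 := by ring
      _ = n ^ 6 := by rw [hs2]; ring
  calc _ ≤ 1 / u ^ 3 + n ^ 6 / u ^ 3 := add_le_add t1 (t5.trans t6)
    _ = (1 + n ^ 6) / u ^ 3 := by ring
    _ ≤ n ^ 7 / u ^ 3 := by
        apply div_le_div_of_nonneg_right _ (by positivity)
        have : (1 : ℝ) ≤ n ^ 6 := one_le_pow₀ (by linarith)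
        calc 1 + n ^ 6 ≤ 2 * n ^ 6 := by linarith
          _ ≤ n * n ^ 6 := mul_le_mul_of_nonneg_right (by linarith) (by positivity)
          _ = n ^ 7 := by ring

open Classical in
theorem pair_bound {n m : ℕ} (hn0 : 100 ≤ n) (hn : 2 * (s0 n + 2) ≤ n) (hm : m ∈ Mset n)
    {c : SimpleGraph (Fin m) → Bool × Finset (Fin m)} {G H : SimpleGraph (Fin n)}
    (hG : Typical G) (hc : CoreGood c G) (hGH : ¬ Nonempty (G ≃g H)) (t : ℝ) :
    (#{s ∈ (labSet c).powerset | ∑ l ∈ s, dlab c G H l = t} : ℝ) ≤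
      Bm n m * 2 ^ (labSet c).card := by
  have hmn := mem_Mset_le hm
  have hm2 := mem_Mset_two hm
  have hkm := kk_le hn hm
  have hk2 := le_kk hn hm
  set k := kk n m with hk
  obtain ⟨I0, I1, hI0, hI1, hdis, hd0, hd1, hc1, hc0, hcT⟩ :=
    exists_label_sets (by omega) (by omega) hmn hkm hG hc hGH hk2
  have hTpos' : 0 < n.choose m := Nat.choose_pos hmn
  have hNpos' : 0 < n.choose k := Nat.choose_pos (hkm.trans hmn)
  set T : ℝ := ((n.choose m : ℕ) : ℝ) with hT
  set N : ℝ := ((n.choose k : ℕ) : ℝ) with hN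
  have hTpos : 0 < T := by rw [hT]; exact_mod_cast hTpos'
  have hT1 : 1 ≤ T := by rw [hT]; exact_mod_cast hTpos'
  have hNpos : 0 < N := by rw [hN]; exact_mod_cast hNpos'
  have hI1pos : 0 < I1.card := by
    rcases Nat.eq_zero_or_pos I1.card with h | h
    · rw [h] at hc1
      omega
    · exact h
  have hthpos : 0 < theta n m k := by unfold theta; positivity
  have hI0pos : 0 < I0.card := by
    have : (0 : ℝ) < I0.card := by
      refine lt_of_lt_of_le ?_ hc0
      have : (0 : ℝ) < I1.card := by exact_mod_cast hI1pos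
      positivity
    exact_mod_cast this
  set u : ℝ := T ^ ((1 : ℝ) / 4) with hu
  have hupos : 0 < u := Real.rpow_pos_of_pos hTpos _
  have hu4 : u ^ 4 = T := by
    rw [hu, ← Real.rpow_natCast, ← Real.rpow_mul hTpos.le]
    norm_num
  have hTexp : T ≤ Real.exp (2 * n) := by
    have h1 : T ≤ 2 ^ n := by
      rw [hT]
      have : n.choose m ≤ 2 ^ n := Nat.choose_le_two_pow n m
      exact_mod_cast this
    have h2 : (2 : ℝ) ^ n ≤ Real.exp (2 * n) := by
      have h3 : (2 : ℝ) ≤ Real.exp 2 := by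
        have := Real.add_one_le_exp (2 : ℝ)
        linarith
      calc (2 : ℝ) ^ n ≤ (Real.exp 2) ^ n := pow_le_pow_left₀ (by norm_num) h3 n
        _ = Real.exp (2 * n) := by rw [← Real.exp_nat_mul]; ring_nf
    exact h1.trans h2
  have hlo := lo_main (labSet c) I0 I1 hI0 hI1 hdis (dlab c G H) hd0 (theta n m k) hthpos hd1
    (card_pos.1 hI0pos) (card_pos.1 hI1pos) (√(n : ℝ) * u ^ 2) (by positivity) t
  refine hlo.trans ?_
  apply mul_le_mul_of_nonneg_right _ (by positivity)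
  unfold Bm
  rw [← hT, ← hu]
  have hspec := kk_spec hn hm
  have hupper := kk_upper hn hm
  rw [← hk] at hspec hupper
  apply real_bound (n := (n : ℝ)) (T := T) (N := N) (th := theta n m k) (j0 := (I0.card : ℝ))
    (j1 := (I1.card : ℝ)) (m := (m : ℝ)) (u := u)
  · exact_mod_cast hn0
  · exact hT1
  · exact hNpos
  · rw [hN, hT]; exact_mod_cast hspec
  · rw [hN, hT]; exact_mod_cast hupper
  · positivity
  · have : (m : ℝ) ≤ n := by exact_mod_cast hmn
    have : (100 : ℝ) ≤ n := by exact_mod_cast hn0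
    linarith
  · rfl
  · rw [hN]; exact_mod_cast hc1
  · exact hc0
  · rw [hT]; exact_mod_cast hcT
  · exact hupos
  · exact hu4
  · exact hTexp

end Pool.Agent.LibMP916a8b
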