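import Pool.Agent.LibMP916a8b.Typical2
import Pool.Agent.LibMP916a8b.Core

/-!
Parameters.
-/

namespace Pool.Agent.LibMP916a8b

open Finset

set_option linter.unusedVariables false

/-- the size of the cores used for the pair `(n, m)` -/
def kk (n m : ℕ) : ℕ := Nat.findGreatest (fun j => n.choose j ^ 2 ≤ n.choose m) (n / 2)

/-- the levels used for graphs on `n` vertices -/
def Mset (n : ℕ) : Finset ℕ :=
  (range (n + 1)).filter (fun m => 2 ≤ m ∧ n.choose (s0 n + 2) ^ 2 ≤ n.choose m)

theorem two_pow_le_centralBinom (k : ℕ) : 2 ^ k ≤ Nat.centralBinom k := by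
  induction k with
  | zero => simp
  | succ k ih =>
    have h := Nat.succ_mul_centralBinom_succ k
    have h2 : (k + 1) * 2 ^ (k + 1) ≤ (k + 1) * Nat.centralBinom (k + 1) := by
      rw [h]
      calc (k + 1) * 2 ^ (k + 1) = 2 * (k + 1) * 2 ^ k := by ring
        _ ≤ 2 * (2 * k + 1) * Nat.centralBinom k := by
          apply Nat.mul_le_mul _ ih
          omega
    exact Nat.le_of_mul_le_mul_left h2 (Nat.succ_pos k)

theorem two_pow_le_choose {n k : ℕ} (h : 2 * k ≤ n) : 2 ^ k ≤ n.choose k :=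
  (two_pow_le_centralBinom k).trans (Nat.choose_le_choose k h)

theorem choose_mono_half {n j k : ℕ} (hjk : j ≤ k) (hk : k ≤ n / 2) :
    n.choose j ≤ n.choose k := by
  induction k, hjk using Nat.le_induction with
  | base => exact le_rfl
  | succ k hjk ih =>
    refine (ih (by omega)).trans ?_
    apply Nat.choose_le_succ_of_lt_half_left
    omega

section
variable {n m : ℕ}

theorem le_kk (hn : 2 * (s0 n + 2) ≤ n) (hm : m ∈ Mset n) : s0 n + 2 ≤ kk n m := by
  unfold Mset at hm
  rw [mem_filter] at hm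
  unfold kk
  apply Nat.le_findGreatest
  · omega
  · exact hm.2.2

theorem kk_le_half : kk n m ≤ n / 2 := Nat.findGreatest_le _

theorem kk_spec (hn : 2 * (s0 n + 2) ≤ n) (hm : m ∈ Mset n) :
    n.choose (kk n m) ^ 2 ≤ n.choose m := by
  unfold Mset at hm
  rw [mem_filter] at hm
  exact Nat.findGreatest_spec (P := fun j => n.choose j ^ 2 ≤ n.choose m)
    (m := s0 n + 2) (by omega) hm.2.2

theorem mem_Mset_le (hm : m ∈ Mset n) : m ≤ n := by
  unfold Mset at hm
  rw [mem_filter, mem_range] at hm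
  omega

theorem mem_Mset_two (hm : m ∈ Mset n) : 2 ≤ m := by
  unfold Mset at hm
  rw [mem_filter, mem_range] at hm
  omega

theorem kk_le (hn : 2 * (s0 n + 2) ≤ n) (hm : m ∈ Mset n) : kk n m ≤ m := by
  by_contra hcon
  rw [not_le] at hcon
  have h1 : n.choose m ≤ n.choose (kk n m) := choose_mono_half hcon.le kk_le_half
  have h2 := kk_spec hn hm
  have h3 : 2 ^ kk n m ≤ n.choose (kk n m) := two_pow_le_choose (by
    have := kk_le_half (n := n) (m := m); omega)
  have h4 : 2 ≤ kk n m := by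
    have := le_kk hn hm; omega
  have h5 : 2 ^ 2 ≤ 2 ^ kk n m := Nat.pow_le_pow_right (by norm_num) h4
  nlinarith

theorem kk_upper (hn : 2 * (s0 n + 2) ≤ n) (hm : m ∈ Mset n) :
    n.choose m ≤ n ^ 2 * n.choose (kk n m) ^ 2 := by
  have hk := kk_le_half (n := n) (m := m)
  rcases Nat.lt_or_ge (kk n m) (n / 2) with h | h
  · have h1 : ¬ (n.choose (kk n m + 1) ^ 2 ≤ n.choose m) := by
      apply Nat.findGreatest_is_greatest (P := fun j => n.choose j ^ 2 ≤ n.choose m) (n := n / 2)
      · exact Nat.lt_succ_self _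
      · exact h
    rw [not_le] at h1
    have h2 : n.choose (kk n m + 1) ≤ n * n.choose (kk n m) := by
      have h3 := Nat.choose_succ_right_eq n (kk n m)
      calc n.choose (kk n m + 1) ≤ n.choose (kk n m + 1) * (kk n m + 1) :=
            Nat.le_mul_of_pos_right _ (Nat.succ_pos _)
        _ = n.choose (kk n m) * (n - kk n m) := h3
        _ ≤ n.choose (kk n m) * n := Nat.mul_le_mul_left _ (Nat.sub_le _ _)
        _ = _ := by ring
    calc n.choose m ≤ n.choose (kk n m + 1) ^ 2 := h1.le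
      _ ≤ (n * n.choose (kk n m)) ^ 2 := Nat.pow_le_pow_left h2 2
      _ = _ := by ring
  · have h1 : kk n m = n / 2 := le_antisymm hk h
    rw [h1]
    have h2 : n.choose m ≤ n.choose (n / 2) := Nat.choose_le_middle m n
    have h3 : 0 < n.choose (n / 2) := Nat.choose_pos (Nat.div_le_self _ _)
    have h4 : 1 ≤ n ^ 2 := Nat.one_le_pow _ _ (by omega)
    calc n.choose m ≤ n.choose (n / 2) := h2
      _ ≤ n.choose (n / 2) ^ 2 := Nat.le_self_pow (by norm_num) _
      _ ≤ n ^ 2 * n.choose (n / 2) ^ 2 := Nat.le_mul_of_pos_left _ (by positivity)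

theorem pow_le_choose_kk (hn0 : 1 ≤ n) (hn : 2 * (s0 n + 2) ≤ n) (hm : m ∈ Mset n) :
    n ^ 100 ≤ n.choose (kk n m) := by
  have h1 : 2 ^ kk n m ≤ n.choose (kk n m) := two_pow_le_choose (by
    have := kk_le_half (n := n) (m := m); omega)
  have h2 : 2 ^ s0 n ≤ 2 ^ kk n m := by
    apply Nat.pow_le_pow_right (by norm_num)
    have := le_kk hn hm; omega
  have h3 : n ^ 100 ≤ 2 ^ s0 n := by
    have := (Nat.lt_pow_succ_log_self (b := 2) (by norm_num) n).le
    calc n ^ 100 ≤ (2 ^ (Nat.log 2 n + 1)) ^ 100 := Nat.pow_le_pow_left this 100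
      _ = 2 ^ s0 n := by rw [← pow_mul]; unfold s0; congr 1; ring
  exact h3.trans (h2.trans h1)

end

end Pool.Agent.LibMP916a8b
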