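import Pool.Agent.LibMP916a8b.Basic
import Pool.Agent.LibMP916a8b.Counting

/-!
Rigidity: if almost all small induced subgraphs of a rigid graph `G` embed in `H`, then
`G` and `H` are isomorphic.
-/

namespace Pool.Agent.LibMP916a8b

open Finset

set_option linter.unusedVariables false

/-- the only embedding of `G[C]` into `G` is the inclusion -/
def Rigid {V : Type*} (G : SimpleGraph V) (C : Finset V) : Prop :=
  ∀ τ : V → V, IsEmb G C G τ → ∀ y ∈ C, τ y = y

/-- all one-point extensions of `C` are rigid -/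
def Strong {V : Type*} [DecidableEq V] (G : SimpleGraph V) (C : Finset V) : Prop :=
  ∀ x : V, Rigid G (insert x C)

/-- `G[C]` embeds into `H` -/
def Embeds {V W : Type*} (G : SimpleGraph V) (C : Finset V) (H : SimpleGraph W) : Prop :=
  ∃ τ : V → W, IsEmb G C H τ

/-- `G[C]` embeds into `H` in a unique way -/
def UniqEmb {V W : Type*} (G : SimpleGraph V) (C : Finset V) (H : SimpleGraph W) : Prop :=
  ∃ τ : V → W, IsEmb G C H τ ∧ ∀ τ' : V → W, IsEmb G C H τ' → ∀ y ∈ C, τ' y = τ y

section
variable {V W : Type*} [DecidableEq V] [DecidableEq W]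

theorem Strong.rigid_of_subset {G : SimpleGraph V} {C A : Finset V} (h : Strong G C)
    (hCA : C ⊆ A) : Rigid G A := by
  intro τ hτ y hy
  exact h y τ (hτ.mono (insert_subset hy hCA)) y (mem_insert_self _ _)

theorem Strong.mono {G : SimpleGraph V} {C A : Finset V} (h : Strong G C)
    (hCA : C ⊆ A) : Strong G A := by
  intro x
  exact h.rigid_of_subset (hCA.trans (subset_insert _ _))

theorem Strong.rigid {G : SimpleGraph V} {C : Finset V} (h : Strong G C) : Rigid G C :=
  h.rigid_of_subset subset_rfl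

theorem Embeds.mono {G : SimpleGraph V} {C A : Finset V} {H : SimpleGraph W} (h : Embeds G A H)
    (hCA : C ⊆ A) : Embeds G C H := by
  obtain ⟨τ, hτ⟩ := h
  exact ⟨τ, hτ.mono hCA⟩

/-- Two rigid sets with embeddings onto the same set coincide, with their embeddings. -/
theorem rigid_image_eq [Nonempty V] {G : SimpleGraph V} {H : SimpleGraph W} {B B' : Finset V}
    (hB : Rigid G B) {τ τ' : V → W} (hτ : IsEmb G B H τ) (hτ' : IsEmb G B' H τ')
    (him : B.image τ = B'.image τ') : B = B' ∧ ∀ y ∈ B, τ y = τ' y := by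
  obtain ⟨σ, hσ, hσ'⟩ := hτ'.exists_inv
  have hcomp : IsEmb G B G (σ ∘ τ) := by
    refine hτ.comp (C := B.image τ) ?_ (fun x hx => mem_image_of_mem _ hx)
    rw [him]; exact hσ
  have hr := hB _ hcomp
  have key : ∀ y ∈ B, y ∈ B' ∧ τ y = τ' y := by
    intro y hy
    have h1 : τ y ∈ B'.image τ' := by rw [← him]; exact mem_image_of_mem _ hy
    rw [mem_image] at h1
    obtain ⟨z, hz, hzy⟩ := h1
    have h2 := hr y hy
    simp only [Function.comp] at h2
    rw [← hzy, hσ' z hz] at h2
    subst h2
    exact ⟨hz, hzy.symm⟩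
  refine ⟨?_, fun y hy => (key y hy).2⟩
  apply Finset.eq_of_subset_of_card_le (fun y hy => (key y hy).1)
  rw [← hτ.card_image, ← hτ'.card_image, him]

end

open Classical in
theorem card_not_uniq {n : ℕ} (G H : SimpleGraph (Fin n)) (r : ℕ) :
    #{B ∈ powersetCard r (univ : Finset (Fin n)) | ¬ UniqEmb G B H} ≤
      2 * (#{B ∈ powersetCard r (univ : Finset (Fin n)) | ¬ Embeds G B H} +
        #{B ∈ powersetCard r (univ : Finset (Fin n)) | ¬ Rigid G B}) := by
  rcases Nat.eq_zero_or_pos n with hn | hn
  · subst hn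
    -- on the empty type everything is unique
    have : #{B ∈ powersetCard r (univ : Finset (Fin 0)) | ¬ UniqEmb G B H} = 0 := by
      rw [card_eq_zero]
      apply Finset.filter_false_of_mem
      intro B _
      rw [not_not]
      exact ⟨_root_.id, ⟨fun x _ => x.elim0, fun x _ => x.elim0⟩, fun _ _ y _ => y.elim0⟩
    rw [this]; exact Nat.zero_le _
  haveI : Nonempty (Fin n) := ⟨⟨0, hn⟩⟩
  set P := powersetCard r (univ : Finset (Fin n)) with hP
  set RE := {B ∈ P | Rigid G B ∧ Embeds G B H} with hRE
  set b := {B ∈ P | (Rigid G B ∧ Embeds G B H) ∧ ¬ UniqEmb G B H} with hb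
  let T : Finset (Fin n) → (Fin n → Fin n) := fun B =>
    if h : Embeds G B H then h.choose else _root_.id
  have hT : ∀ B, Embeds G B H → IsEmb G B H (T B) := by
    intro B hB
    simp only [T, dif_pos hB]
    exact hB.choose_spec
  let T' : Finset (Fin n) → (Fin n → Fin n) := fun B =>
    if h : ∃ τ' : Fin n → Fin n, IsEmb G B H τ' ∧ ∃ y ∈ B, τ' y ≠ T B y then h.choose
    else _root_.id
  have hT' : ∀ B ∈ b, IsEmb G B H (T' B) ∧ ∃ y ∈ B, T' B y ≠ T B y := by
    intro B hB
    rw [hb, mem_filter] at hB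
    obtain ⟨_, ⟨_, hE⟩, hU⟩ := hB
    have hex : ∃ τ' : Fin n → Fin n, IsEmb G B H τ' ∧ ∃ y ∈ B, τ' y ≠ T B y := by
      by_contra hcon
      push Not at hcon
      exact hU ⟨T B, hT B hE, hcon⟩
    simp only [T', dif_pos hex]
    exact hex.choose_spec
  set im1 := RE.image (fun B => B.image (T B)) with him1
  set im2 := b.image (fun B => B.image (T' B)) with him2
  have hc1 : im1.card = RE.card := by
    apply Finset.card_image_of_injOn
    intro B hB B' hB' hBB'
    have hB1 : B ∈ RE := by exact_mod_cast hB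
    have hB1' : B' ∈ RE := by exact_mod_cast hB'
    rw [hRE, mem_filter] at hB1 hB1'
    exact (rigid_image_eq hB1.2.1 (hT B hB1.2.2) (hT B' hB1'.2.2) hBB').1
  have hc2 : im2.card = b.card := by
    apply Finset.card_image_of_injOn
    intro B hB B' hB' hBB'
    have hB1 : B ∈ b := by exact_mod_cast hB
    have hB1' : B' ∈ b := by exact_mod_cast hB'
    have hB2 := hB1
    rw [hb, mem_filter] at hB2
    exact (rigid_image_eq hB2.2.1.1 (hT' B hB1).1 (hT' B' hB1').1 hBB').1
  have hdis : Disjoint im1 im2 := by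
    rw [Finset.disjoint_left]
    intro D hD hD'
    rw [him1, mem_image] at hD
    rw [him2, mem_image] at hD'
    obtain ⟨B, hB, rfl⟩ := hD
    obtain ⟨B', hB', hBB'⟩ := hD'
    rw [hRE, mem_filter] at hB
    have h1 := rigid_image_eq hB.2.1 (hT B hB.2.2) (hT' B' hB').1 hBB'.symm
    obtain ⟨h2, h3⟩ := h1
    subst h2
    obtain ⟨y, hy, hne⟩ := (hT' B hB').2
    exact hne (h3 y hy).symm
  have hsub : im1 ∪ im2 ⊆ P := by
    intro D hD
    rw [mem_union, him1, him2, mem_image, mem_image] at hD
    rw [hP, mem_powersetCard]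
    refine ⟨subset_univ _, ?_⟩
    rcases hD with ⟨B, hB, rfl⟩ | ⟨B, hB, rfl⟩
    · rw [hRE, mem_filter, hP, mem_powersetCard] at hB
      rw [(hT B hB.2.2).card_image, hB.1.2]
    · have hB1 := hB
      rw [hb, mem_filter, hP, mem_powersetCard] at hB
      rw [(hT' B hB1).1.card_image, hB.1.2]
  have hle : RE.card + b.card ≤ P.card := by
    rw [← hc1, ← hc2, ← card_union_of_disjoint hdis]
    exact card_le_card hsub
  have hcover : P ⊆ RE ∪ ({B ∈ P | ¬ Embeds G B H} ∪ {B ∈ P | ¬ Rigid G B}) := by
    intro B hB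
    simp only [mem_union, hRE, mem_filter]
    tauto
  have hPle : P.card ≤ RE.card + (#{B ∈ P | ¬ Embeds G B H} + #{B ∈ P | ¬ Rigid G B}) := by
    refine (card_le_card hcover).trans ((card_union_le _ _).trans ?_)
    exact Nat.add_le_add_left (card_union_le _ _) _
  have hcover2 : {B ∈ P | ¬ UniqEmb G B H} ⊆
      b ∪ ({B ∈ P | ¬ Embeds G B H} ∪ {B ∈ P | ¬ Rigid G B}) := by
    intro B hB
    simp only [mem_union, hb, mem_filter] at hB ⊢
    tauto
  have h2 : #{B ∈ P | ¬ UniqEmb G B H} ≤
      b.card + (#{B ∈ P | ¬ Embeds G B H} + #{B ∈ P | ¬ Rigid G B}) := by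
    refine (card_le_card hcover2).trans ((card_union_le _ _).trans ?_)
    exact Nat.add_le_add_left (card_union_le _ _) _
  omega

/-- Gluing. -/
theorem iso_of_base {n : ℕ} (G H : SimpleGraph (Fin n)) (B : Finset (Fin n))
    (h0 : UniqEmb G B H) (h1 : ∀ x ∉ B, UniqEmb G (insert x B) H)
    (h2 : ∀ x ∉ B, ∀ y ∉ B, x ≠ y → Embeds G (insert x (insert y B)) H) :
    Nonempty (G ≃g H) := by
  classical
  have hall : ∀ x, UniqEmb G (insert x B) H := by
    intro x
    by_cases hx : x ∈ B
    · rw [insert_eq_of_mem hx]; exact h0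
    · exact h1 x hx
  choose T hT hTu using hall
  -- `f x = T x x`
  let f : Fin n → Fin n := fun x => T x x
  -- any embedding of a set containing `insert x B` agrees with `f` at `x`
  have hagree : ∀ (A : Finset (Fin n)) (τ : Fin n → Fin n) (x : Fin n), IsEmb G A H τ →
      insert x B ⊆ A → τ x = f x := by
    intro A τ x hτ hA
    exact hTu x τ (hτ.mono hA) x (mem_insert_self _ _)
  have hpair : ∀ x y : Fin n, ∃ (A : Finset (Fin n)) (τ : Fin n → Fin n), IsEmb G A H τ ∧
      insert x B ⊆ A ∧ insert y B ⊆ A := by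
    intro x y
    by_cases hx : x ∈ B
    · refine ⟨insert y B, T y, hT y, ?_, subset_rfl⟩
      rw [insert_eq_of_mem hx]; exact subset_insert _ _
    · by_cases hy : y ∈ B
      · refine ⟨insert x B, T x, hT x, subset_rfl, ?_⟩
        rw [insert_eq_of_mem hy]; exact subset_insert _ _
      · by_cases hxy : x = y
        · subst hxy
          exact ⟨insert x B, T x, hT x, subset_rfl, subset_rfl⟩
        · obtain ⟨τ, hτ⟩ := h2 x hx y hy hxy
          refine ⟨_, τ, hτ, ?_, subset_insert _ _⟩
          exact insert_subset_insert _ (subset_insert _ _)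
  have hemb : IsEmb G univ H f := by
    refine ⟨?_, ?_⟩
    · intro x _ y _ hxy
      obtain ⟨A, τ, hτ, hx, hy⟩ := hpair x y
      have e1 := hagree A τ x hτ hx
      have e2 := hagree A τ y hτ hy
      apply hτ.1 (by exact_mod_cast hx (mem_insert_self _ _))
        (by exact_mod_cast hy (mem_insert_self _ _))
      rw [e1, e2, hxy]
    · intro x _ y _
      obtain ⟨A, τ, hτ, hx, hy⟩ := hpair x y
      rw [← hagree A τ x hτ hx, ← hagree A τ y hτ hy]
      exact hτ.2 x (hx (mem_insert_self _ _)) y (hy (mem_insert_self _ _))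
  exact hemb.iso_of_univ rfl

open Classical in
/-- The rigidity lemma. -/
theorem rigidity {n s : ℕ} (G H : SimpleGraph (Fin n)) (hs : s + 2 ≤ n)
    (hr0 : 8 * n ^ 2 * #{B ∈ powersetCard s (univ : Finset (Fin n)) | ¬ Rigid G B} ≤ n.choose s)
    (hr1 : 8 * n ^ 2 * #{B ∈ powersetCard (s + 1) (univ : Finset (Fin n)) | ¬ Rigid G B} ≤
      n.choose (s + 1))
    (he : 8 * n ^ 2 * #{C ∈ powersetCard (s + 2) (univ : Finset (Fin n)) | ¬ Embeds G C H} <
      n.choose (s + 2)) : Nonempty (G ≃g H) := by
  -- non-embeddable sets at lower levels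
  have hlow : ∀ r, r ≤ s + 2 →
      8 * n ^ 2 * #{B ∈ powersetCard r (univ : Finset (Fin n)) | ¬ Embeds G B H} ≤
        n.choose r := by
    intro r hr
    have h1 := downclosed_card (α := Fin n) (p := fun B => Embeds G B H)
      (fun C C0 h hC => Embeds.mono h hC) hr (by rw [Fintype.card_fin]; exact hs)
    rw [Fintype.card_fin] at h1
    have e1 : ∀ q, #{B ∈ powersetCard q (univ : Finset (Fin n)) | Embeds G B H} +
        #{B ∈ powersetCard q (univ : Finset (Fin n)) | ¬ Embeds G B H} = n.choose q := by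
      intro q
      rw [Finset.card_filter_add_card_filter_not, card_powersetCard, card_univ, Fintype.card_fin]
    have e2 := e1 r
    have e3 := e1 (s + 2)
    have hpos : 0 < n.choose (s + 2) := Nat.choose_pos hs
    -- nonemb_r * C(n, s+2) ≤ nonemb_{s+2} * C(n, r)
    have h2 : #{B ∈ powersetCard r (univ : Finset (Fin n)) | ¬ Embeds G B H} * n.choose (s + 2) ≤
        #{B ∈ powersetCard (s + 2) (univ : Finset (Fin n)) | ¬ Embeds G B H} * n.choose r := by
      nlinarith
    apply Nat.le_of_mul_le_mul_right _ hpos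
    calc 8 * n ^ 2 * #{B ∈ powersetCard r (univ : Finset (Fin n)) | ¬ Embeds G B H} *
          n.choose (s + 2) = 8 * n ^ 2 * (#{B ∈ powersetCard r (univ : Finset (Fin n)) |
            ¬ Embeds G B H} * n.choose (s + 2)) := by ring
      _ ≤ 8 * n ^ 2 * (#{B ∈ powersetCard (s + 2) (univ : Finset (Fin n)) |
            ¬ Embeds G B H} * n.choose r) := Nat.mul_le_mul_left _ h2
      _ = (8 * n ^ 2 * #{B ∈ powersetCard (s + 2) (univ : Finset (Fin n)) |
            ¬ Embeds G B H}) * n.choose r := by ring
      _ ≤ n.choose (s + 2) * n.choose r := Nat.mul_le_mul_right _ he.le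
      _ = _ := by ring
  -- counts of non-unique sets
  have hb0 := card_not_uniq G H s
  have hb1 := card_not_uniq G H (s + 1)
  have hl0 := hlow s (by omega)
  have hl1 := hlow (s + 1) (by omega)
  set bad0 := {B ∈ powersetCard s (univ : Finset (Fin n)) | ¬ UniqEmb G B H} with hbad0
  set bad1 := {B ∈ powersetCard (s + 1) (univ : Finset (Fin n)) | ¬ UniqEmb G B H} with hbad1
  set bad2 := {B ∈ powersetCard (s + 2) (univ : Finset (Fin n)) | ¬ Embeds G B H} with hbad2
  set X := bad0 ∪ (bad1.biUnion (fun D => powersetCard s D) ∪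
    bad2.biUnion (fun D => powersetCard s D)) with hX
  have hXcard : X.card ≤ bad0.card + (bad1.card * (s + 1) + bad2.card * (s + 2).choose 2) := by
    refine (card_union_le _ _).trans (Nat.add_le_add_left ((card_union_le _ _).trans ?_) _)
    apply Nat.add_le_add
    · apply card_biUnion_le_card_mul
      intro D hD
      rw [hbad1, mem_filter, mem_powersetCard] at hD
      rw [card_powersetCard, hD.1.2]
      simp
    · apply card_biUnion_le_card_mul
      intro D hD
      rw [hbad2, mem_filter, mem_powersetCard] at hD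
      rw [card_powersetCard, hD.1.2]
      apply le_of_eq
      have : (s + 2).choose s = (s + 2).choose 2 := by
        rw [Nat.choose_symm_of_eq_add]; omega
      exact this
  have hlt : X.card < n.choose s := by
    have hn : 2 ≤ n := by omega
    have e1 : (s + 1) * n.choose (s + 1) = (n - s) * n.choose s := by
      have := Nat.choose_succ_right_eq n s
      rw [mul_comm, this, mul_comm]
    have e2 : (s + 2).choose 2 * n.choose (s + 2) = n.choose s * (n - s).choose 2 := by
      have := Nat.choose_mul (n := n) (k := s + 2) (s := s) (by omega)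
      have h3 : (s + 2).choose s = (s + 2).choose 2 := by
        rw [Nat.choose_symm_of_eq_add]; omega
      rw [h3] at this
      rw [mul_comm, this]
      congr 2
      omega
    have e3 : (n - s).choose 2 ≤ n ^ 2 := by
      calc (n - s).choose 2 ≤ (n - s) ^ 2 := Nat.choose_le_pow _ _
        _ ≤ n ^ 2 := Nat.pow_le_pow_left (Nat.sub_le _ _) 2
    have hpos : 0 < n.choose s := Nat.choose_pos (by omega)
    have h5 : 8 * n ^ 2 * bad0.card ≤ 4 * n.choose s := by
      calc 8 * n ^ 2 * bad0.card ≤ 8 * n ^ 2 * (2 * (#{B ∈ powersetCard s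
            (univ : Finset (Fin n)) | ¬ Embeds G B H} +
            #{B ∈ powersetCard s (univ : Finset (Fin n)) | ¬ Rigid G B})) :=
            Nat.mul_le_mul_left _ hb0
        _ = 2 * (8 * n ^ 2 * #{B ∈ powersetCard s (univ : Finset (Fin n)) | ¬ Embeds G B H} +
            8 * n ^ 2 * #{B ∈ powersetCard s (univ : Finset (Fin n)) | ¬ Rigid G B}) := by ring
        _ ≤ 2 * (n.choose s + n.choose s) := by
            apply Nat.mul_le_mul_left
            exact Nat.add_le_add hl0 hr0
        _ = _ := by ring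
    have h6 : 8 * n ^ 2 * bad1.card ≤ 4 * n.choose (s + 1) := by
      calc 8 * n ^ 2 * bad1.card ≤ 8 * n ^ 2 * (2 * (#{B ∈ powersetCard (s + 1)
            (univ : Finset (Fin n)) | ¬ Embeds G B H} +
            #{B ∈ powersetCard (s + 1) (univ : Finset (Fin n)) | ¬ Rigid G B})) :=
            Nat.mul_le_mul_left _ hb1
        _ = 2 * (8 * n ^ 2 * #{B ∈ powersetCard (s + 1) (univ : Finset (Fin n)) |
            ¬ Embeds G B H} +
            8 * n ^ 2 * #{B ∈ powersetCard (s + 1) (univ : Finset (Fin n)) | ¬ Rigid G B}) := by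
            ring
        _ ≤ 2 * (n.choose (s + 1) + n.choose (s + 1)) := by
            apply Nat.mul_le_mul_left
            exact Nat.add_le_add hl1 hr1
        _ = _ := by ring
    have h7 : 8 * n ^ 2 * X.card ≤
        4 * n.choose s + (4 * ((n - s) * n.choose s) + n.choose s * n ^ 2) := by
      calc 8 * n ^ 2 * X.card ≤ 8 * n ^ 2 *
            (bad0.card + (bad1.card * (s + 1) + bad2.card * (s + 2).choose 2)) :=
            Nat.mul_le_mul_left _ hXcard
        _ = 8 * n ^ 2 * bad0.card + ((s + 1) * (8 * n ^ 2 * bad1.card) +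
            (s + 2).choose 2 * (8 * n ^ 2 * bad2.card)) := by ring
        _ ≤ 4 * n.choose s + ((s + 1) * (4 * n.choose (s + 1)) +
            (s + 2).choose 2 * n.choose (s + 2)) := by
            apply Nat.add_le_add h5
            apply Nat.add_le_add
            · exact Nat.mul_le_mul_left _ h6
            · exact Nat.mul_le_mul_left _ he.le
        _ = 4 * n.choose s + (4 * ((s + 1) * n.choose (s + 1)) +
            (s + 2).choose 2 * n.choose (s + 2)) := by ring
        _ = 4 * n.choose s + (4 * ((n - s) * n.choose s) +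
            n.choose s * (n - s).choose 2) := by rw [e1, e2]
        _ ≤ _ := by
            apply Nat.add_le_add_left
            apply Nat.add_le_add_left
            exact Nat.mul_le_mul_left _ e3
    have h8 : 4 * n.choose s + (4 * ((n - s) * n.choose s) + n.choose s * n ^ 2) <
        8 * n ^ 2 * n.choose s := by
      have h9 : n - s ≤ n := Nat.sub_le _ _
      have h10 : 4 + (4 * (n - s) + n ^ 2) < 8 * n ^ 2 := by nlinarith
      calc 4 * n.choose s + (4 * ((n - s) * n.choose s) + n.choose s * n ^ 2)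
          = (4 + (4 * (n - s) + n ^ 2)) * n.choose s := by ring
        _ < 8 * n ^ 2 * n.choose s := Nat.mul_lt_mul_of_pos_right h10 hpos
    exact Nat.lt_of_mul_lt_mul_left (h7.trans_lt h8)
  obtain ⟨B, hB, hBX⟩ : ∃ B ∈ powersetCard s (univ : Finset (Fin n)), B ∉ X := by
    apply Finset.exists_mem_notMem_of_card_lt_card
    rw [card_powersetCard, card_univ, Fintype.card_fin]
    exact hlt
  rw [mem_powersetCard] at hB
  rw [hX, mem_union, mem_union, not_or, not_or] at hBX
  obtain ⟨hB0, hB1, hB2⟩ := hBX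
  apply iso_of_base G H B
  · by_contra hcon
    apply hB0
    rw [hbad0, mem_filter, mem_powersetCard]
    exact ⟨hB, hcon⟩
  · intro x hx
    by_contra hcon
    apply hB1
    rw [mem_biUnion]
    refine ⟨insert x B, ?_, ?_⟩
    · rw [hbad1, mem_filter, mem_powersetCard]
      refine ⟨⟨subset_univ _, ?_⟩, hcon⟩
      rw [card_insert_of_notMem hx, hB.2]
    · rw [mem_powersetCard]
      exact ⟨subset_insert _ _, hB.2⟩
  · intro x hx y hy hxy
    by_contra hcon
    apply hB2
    rw [mem_biUnion]
    refine ⟨insert x (insert y B), ?_, ?_⟩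
    · rw [hbad2, mem_filter, mem_powersetCard]
      refine ⟨⟨subset_univ _, ?_⟩, hcon⟩
      rw [card_insert_of_notMem, card_insert_of_notMem hy, hB.2]
      rw [mem_insert, not_or]
      exact ⟨hxy, hx⟩
    · rw [mem_powersetCard]
      exact ⟨(subset_insert _ _).trans (subset_insert _ _), hB.2⟩

end Pool.Agent.LibMP916a8b
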