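import Pool.Agent.LibMP916a8b.Rigid

/-!
Typical graphs: for most labelled graphs on `Fin n`, almost all small vertex sets are strongly
rigid.
-/

namespace Pool.Agent.LibMP916a8b

open Finset

set_option linter.unusedVariables false

section graphs

open Classical in
/-- the edge set as a finset -/
noncomputable def eset {n : ℕ} (G : SimpleGraph (Fin n)) : Finset (Sym2 (Fin n)) :=
  univ.filter (fun e => e ∈ G.edgeSet)

theorem mem_eset {n : ℕ} (G : SimpleGraph (Fin n)) (e : Sym2 (Fin n)) :
    e ∈ eset G ↔ e ∈ G.edgeSet := by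
  unfold eset
  simp

theorem eset_injective {n : ℕ} : Function.Injective (eset (n := n)) := by
  intro G H h
  apply SimpleGraph.edgeSet_injective
  ext e
  rw [← mem_eset, ← mem_eset, h]

theorem card_eset_top (n : ℕ) : (eset (⊤ : SimpleGraph (Fin n))).card = n.choose 2 := by
  classical
  have h := SimpleGraph.card_edgeFinset_top_eq_card_choose_two (V := Fin n)
  rw [Fintype.card_fin] at h
  rw [← h]
  congr 1
  ext e
  rw [mem_eset, SimpleGraph.mem_edgeFinset]

theorem eset_subset_top {n : ℕ} (G : SimpleGraph (Fin n)) :
    eset G ⊆ eset (⊤ : SimpleGraph (Fin n)) := by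
  intro e he
  rw [mem_eset] at he ⊢
  exact SimpleGraph.edgeSet_mono le_top he

theorem card_graphs (n : ℕ) : Fintype.card (SimpleGraph (Fin n)) = 2 ^ (n.choose 2) := by
  classical
  rw [← card_eset_top n, ← card_powerset, ← card_univ]
  apply le_antisymm
  · apply card_le_card_of_injOn eset
    · intro G _
      simpa using eset_subset_top G
    · exact eset_injective.injOn
  · apply card_le_card_of_injOn
      (fun s : Finset (Sym2 (Fin n)) => SimpleGraph.fromEdgeSet (s : Set (Sym2 (Fin n))))
    · intro s _
      simp
    · intro s hs t ht hst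
      have hs' : s ⊆ eset (⊤ : SimpleGraph (Fin n)) := by simpa using hs
      have ht' : t ⊆ eset (⊤ : SimpleGraph (Fin n)) := by simpa using ht
      have key : ∀ u : Finset (Sym2 (Fin n)), u ⊆ eset (⊤ : SimpleGraph (Fin n)) →
          (SimpleGraph.fromEdgeSet (u : Set (Sym2 (Fin n)))).edgeSet = (u : Set (Sym2 (Fin n))) := by
        intro u hu
        rw [SimpleGraph.edgeSet_fromEdgeSet]
        ext e
        simp only [Set.mem_diff, mem_coe]
        constructor
        · exact fun h => h.1
        · intro h
          refine ⟨h, ?_⟩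
          have := hu h
          rw [mem_eset] at this
          exact SimpleGraph.not_isDiag_of_mem_edgeSet _ this
      have h1 := congrArg SimpleGraph.edgeSet hst
      rw [key s hs', key t ht'] at h1
      exact_mod_cast h1

end graphs

section emb

variable {n : ℕ}

open Classical in
/-- Number of graphs for which `τ` is an embedding, given an independent rectangle. -/
theorem card_emb_le (B : Finset (Fin n)) (τ : Fin n → Fin n) (X Y : Finset (Fin n))
    (hXB : X ⊆ B) (hYB : Y ⊆ B) (hXY : Disjoint X Y) (hXτ : Disjoint X (X.image τ))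
    (hYτ : Disjoint Y (X.image τ)) :
    #{G : SimpleGraph (Fin n) | IsEmb G B G τ} * 2 ^ (X.card * Y.card) ≤ 2 ^ (n.choose 2) := by
  set L : Finset (Sym2 (Fin n)) := (X ×ˢ Y).image (fun q => s(q.1, q.2)) with hL
  have hLcard : L.card = X.card * Y.card := by
    rw [hL, card_image_of_injOn, card_product]
    rintro ⟨x, y⟩ hxy ⟨x', y'⟩ hxy' h
    simp only [coe_product, Set.mem_prod, mem_coe] at hxy hxy'
    simp only [Sym2.eq_iff] at h
    rcases h with ⟨rfl, rfl⟩ | ⟨rfl, rfl⟩
    · rfl
    · exact absurd hxy'.2 (Finset.disjoint_left.1 hXY hxy.1)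
  have hLtop : L ⊆ eset (⊤ : SimpleGraph (Fin n)) := by
    intro e he
    rw [hL, mem_image] at he
    obtain ⟨⟨x, y⟩, hxy, rfl⟩ := he
    rw [mem_product] at hxy
    rw [mem_eset]
    simp only [SimpleGraph.mem_edgeSet, SimpleGraph.top_adj]
    rintro rfl
    exact Finset.disjoint_left.1 hXY hxy.1 hxy.2
  have h1 : #{G : SimpleGraph (Fin n) | IsEmb G B G τ} ≤
      (eset (⊤ : SimpleGraph (Fin n)) \ L).powerset.card := by
    apply card_le_card_of_injOn (fun G => eset G \ L)
    · intro G _
      simp only [coe_powerset, Set.mem_preimage, Set.mem_powerset_iff, coe_subset]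
      exact sdiff_subset_sdiff (eset_subset_top G) subset_rfl
    · intro G hG G' hG' hGG'
      have hG1 : IsEmb G B G τ := by
        have : G ∈ ({G : SimpleGraph (Fin n) | IsEmb G B G τ} : Finset _) := by exact_mod_cast hG
        rw [mem_filter] at this; exact this.2
      have hG1' : IsEmb G' B G' τ := by
        have : G' ∈ ({G : SimpleGraph (Fin n) | IsEmb G B G τ} : Finset _) := by
          exact_mod_cast hG'
        rw [mem_filter] at this; exact this.2
      have hout : ∀ e, e ∉ L → (e ∈ G.edgeSet ↔ e ∈ G'.edgeSet) := by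
        intro e he
        have := Finset.ext_iff.1 hGG' e
        simp only [mem_sdiff, he, not_false_eq_true, and_true, mem_eset] at this
        exact this
      have hin : ∀ x ∈ X, ∀ y ∈ Y, (G.Adj x y ↔ G'.Adj x y) := by
        intro x hx y hy
        rw [← hG1.2 x (hXB hx) y (hYB hy), ← hG1'.2 x (hXB hx) y (hYB hy)]
        have hnot : s(τ x, τ y) ∉ L := by
          intro hmem
          rw [hL, mem_image] at hmem
          obtain ⟨⟨x', y'⟩, hxy', h⟩ := hmem
          rw [mem_product] at hxy'
          simp only [Sym2.eq_iff] at h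
          rcases h with ⟨h, h'⟩ | ⟨h, h'⟩
          · -- x' = τ x
            exact Finset.disjoint_left.1 hXτ hxy'.1 (by rw [h]; exact mem_image_of_mem _ hx)
          · -- y' = τ x
            exact Finset.disjoint_left.1 hYτ hxy'.2 (by rw [h']; exact mem_image_of_mem _ hx)
        have := hout _ hnot
        simpa only [SimpleGraph.mem_edgeSet] using this
      apply SimpleGraph.edgeSet_injective
      ext e
      by_cases he : e ∈ L
      · have he' := he
        rw [hL, mem_image] at he'
        obtain ⟨⟨x, y⟩, hxy, rfl⟩ := he'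
        rw [mem_product] at hxy
        simp only [SimpleGraph.mem_edgeSet]
        exact hin x hxy.1 y hxy.2
      · exact hout e he
  rw [card_powerset, card_sdiff_of_subset hLtop, card_eset_top, hLcard] at h1
  have h2 : X.card * Y.card ≤ n.choose 2 := by
    rw [← hLcard, ← card_eset_top n]; exact card_le_card hLtop
  calc _ ≤ 2 ^ (n.choose 2 - X.card * Y.card) * 2 ^ (X.card * Y.card) :=
        Nat.mul_le_mul_right _ h1
    _ = 2 ^ (n.choose 2) := by rw [← pow_add]; congr 1; omega

/-- Existence of a large independent part of the moved set. -/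
theorem exists_indep (R : Finset (Fin n)) (τ : Fin n → Fin n) (hinj : Set.InjOn τ (R : Set (Fin n)))
    (hmov : ∀ x ∈ R, τ x ≠ x) :
    ∃ X ⊆ R, Disjoint X (X.image τ) ∧ R.card ≤ 3 * X.card := by
  classical
  -- a maximal one
  let F : Finset (Finset (Fin n)) := R.powerset.filter (fun X => Disjoint X (X.image τ))
  have hF : F.Nonempty := ⟨∅, by simp [F]⟩
  obtain ⟨X, hX, hmax⟩ := F.exists_max_image Finset.card hF
  simp only [F, mem_filter, mem_powerset] at hX
  refine ⟨X, hX.1, hX.2, ?_⟩
  have hcover : R ⊆ X ∪ (X.image τ ∪ R.filter (fun x => τ x ∈ X)) := by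
    intro x hx
    by_contra hcon
    simp only [mem_union, mem_filter, not_or, not_and] at hcon
    obtain ⟨h1, h2, h3⟩ := hcon
    have h3' := h3 hx
    have hnew : insert x X ∈ F := by
      simp only [F, mem_filter, mem_powerset]
      refine ⟨insert_subset hx hX.1, ?_⟩
      rw [Finset.disjoint_left]
      intro a ha ha'
      rw [mem_insert] at ha
      rw [mem_image] at ha'
      obtain ⟨b, hb, hba⟩ := ha'
      rw [mem_insert] at hb
      rcases ha with rfl | ha
      · rcases hb with rfl | hb
        · exact hmov _ hx hba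
        · exact h2 (by rw [← hba]; exact mem_image_of_mem _ hb)
      · rcases hb with rfl | hb
        · rw [hba] at h3'; exact h3' ha
        · exact Finset.disjoint_left.1 hX.2 ha (by rw [← hba]; exact mem_image_of_mem _ hb)
    have := hmax _ hnew
    rw [card_insert_of_notMem h1] at this
    omega
  have h4 : (R.filter (fun x => τ x ∈ X)).card ≤ X.card := by
    apply card_le_card_of_injOn τ
    · intro x hx
      have : x ∈ R.filter (fun x => τ x ∈ X) := by exact_mod_cast hx
      rw [mem_filter] at this
      exact_mod_cast this.2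
    · intro x hx y hy hxy
      have hx' : x ∈ R.filter (fun x => τ x ∈ X) := by exact_mod_cast hx
      have hy' : y ∈ R.filter (fun x => τ x ∈ X) := by exact_mod_cast hy
      rw [mem_filter] at hx' hy'
      exact hinj (by exact_mod_cast hx'.1) (by exact_mod_cast hy'.1) hxy
  calc R.card ≤ (X ∪ (X.image τ ∪ R.filter (fun x => τ x ∈ X))).card := card_le_card hcover
    _ ≤ X.card + ((X.image τ).card + (R.filter (fun x => τ x ∈ X)).card) := by
        refine (card_union_le _ _).trans ?_
        exact Nat.add_le_add_left (card_union_le _ _) _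
    _ ≤ X.card + (X.card + X.card) := by
        have := card_image_le (s := X) (f := τ)
        omega
    _ = 3 * X.card := by ring

open Classical in
/-- Number of graphs for which `τ` is an embedding of `G[B]`, in terms of the number of moved
points. -/
theorem card_emb_le_pow (B : Finset (Fin n)) (τ : Fin n → Fin n) :
    (#{G : SimpleGraph (Fin n) | IsEmb G B G τ} : ℝ) ≤
      2 ^ (n.choose 2) * ((1 / 2 : ℝ) ^ ((B.card - 3) / 8)) ^ #{x ∈ B | τ x ≠ x} := by
  by_cases hinj : Set.InjOn τ (B : Set (Fin n))
  · set R := {x ∈ B | τ x ≠ x} with hR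
    have hRB : R ⊆ B := filter_subset _ _
    obtain ⟨X0, hX0R, hX0, hcard⟩ := exists_indep R τ (hinj.mono (by exact_mod_cast hRB))
      (fun x hx => (mem_filter.1 hx).2)
    have hle : (R.card + 3) / 4 ≤ X0.card := by omega
    obtain ⟨X, hXX0, hXcard⟩ := Finset.exists_subset_card_eq hle
    set Y := B \ (X ∪ X.image τ) with hY
    have hXτ : Disjoint X (X.image τ) :=
      hX0.mono hXX0 (image_subset_image hXX0)
    have hXY : Disjoint X Y := by
      rw [Finset.disjoint_left]
      intro x hx hx'
      rw [hY, mem_sdiff, mem_union] at hx'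
      exact hx'.2 (Or.inl hx)
    have hYτ : Disjoint Y (X.image τ) := by
      rw [Finset.disjoint_left]
      intro x hx hx'
      rw [hY, mem_sdiff, mem_union] at hx
      exact hx.2 (Or.inr hx')
    have h := card_emb_le B τ X Y ((hXX0.trans hX0R).trans hRB) sdiff_subset hXY hXτ hYτ
    have hRle : R.card ≤ B.card := card_le_card hRB
    have hYcard : B.card - 3 ≤ 2 * Y.card := by
      have h1 : B.card - (X ∪ X.image τ).card ≤ Y.card := le_card_sdiff _ _
      have h2 : (X ∪ X.image τ).card ≤ 2 * X.card := by
        refine (card_union_le _ _).trans ?_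
        have := card_image_le (s := X) (f := τ)
        omega
      omega
    have hprod : (B.card - 3) / 8 * R.card ≤ X.card * Y.card := by
      have h1 : 4 * ((B.card - 3) / 8) ≤ Y.card := by omega
      have h2 : R.card ≤ 4 * X.card := by omega
      calc (B.card - 3) / 8 * R.card ≤ (B.card - 3) / 8 * (4 * X.card) :=
            Nat.mul_le_mul_left _ h2
        _ = X.card * (4 * ((B.card - 3) / 8)) := by ring
        _ ≤ _ := Nat.mul_le_mul_left _ h1
    rw [← pow_mul]
    have h3 : (#{G : SimpleGraph (Fin n) | IsEmb G B G τ} : ℝ) * 2 ^ (X.card * Y.card) ≤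
        2 ^ (n.choose 2) := by exact_mod_cast h
    have h4 : (#{G : SimpleGraph (Fin n) | IsEmb G B G τ} : ℝ) ≤
        2 ^ (n.choose 2) * (1 / 2) ^ (X.card * Y.card) := by
      rw [one_div, inv_pow, ← div_eq_mul_inv, le_div_iff₀ (by positivity)]
      exact h3
    refine h4.trans ?_
    apply mul_le_mul_of_nonneg_left _ (by positivity)
    exact pow_le_pow_of_le_one (by norm_num) (by norm_num) hprod
  · have : #{G : SimpleGraph (Fin n) | IsEmb G B G τ} = 0 := by
      rw [card_eq_zero]
      apply filter_false_of_mem
      intro G _ hG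
      exact hinj hG.1
    rw [this]
    simp only [Nat.cast_zero]
    positivity

open Classical in
/-- Number of graphs for which a given set is not rigid. -/
theorem card_not_rigid (B : Finset (Fin n)) :
    (#{G : SimpleGraph (Fin n) | ¬ Rigid G B} : ℝ) ≤
      2 ^ (n.choose 2) * ((1 + n * (1 / 2 : ℝ) ^ ((B.card - 3) / 8)) ^ B.card - 1) := by
  set w : ℝ := (1 / 2 : ℝ) ^ ((B.card - 3) / 8) with hw
  have hw0 : 0 ≤ w := by positivity
  let ext : (B → Fin n) → (Fin n → Fin n) := fun τ x => if h : x ∈ B then τ ⟨x, h⟩ else x
  let incl : B → Fin n := fun x => x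
  have hcover : ({G : SimpleGraph (Fin n) | ¬ Rigid G B} : Finset _) ⊆
      (univ.erase incl).biUnion (fun τ => {G : SimpleGraph (Fin n) | IsEmb G B G (ext τ)}) := by
    intro G hG
    rw [mem_filter] at hG
    have h := hG.2
    unfold Rigid at h
    push Not at h
    obtain ⟨τ, hτ, y, hy, hne⟩ := h
    rw [mem_biUnion]
    refine ⟨fun x => τ x, ?_, ?_⟩
    · rw [mem_erase]
      refine ⟨?_, mem_univ _⟩
      intro heq
      have := congrFun heq ⟨y, hy⟩
      exact hne this
    · rw [mem_filter]
      refine ⟨mem_univ _, ?_⟩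
      apply hτ.congr
      intro x hx
      simp only [ext, dif_pos hx]
  have hmoved : ∀ τ : B → Fin n, w ^ #{x ∈ B | ext τ x ≠ x} =
      ∏ x : B, (if τ x = x then (1 : ℝ) else w) := by
    intro τ
    rw [Finset.prod_ite, prod_const_one, one_mul, prod_const]
    congr 1
    symm
    apply Finset.card_bij (fun (x : B) _ => (x : Fin n))
    · intro x hx
      rw [mem_filter] at hx
      rw [mem_filter]
      refine ⟨x.2, ?_⟩
      simp only [ext, dif_pos x.2]
      exact hx.2
    · intro x _ y _ h
      exact Subtype.ext h
    · intro x hx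
      rw [mem_filter] at hx
      refine ⟨⟨x, hx.1⟩, ?_, rfl⟩
      rw [mem_filter]
      refine ⟨mem_univ _, ?_⟩
      have := hx.2
      simp only [ext, dif_pos hx.1] at this
      exact this
  have hsumall : ∑ τ : B → Fin n, ∏ x : B, (if τ x = x then (1 : ℝ) else w) ≤
      (1 + n * w) ^ B.card := by
    have h1 := Finset.prod_univ_sum (fun _ : B => (univ : Finset (Fin n)))
      (fun (x : B) (z : Fin n) => if z = x then (1 : ℝ) else w)
    rw [Fintype.piFinset_univ] at h1
    rw [← h1]
    calc ∏ x : B, ∑ z : Fin n, (if z = (x : Fin n) then (1 : ℝ) else w)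
        ≤ ∏ x : B, (1 + n * w) := by
          apply Finset.prod_le_prod
          · intro x _
            apply Finset.sum_nonneg
            intro z _
            split_ifs
            · norm_num
            · exact hw0
          · intro x _
            calc ∑ z : Fin n, (if z = (x : Fin n) then (1 : ℝ) else w)
                ≤ ∑ z : Fin n, ((if z = (x : Fin n) then (1 : ℝ) else 0) + w) := by
                  apply Finset.sum_le_sum
                  intro z _
                  split_ifs <;> linarith
              _ = 1 + n * w := by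
                  rw [Finset.sum_add_distrib, Finset.sum_ite_eq', if_pos (mem_univ _), sum_const,
                    card_univ, Fintype.card_fin, nsmul_eq_mul]
      _ = (1 + n * w) ^ B.card := by
          rw [prod_const, card_univ, Fintype.card_coe]
  have hsum : ∑ τ ∈ univ.erase incl, ∏ x : B, (if τ x = x then (1 : ℝ) else w) ≤
      (1 + n * w) ^ B.card - 1 := by
    have h1 := Finset.sum_erase_add (s := (univ : Finset (B → Fin n)))
      (f := fun τ => ∏ x : B, (if τ x = x then (1 : ℝ) else w)) (a := incl) (mem_univ _)
    have h2 : ∏ x : B, (if incl x = x then (1 : ℝ) else w) = 1 := by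
      apply Finset.prod_eq_one
      intro x _
      simp [incl]
    rw [h2] at h1
    linarith
  calc (#{G : SimpleGraph (Fin n) | ¬ Rigid G B} : ℝ)
      ≤ ((∑ τ ∈ univ.erase incl, #{G : SimpleGraph (Fin n) | IsEmb G B G (ext τ)} : ℕ) : ℝ) := by
        exact_mod_cast (card_le_card hcover).trans card_biUnion_le
    _ = ∑ τ ∈ univ.erase incl, (#{G : SimpleGraph (Fin n) | IsEmb G B G (ext τ)} : ℝ) := by
        push_cast; rfl
    _ ≤ ∑ τ ∈ univ.erase incl, 2 ^ (n.choose 2) *
          ∏ x : B, (if τ x = x then (1 : ℝ) else w) := by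
        apply Finset.sum_le_sum
        intro τ _
        rw [← hmoved τ]
        exact card_emb_le_pow B (ext τ)
    _ = 2 ^ (n.choose 2) * ∑ τ ∈ univ.erase incl, ∏ x : B, (if τ x = x then (1 : ℝ) else w) := by
        rw [Finset.mul_sum]
    _ ≤ _ := mul_le_mul_of_nonneg_left hsum (by positivity)

end emb

end Pool.Agent.LibMP916a8b
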