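import Pool.Agent.LibMP916a8b.Typical

/-!
Typical graphs, continued.
-/

namespace Pool.Agent.LibMP916a8b

open Finset

set_option linter.unusedVariables false

/-- base size -/
def s0 (n : ℕ) : ℕ := 100 * (Nat.log 2 n + 1)

open Classical in
/-- typical graphs -/
def Typical {n : ℕ} (G : SimpleGraph (Fin n)) : Prop :=
  32 * n ^ 2 * #{C ∈ powersetCard (s0 n) (univ : Finset (Fin n)) | ¬ Strong G C} ≤
    n.choose (s0 n)

open Classical in
theorem card_not_rigid' {n : ℕ} (hn : 2 ≤ n) (B : Finset (Fin n)) (hB : s0 n ≤ B.card) :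
    (#{G : SimpleGraph (Fin n) | ¬ Rigid G B} : ℝ) ≤
      2 ^ (n.choose 2) * (2 * (1 / (n : ℝ)) ^ 10) := by
  refine (card_not_rigid B).trans ?_
  apply mul_le_mul_of_nonneg_left _ (by positivity)
  set L := Nat.log 2 n + 1 with hL
  have hnpos : (0 : ℝ) < n := by positivity
  have hn2 : (2 : ℝ) ≤ n := by exact_mod_cast hn
  have he : 12 * L ≤ (B.card - 3) / 8 := by
    have : 100 * L ≤ B.card := hB
    omega
  have hpow : (n : ℝ) ≤ 2 ^ L := by
    have := (Nat.lt_pow_succ_log_self (b := 2) (by norm_num) n).le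
    exact_mod_cast this
  have h1 : (1 / 2 : ℝ) ^ ((B.card - 3) / 8) ≤ (1 / (n : ℝ)) ^ 12 := by
    calc (1 / 2 : ℝ) ^ ((B.card - 3) / 8) ≤ (1 / 2 : ℝ) ^ (12 * L) :=
          pow_le_pow_of_le_one (by norm_num) (by norm_num) he
      _ = (1 / 2 ^ L) ^ 12 := by rw [mul_comm, pow_mul, one_div_pow]
      _ ≤ (1 / (n : ℝ)) ^ 12 := by
          apply pow_le_pow_left₀ (by positivity)
          exact one_div_le_one_div_of_le hnpos hpow
  have hc : (B.card : ℝ) ≤ n := by
    have := card_le_univ B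
    rw [Fintype.card_fin] at this
    exact_mod_cast this
  set y : ℝ := n * (1 / 2 : ℝ) ^ ((B.card - 3) / 8) with hy
  have hy0 : 0 ≤ y := by positivity
  have hy1 : y ≤ (1 / (n : ℝ)) ^ 11 := by
    calc y ≤ n * (1 / (n : ℝ)) ^ 12 := mul_le_mul_of_nonneg_left h1 hnpos.le
      _ = (1 / (n : ℝ)) ^ 11 := by field_simp
  have h2 : (1 + y) ^ B.card ≤ Real.exp ((1 / (n : ℝ)) ^ 10) := by
    calc (1 + y) ^ B.card ≤ (Real.exp y) ^ B.card := by
          apply pow_le_pow_left₀ (by positivity)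
          have := Real.add_one_le_exp y
          linarith
      _ = Real.exp (B.card * y) := by rw [← Real.exp_nat_mul]
      _ ≤ Real.exp ((1 / (n : ℝ)) ^ 10) := by
          apply Real.exp_le_exp.2
          calc (B.card : ℝ) * y ≤ n * (1 / (n : ℝ)) ^ 11 := by
                apply mul_le_mul hc hy1 hy0 hnpos.le
            _ = (1 / (n : ℝ)) ^ 10 := by field_simp
  have h3 : (1 / (n : ℝ)) ^ 10 ≤ 1 := by
    apply pow_le_one₀ (by positivity)
    rw [div_le_one hnpos]; linarith
  have h4 := Real.abs_exp_sub_one_le (x := (1 / (n : ℝ)) ^ 10) (by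
    rw [abs_of_nonneg (by positivity)]; exact h3)
  rw [abs_of_nonneg (a := (1 / (n : ℝ)) ^ 10) (by positivity)] at h4
  have h5 := le_abs_self (Real.exp ((1 / (n : ℝ)) ^ 10) - 1)
  linarith

open Classical in
theorem card_not_strong {n : ℕ} (hn : 2 ≤ n) (C : Finset (Fin n)) (hC : s0 n ≤ C.card) :
    (#{G : SimpleGraph (Fin n) | ¬ Strong G C} : ℝ) ≤
      2 ^ (n.choose 2) * (2 * (1 / (n : ℝ)) ^ 9) := by
  have hcover : ({G : SimpleGraph (Fin n) | ¬ Strong G C} : Finset _) ⊆
      (univ : Finset (Fin n)).biUnion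
        (fun x => {G : SimpleGraph (Fin n) | ¬ Rigid G (insert x C)}) := by
    intro G hG
    rw [mem_filter] at hG
    have h := hG.2
    unfold Strong at h
    push Not at h
    obtain ⟨x, hx⟩ := h
    rw [mem_biUnion]
    exact ⟨x, mem_univ _, by rw [mem_filter]; exact ⟨mem_univ _, hx⟩⟩
  have hnpos : (0 : ℝ) < n := by positivity
  calc (#{G : SimpleGraph (Fin n) | ¬ Strong G C} : ℝ)
      ≤ ((∑ x : Fin n, #{G : SimpleGraph (Fin n) | ¬ Rigid G (insert x C)} : ℕ) : ℝ) := by
        exact_mod_cast (card_le_card hcover).trans card_biUnion_le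
    _ = ∑ x : Fin n, (#{G : SimpleGraph (Fin n) | ¬ Rigid G (insert x C)} : ℝ) := by
        push_cast; rfl
    _ ≤ ∑ x : Fin n, 2 ^ (n.choose 2) * (2 * (1 / (n : ℝ)) ^ 10) := by
        apply Finset.sum_le_sum
        intro x _
        apply card_not_rigid' hn
        exact hC.trans (card_le_card (subset_insert _ _))
    _ = 2 ^ (n.choose 2) * (2 * (1 / (n : ℝ)) ^ 9) := by
        rw [sum_const, card_univ, Fintype.card_fin, nsmul_eq_mul]
        field_simp

open Classical in
/-- Most graphs are typical. -/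
theorem card_not_typical {n : ℕ} (hn : 2 ≤ n) :
    (n : ℝ) * (#{G : SimpleGraph (Fin n) | ¬ Typical G} : ℝ) ≤ 2 ^ (n.choose 2) := by
  have hnpos : (0 : ℝ) < n := by positivity
  have hn2 : (2 : ℝ) ≤ n := by exact_mod_cast hn
  set K := n.choose (s0 n) with hK
  rcases Nat.eq_zero_or_pos K with hK0 | hKpos
  · have : #{G : SimpleGraph (Fin n) | ¬ Typical G} = 0 := by
      rw [card_eq_zero]
      apply filter_false_of_mem
      intro G _
      rw [not_not]
      unfold Typical
      have h0 : #{C ∈ powersetCard (s0 n) (univ : Finset (Fin n)) | ¬ Strong G C} ≤ K := by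
        refine (card_filter_le _ _).trans ?_
        rw [card_powersetCard, card_univ, Fintype.card_fin]
      rw [← hK, hK0]
      rw [hK0] at h0
      rw [Nat.le_zero.1 h0]
      simp
    rw [this]
    simp
  have hKpos' : (0 : ℝ) < K := by exact_mod_cast hKpos
  set bad : SimpleGraph (Fin n) → ℕ := fun G =>
    #{C ∈ powersetCard (s0 n) (univ : Finset (Fin n)) | ¬ Strong G C} with hbad
  have hsum : ∑ G : SimpleGraph (Fin n), (bad G : ℝ) ≤
      K * (2 ^ (n.choose 2) * (2 * (1 / (n : ℝ)) ^ 9)) := by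
    have h1 : ∑ G : SimpleGraph (Fin n), bad G =
        ∑ C ∈ powersetCard (s0 n) (univ : Finset (Fin n)),
          #{G : SimpleGraph (Fin n) | ¬ Strong G C} := by
      simp only [hbad, Finset.card_filter]
      rw [Finset.sum_comm]
    have h2 : ∑ G : SimpleGraph (Fin n), (bad G : ℝ) =
        ∑ C ∈ powersetCard (s0 n) (univ : Finset (Fin n)),
          (#{G : SimpleGraph (Fin n) | ¬ Strong G C} : ℝ) := by
      exact_mod_cast h1
    rw [h2]
    calc _ ≤ ∑ C ∈ powersetCard (s0 n) (univ : Finset (Fin n)),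
          2 ^ (n.choose 2) * (2 * (1 / (n : ℝ)) ^ 9) := by
          apply Finset.sum_le_sum
          intro C hC
          rw [mem_powersetCard] at hC
          exact card_not_strong hn C hC.2.ge
      _ = _ := by
          rw [sum_const, card_powersetCard, card_univ, Fintype.card_fin, nsmul_eq_mul]
  set S : Finset (SimpleGraph (Fin n)) := {G : SimpleGraph (Fin n) | ¬ Typical G} with hS
  have hmarkov : (S.card : ℝ) * (K / (32 * n ^ 2)) ≤ ∑ G : SimpleGraph (Fin n), (bad G : ℝ) := by
    calc (S.card : ℝ) * (K / (32 * n ^ 2)) = ∑ G ∈ S, (K / (32 * n ^ 2) : ℝ) := by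
          rw [sum_const, nsmul_eq_mul]
      _ ≤ ∑ G ∈ S, (bad G : ℝ) := by
          apply Finset.sum_le_sum
          intro G hG
          rw [hS, mem_filter] at hG
          have h := hG.2
          unfold Typical at h
          rw [not_le] at h
          rw [div_le_iff₀ (by positivity)]
          have h' : (K : ℝ) ≤ 32 * n ^ 2 * bad G := by exact_mod_cast h.le
          linarith
      _ ≤ _ := Finset.sum_le_univ_sum_of_nonneg (fun G => Nat.cast_nonneg _)
  have h3 := hmarkov.trans hsum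
  have h4 : (S.card : ℝ) * (K / (32 * n ^ 2)) =
      K * (S.card / (32 * n ^ 2)) := by ring
  rw [h4] at h3
  have h5 := le_of_mul_le_mul_left h3 hKpos'
  rw [div_le_iff₀ (by positivity)] at h5
  have h6 : (n : ℝ) * (2 ^ (n.choose 2) * (2 * (1 / (n : ℝ)) ^ 9) * (32 * n ^ 2)) =
      2 ^ (n.choose 2) * (64 * (1 / (n : ℝ)) ^ 6) := by
    field_simp
    ring
  have h7 : 64 * (1 / (n : ℝ)) ^ 6 ≤ 1 := by
    have : (1 / (n : ℝ)) ^ 6 ≤ (1 / 2) ^ 6 := by
      apply pow_le_pow_left₀ (by positivity)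
      exact one_div_le_one_div_of_le (by norm_num) hn2
    calc 64 * (1 / (n : ℝ)) ^ 6 ≤ 64 * (1 / 2) ^ 6 := by linarith
      _ = 1 := by norm_num
  calc (n : ℝ) * (S.card : ℝ) ≤ n * (2 ^ (n.choose 2) * (2 * (1 / (n : ℝ)) ^ 9) * (32 * n ^ 2)) :=
        mul_le_mul_of_nonneg_left h5 hnpos.le
    _ = 2 ^ (n.choose 2) * (64 * (1 / (n : ℝ)) ^ 6) := h6
    _ ≤ 2 ^ (n.choose 2) * 1 := mul_le_mul_of_nonneg_left h7 (by positivity)
    _ = _ := mul_one _

open Classical in
/-- For typical graphs, almost all sets of size at least `s0 n` are strong. -/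
theorem typical_strong {n s : ℕ} {G : SimpleGraph (Fin n)} (hG : Typical G) (h : s0 n ≤ s)
    (hs : s ≤ n) :
    32 * n ^ 2 * #{C ∈ powersetCard s (univ : Finset (Fin n)) | ¬ Strong G C} ≤ n.choose s := by
  have h1 := downclosed_card (α := Fin n) (p := fun B => ¬ Strong G B)
    (fun C C0 hC hC0 hstr => hC (hstr.mono hC0)) h (by rw [Fintype.card_fin]; exact hs)
  rw [Fintype.card_fin] at h1
  unfold Typical at hG
  have hpos : 0 < n.choose (s0 n) := Nat.choose_pos (h.trans hs)
  apply Nat.le_of_mul_le_mul_right _ hpos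
  calc 32 * n ^ 2 * #{C ∈ powersetCard s (univ : Finset (Fin n)) | ¬ Strong G C} *
        n.choose (s0 n) = 32 * n ^ 2 * (#{C ∈ powersetCard s (univ : Finset (Fin n)) |
          ¬ Strong G C} * n.choose (s0 n)) := by ring
    _ ≤ 32 * n ^ 2 * (#{C ∈ powersetCard (s0 n) (univ : Finset (Fin n)) |
          ¬ Strong G C} * n.choose s) := Nat.mul_le_mul_left _ h1
    _ = (32 * n ^ 2 * #{C ∈ powersetCard (s0 n) (univ : Finset (Fin n)) |
          ¬ Strong G C}) * n.choose s := by ring
    _ ≤ n.choose (s0 n) * n.choose s := Nat.mul_le_mul_right _ hG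
    _ = _ := by ring

open Classical in
/-- For typical `G` and `H` not isomorphic to `G`, many `k`-subsets of `G` do not embed in `H`. -/
theorem many_nonembeddable {n k : ℕ} {G H : SimpleGraph (Fin n)} (hG : Typical G)
    (hGH : ¬ Nonempty (G ≃g H)) (hk : s0 n + 2 ≤ k) (hkn : k ≤ n) :
    n.choose k ≤ 8 * n ^ 2 * #{C ∈ powersetCard k (univ : Finset (Fin n)) | ¬ Embeds G C H} := by
  by_contra hcon
  rw [not_le] at hcon
  apply hGH
  obtain ⟨s, rfl⟩ : ∃ s, k = s + 2 := ⟨k - 2, by omega⟩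
  have hle : ∀ r, #{B ∈ powersetCard r (univ : Finset (Fin n)) | ¬ Rigid G B} ≤
      #{B ∈ powersetCard r (univ : Finset (Fin n)) | ¬ Strong G B} := by
    intro r
    apply card_le_card
    intro B hB
    rw [mem_filter] at hB ⊢
    exact ⟨hB.1, fun h => hB.2 h.rigid⟩
  apply rigidity G H hkn _ _ hcon
  · have := typical_strong hG (s := s) (by omega) (by omega)
    calc _ ≤ 8 * n ^ 2 * #{B ∈ powersetCard s (univ : Finset (Fin n)) | ¬ Strong G B} :=
          Nat.mul_le_mul_left _ (hle s)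
      _ ≤ 32 * n ^ 2 * #{B ∈ powersetCard s (univ : Finset (Fin n)) | ¬ Strong G B} := by
          apply Nat.mul_le_mul_right
          omega
      _ ≤ _ := this
  · have := typical_strong hG (s := s + 1) (by omega) (by omega)
    calc _ ≤ 8 * n ^ 2 * #{B ∈ powersetCard (s + 1) (univ : Finset (Fin n)) | ¬ Strong G B} :=
          Nat.mul_le_mul_left _ (hle (s + 1))
      _ ≤ 32 * n ^ 2 * #{B ∈ powersetCard (s + 1) (univ : Finset (Fin n)) | ¬ Strong G B} := by
          apply Nat.mul_le_mul_right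
          omega
      _ ≤ _ := this

end Pool.Agent.LibMP916a8b
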